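import Pool.Agent.L0h7.CG.Track
import Pool.Agent.N510.CT.Ati

set_option autoImplicit false
set_option linter.unusedSectionVars false

/-! Kernel dimensions in the format of the problem and nullities of covers. -/

namespace Pool.Agent.L0h7.CG

open Matrix TH57.Thr.Ati Pool.Agent.R719.AT Pool.Agent.R472.Grid Pool.Agent.Y477.AV
open Pool.Agent.W656.VA (Val kerDim exists_kerDim val_kerDim base_change gap_val IsLcm)

/-- `Q` is a finite connected cubic graph, `γ` are voltages, and the cover is connected if `G` is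
finitely generated. -/
def Good {G : Type} [Group G] {V : Type} (Q : SimpleGraph V) (γ : V → V → G) : Prop :=
  Q.Connected ∧ (∀ v, (Q.neighborSet v).ncard = 3) ∧ (∀ v w, γ w v = (γ v w)⁻¹) ∧
    (Group.FG G → (cover Q γ).Connected)

variable {G : Type} [Group G]

theorem good_of_int {m n : ℕ} (A : Matrix (Fin m) (Fin n) (G →₀ ℂ))
    (hA : ∀ i j g, ∃ z : ℤ, A i j g = z) :
    ∃ (V : Type) (_ : Fintype V) (Q : SimpleGraph V) (γ : V → V → G), Good Q γ ∧
      nullity (cover Q γ) = kerDim A := by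
  obtain ⟨V, i, Q, γ, h1, h2, h3, h4, h5⟩ := cg_cover (ofm A) (fun i j g => hA i j g)
  exact ⟨V, i, Q, γ, ⟨h1, h2, h3, h4⟩, by rw [kerDim_kap, h5]⟩

theorem good_of_rat {m n : ℕ} (A : Matrix (Fin m) (Fin n) (G →₀ ℂ))
    (hA : ∀ i j g, ∃ q : ℚ, A i j g = q) :
    ∃ (V : Type) (_ : Fintype V) (Q : SimpleGraph V) (γ : V → V → G), Good Q γ ∧
      nullity (cover Q γ) = kerDim A := by
  obtain ⟨A', hA', hk⟩ := clear_den (∅ : Set ℂ) (ofm A) (fun i j g => by
    obtain ⟨q, hq⟩ := hA i j g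
    change A i j g ∈ _
    rw [hq]
    exact SubfieldClass.ratCast_mem _ q)
  obtain ⟨V, i, Q, γ, h1, h2, h3, h4, h5⟩ := cg_cover A' (fun i j g => by
    have h := hA' i j g
    rw [Subring.closure_empty] at h
    obtain ⟨z, hz⟩ := Subring.mem_bot.1 h
    exact ⟨z, hz.symm⟩)
  exact ⟨V, i, Q, γ, ⟨h1, h2, h3, h4⟩, by rw [kerDim_kap, h5, hk]⟩

theorem good_of_val {v : ℝ} (hv : Val (Int.castRingHom ℂ).range G v) :
    ∃ (V : Type) (_ : Fintype V) (Q : SimpleGraph V) (γ : V → V → G), Good Q γ ∧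
      nullity (cover Q γ) = v := by
  obtain ⟨m, n, A, hA, hAv⟩ := exists_kerDim hv
  obtain ⟨V, i, Q, γ, h1, h2⟩ := good_of_int A (fun i j g => by
    obtain ⟨z, hz⟩ := hA i j g
    exact ⟨z, hz.symm⟩)
  exact ⟨V, i, Q, γ, h1, h2.trans hAv⟩

theorem kerDim_of_null {V : Type} [Fintype V] (Q : SimpleGraph V) (γ : V → V → G)
    (hγ : ∀ v w, γ w v = (γ v w)⁻¹) :
    ∃ (m : ℕ) (A : Matrix (Fin m) (Fin m) (G →₀ ℂ)), (∀ i j g, ∃ z : ℤ, A i j g = z) ∧
      kerDim A = nullity (cover Q γ) := by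
  classical
  let e : Fin (Fintype.card V) ≃ V := (Fintype.equivFin V).symm
  refine ⟨Fintype.card V, Matrix.of fun i j => (vmat Q γ (e i) (e j)).coeff,
    fun i j g => vmat_int Q γ _ _ g, ?_⟩
  rw [nullity_eq Q γ hγ, kerDim_kap, ← kap_re e e (vmat Q γ)]
  rfl

/-- graphs of degree at most two -/
theorem null_two {V : Type} [Fintype V] (Q : SimpleGraph V) (γ : V → V → G)
    (hγ : ∀ v w, γ w v = (γ v w)⁻¹) (hd : ∀ v, (Q.neighborSet v).ncard ≤ 2) :
    ∃ (n : ℕ) (H : Fin n → Subgroup G), n ≤ Fintype.card V ∧ (∀ i, Finite (H i)) ∧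
      nullity (cover Q γ) = ∑ i, (Nat.card (H i) : ℝ)⁻¹ := by
  classical
  rw [nullity_eq Q γ hγ]
  refine kap_two_cols (vmat Q γ) (fun j => ?_) (fun i j => ?_)
  · refine le_trans (Set.ncard_le_ncard ?_ (Set.toFinite _)) (hd j)
    intro i hi
    have hi' : vmat Q γ i j ≠ 0 := hi
    unfold vmat at hi'
    rw [Matrix.of_apply] at hi'
    by_cases h : Q.Adj i j
    · exact h.symm
    · rw [if_neg h] at hi'
      exact absurd rfl hi'
  · unfold vmat
    rw [Matrix.of_apply]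
    split_ifs
    · exact Or.inr ⟨_, 1, norm_one, rfl⟩
    · exact Or.inl rfl

theorem null_two_tf (hG : TorsionFree G) {V : Type} [Fintype V] (Q : SimpleGraph V)
    (γ : V → V → G) (hγ : ∀ v w, γ w v = (γ v w)⁻¹) (hd : ∀ v, (Q.neighborSet v).ncard ≤ 2) :
    ∃ z : ℤ, nullity (cover Q γ) = z := by
  obtain ⟨n, H, _, hH, h⟩ := null_two Q γ hγ hd
  have h1 : ∀ i, Nat.card (H i) = 1 := fun i => by
    have := (W656.VA.isLcm_one hG).2.1 (H i) (hH i)
    exact Nat.dvd_one.1 this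
  refine ⟨n, ?_⟩
  rw [h]
  simp [h1]

/-- the equivalence for closed classes of torsion-free groups -/
theorem tfae_class {C : (G : Type) → [Group G] → Prop} (hC : ClosedClass C) : List.TFAE [
    ∀ (G : Type) [Group G], C G → ∀ (m n : ℕ) (A : Matrix (Fin m) (Fin n) (G →₀ ℂ)),
      ∃ z : ℤ, kerDim A = z,
    ∀ (G : Type) [Group G], C G → Group.FG G → ∀ (V : Type) [Fintype V] (Q : SimpleGraph V)
      (γ : V → V → G), Good Q γ → ∃ z : ℤ, nullity (cover Q γ) = z,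
    ∃ r : ℝ, 0 ≤ r ∧ ∀ (G : Type) [Group G], C G → Group.FG G → ∀ (V : Type) [Fintype V]
      (Q : SimpleGraph V) (γ : V → V → G), Good Q γ → nullity (cover Q γ) ≠ r] := by
  tfae_have 1 → 2 := by
    intro h G _ hG _ V _ Q γ hQ
    obtain ⟨m, A, _, hA⟩ := kerDim_of_null Q γ hQ.2.2.1
    obtain ⟨z, hz⟩ := h G hG m m A
    exact ⟨z, by rw [← hA, hz]⟩
  tfae_have 2 → 3 := by
    intro h
    refine ⟨1 / 2, by norm_num, ?_⟩
    intro G _ hG hf V _ Q γ hQ hr
    obtain ⟨z, hz⟩ := h G hG hf V Q γ hQ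
    rw [hr] at hz
    have h1 : (2 * z : ℝ) = 1 := by linarith
    have h2 : 2 * z = 1 := by exact_mod_cast h1
    omega
  tfae_have 3 → 1 := by
    rintro ⟨r, hr, h⟩
    by_contra hno
    obtain ⟨H, _, hH, hv⟩ := all_values hC hno r hr
    obtain ⟨K, hK, m, n, A, hA, hAv⟩ := TH25.AD.fg_val_sub hv
    have hv' : Val (Int.castRingHom ℂ).range K r := by
      refine ⟨m, n, A, fun k i g => ?_, hAv⟩
      obtain ⟨z, hz⟩ := Subring.mem_bot.1 (hA k i g)
      exact ⟨z, hz⟩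
    obtain ⟨V, i, Q, γ, hQ, hn⟩ := good_of_val hv'
    exact h K (hC.subgroup K H K.subtype K.subtype_injective hH) hK V Q γ hQ hn
  tfae_finish

/-- every nonnegative real number -/
theorem all_real (r : ℝ) (hr : 0 ≤ r) :
    ∃ (G : Type) (_ : Group G), Group.FG G ∧ Group.IsSolvable G ∧
      (∀ g : G, IsOfFinOrder g → g ^ 2 = 1) ∧
      ∃ (V : Type) (_ : Fintype V) (Q : SimpleGraph V) (γ : V → V → G), Good Q γ ∧
        nullity (cover Q γ) = r := by
  obtain ⟨K, iK, h1, h2, h3, h4⟩ := val_fg r hr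
  refine ⟨K, iK, h1, h2, ?_, good_of_val h4⟩
  intro g hg
  obtain ⟨m, hm, hg⟩ := isOfFinOrder_iff_pow_eq_one.1 hg
  exact h3 g m hm hg

/-- the equivalence for bounded torsion -/
theorem gap_class (C : (G : Type) → [Group G] → Prop)
    (hprod : ∀ (G H : Type) [Group G] [Group H], C G → C H → C (G × H))
    (hfree : ∀ (G : Type) [Group G] (m : ℕ), C G → C (Monoid.Coprod G (FreeGroup (Fin m)))) :
    (∀ (G : Type) [Group G], C G → ∀ d : ℕ, IsLcm G d →
      ∀ (m n : ℕ) (A : Matrix (Fin m) (Fin n) (G →₀ ℂ)), ∃ z : ℤ, (d : ℝ) * kerDim A = z) ↔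
    ∃ a b : ℝ, 0 ≤ a ∧ a < b ∧ ∀ (G : Type) [Group G], C G → ∀ d : ℕ, IsLcm G d →
      ∀ (V : Type) [Fintype V] (Q : SimpleGraph V) (γ : V → V → G), Good Q γ →
        ¬ (a < (d : ℝ) * nullity (cover Q γ) ∧ (d : ℝ) * nullity (cover Q γ) < b) := by
  constructor
  · intro h
    refine ⟨0, 1, le_rfl, one_pos, ?_⟩
    rintro G _ hG d hd V _ Q γ hQ ⟨h1, h2⟩
    obtain ⟨m, A, _, hA⟩ := kerDim_of_null Q γ hQ.2.2.1
    obtain ⟨z, hz⟩ := h G hG d hd m m A
    rw [← hA, hz] at h1 h2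
    have h3 : 0 < z := by exact_mod_cast h1
    have h4 : z < 1 := by exact_mod_cast h2
    omega
  · rintro ⟨a, b, ha, hab, h⟩ G _ hG d hd m n A
    have hR : ∀ (G : Type) [Group G], C G → ∀ d : ℕ, IsLcm G d → ∀ v : ℝ,
        Val (Int.castRingHom ℂ).range G v → ∃ z : ℤ, (d : ℝ) * v = z := by
      intro G _ hG d hd v hv
      refine gap_val C hprod hfree (Int.castRingHom ℂ).range a b ha hab ?_ G hG d hd v hv
      intro H _ hH e he v hv
      obtain ⟨V, i, Q, γ, hQ, rfl⟩ := good_of_val hv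
      exact h H hH e he V Q γ hQ
    exact base_change C hprod hfree _ hR ⊤ G hG d hd _
      (val_kerDim A (fun _ _ _ => Subring.mem_top _))

end Pool.Agent.L0h7.CG
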