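import Pool.Agent.L0h7.CG.Below2
import Pool.Agent.L0h7.CG.App

set_option autoImplicit false
set_option linter.unusedSectionVars false

/-! The threshold for graphs. -/

namespace Pool.Agent.L0h7.CG

open Matrix TH57.Thr.Ati Pool.Agent.R719.AT Pool.Agent.R472.Grid Pool.Agent.Y477.AV
open Pool.Agent.W656.VA (Val kerDim exists_kerDim val_kerDim base_change gap_val IsLcm)

variable {G : Type} [Group G]

/-- the eigenspace -/
def eigFun {G : Type} {V : Type} (Γ : SimpleGraph (V × G)) (z : ℂ) :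
    Set (lp (fun _ : V × G => ℂ) 2) :=
  {x | ∀ p, ∑ᶠ q ∈ Γ.neighborSet p, x q = z * x p}

open Classical in
/-- the multiplicity of an eigenvalue -/
noncomputable def mult {G : Type} [Group G] {V : Type} [Fintype V] (Γ : SimpleGraph (V × G))
    (z : ℂ) : ℝ :=
  ∑ v : V, (1 - (Metric.infDist
    (lp.single 2 (v, (1 : G)) (1 : ℂ) : lp (fun _ : V × G => ℂ) 2) (eigFun Γ z)) ^ 2)

section

variable {V : Type} [Fintype V] [DecidableEq V]

theorem nb_sum (Q : SimpleGraph V) (γ : V → V → G) (hγ : ∀ v w, γ w v = (γ v w)⁻¹)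
    (x : V × G → ℂ) (w : V) (g : G) :
    ∑ᶠ q ∈ (cover Q γ).neighborSet (w, g), x q = ∑ k : V, (vmat Q γ k w).coeff.sum
      (fun h c => x (k, g * h⁻¹) * c) := by
  classical
  have h1 : (cover Q γ).neighborSet (w, g) =
      (fun k => (k, g * γ w k)) '' {k | Q.Adj w k} := by
    ext ⟨k, y⟩
    constructor
    · rintro ⟨h1, h2, h3⟩
      exact ⟨k, h1, Prod.ext rfl h2⟩
    · rintro ⟨k', h1, h2⟩
      obtain ⟨rfl, rfl⟩ := Prod.mk.inj h2
      refine ⟨h1, rfl, ?_⟩
      change g * γ w k' * γ k' w = g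
      rw [hγ w k', mul_assoc, mul_inv_cancel, mul_one]
  rw [h1, finsum_mem_image, ← Finset.coe_filter_univ, finsum_mem_coe_finset,
    Finset.sum_filter]
  · refine Finset.sum_congr rfl fun k _ => ?_
    have h2 : vmat Q γ k w = if Q.Adj w k then MonoidAlgebra.single (γ k w) 1 else 0 := by
      unfold vmat
      rw [Matrix.of_apply]
      simp only [Q.adj_comm k w]
    by_cases hk : Q.Adj w k
    · rw [if_pos hk, h2, if_pos hk, MonoidAlgebra.coeff_single, Finsupp.sum_single_index,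
        mul_one, hγ w k, inv_inv]
      rw [mul_zero]
    · rw [if_neg hk, h2, if_neg hk]
      simp
  · intro a _ b _ h
    exact congrArg Prod.fst h

theorem eigFun_eq (Q : SimpleGraph V) (γ : V → V → G) (hγ : ∀ v w, γ w v = (γ v w)⁻¹) (z : ℂ) :
    eigFun (cover Q γ) z = kerC (vmat Q γ - z • 1) := by
  classical
  have key : ∀ (x : V × G → ℂ) (w : V) (g : G),
      ∑ k : V, ∑ h ∈ ((vmat Q γ - z • 1 : Matrix V V (MonoidAlgebra ℂ G)) k w).coeff.support,
        x (k, g * h⁻¹) * ((vmat Q γ - z • 1 : Matrix V V (MonoidAlgebra ℂ G)) k w).coeff h =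
      ∑ᶠ q ∈ (cover Q γ).neighborSet (w, g), x q - z * x (w, g) := by
    intro x w g
    rw [nb_sum Q γ hγ]
    have h1 : ∀ k, ∑ h ∈ ((vmat Q γ - z • 1 : Matrix V V (MonoidAlgebra ℂ G)) k w).coeff.support,
        x (k, g * h⁻¹) * ((vmat Q γ - z • 1 : Matrix V V (MonoidAlgebra ℂ G)) k w).coeff h =
        (vmat Q γ k w).coeff.sum (fun h c => x (k, g * h⁻¹) * c) -
          (if k = w then z * x (w, g) else 0) := by
      intro k
      change ((vmat Q γ - z • 1 : Matrix V V (MonoidAlgebra ℂ G)) k w).coeff.sum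
        (fun h c => x (k, g * h⁻¹) * c) = _
      rw [Matrix.sub_apply, MonoidAlgebra.coeff_sub, Finsupp.sum_sub_index]
      · congr 1
        rw [Matrix.smul_apply, Matrix.one_apply]
        by_cases hk : k = w
        · subst hk
          rw [if_pos rfl, if_pos rfl, MonoidAlgebra.one_def, MonoidAlgebra.smul_single,
            MonoidAlgebra.coeff_single, Finsupp.sum_single_index]
          · simp [mul_comm]
          · rw [mul_zero]
        · rw [if_neg hk, if_neg hk]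
          simp
      · intro a b c
        ring
    rw [Finset.sum_congr rfl fun k _ => h1 k, Finset.sum_sub_distrib]
    simp
  ext x
  constructor
  · intro hx j g
    rw [key, sub_eq_zero]
    exact hx (j, g)
  · rintro hx ⟨j, g⟩
    rw [← sub_eq_zero, ← key]
    exact hx j g

theorem mult_eq (Q : SimpleGraph V) (γ : V → V → G) (hγ : ∀ v w, γ w v = (γ v w)⁻¹) (z : ℂ) :
    mult (cover Q γ) z = kap (vmat Q γ - z • 1) := by
  classical
  rw [← kerC_dim]
  unfold mult
  rw [eigFun_eq Q γ hγ]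
  refine Finset.sum_congr rfl fun i _ => ?_
  congr
  exact Subsingleton.elim _ _

theorem gnorm_mono {X : Type} {Γ : SimpleGraph X} {c c' : ℝ} (h : GNorm Γ c) (hc : c ≤ c') :
    GNorm Γ c' := fun s f => (h s f).trans
      (mul_le_mul_of_nonneg_right hc (Finset.sum_nonneg fun _ _ => sq_nonneg _))

theorem crit : 0 < 3 / Real.sqrt 2 ∧ (3 / Real.sqrt 2) ^ 2 = 9 / 2 := by
  have hr : (0 : ℝ) < Real.sqrt 2 := Real.sqrt_pos.2 two_pos
  refine ⟨by positivity, ?_⟩
  rw [div_pow, Real.sq_sqrt two_pos.le]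
  norm_num

theorem below_all (Q : SimpleGraph V) (γ : V → V → G) (hγ : ∀ v w, γ w v = (γ v w)⁻¹)
    (h : GNorm (cover Q γ) (3 / Real.sqrt 2)) (A : Matrix V V (MonoidAlgebra ℂ G))
    (hA : ∀ v w g, (A v w).coeff g ≠ 0 → (cover Q γ).Reachable (v, 1) (w, g)) :
    kap A ∈ Lam G :=
  kap_below Q γ hγ _ crit.1 crit.2.le h A hA

theorem below_mult (Q : SimpleGraph V) (γ : V → V → G) (hγ : ∀ v w, γ w v = (γ v w)⁻¹)
    (h : GNorm (cover Q γ) (3 / Real.sqrt 2)) (z : ℂ) : mult (cover Q γ) z ∈ Lam G := by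
  classical
  rw [mult_eq Q γ hγ]
  refine below_all Q γ hγ h _ fun v w g hg => ?_
  rw [Matrix.sub_apply, Matrix.smul_apply, MonoidAlgebra.coeff_sub, Finsupp.sub_apply] at hg
  by_cases h1 : (vmat Q γ v w).coeff g = 0
  · rw [h1, zero_sub, neg_ne_zero, Matrix.one_apply] at hg
    by_cases h2 : v = w
    · rw [if_pos h2, MonoidAlgebra.one_def, MonoidAlgebra.smul_single,
        MonoidAlgebra.coeff_single, Finsupp.single_apply] at hg
      by_cases h3 : 1 = g
      · rw [h2, ← h3]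
      · rw [if_neg h3] at hg
        exact absurd rfl hg
    · rw [if_neg h2, smul_zero, MonoidAlgebra.coeff_zero] at hg
      exact absurd rfl hg
  · unfold vmat at h1
    rw [Matrix.of_apply] at h1
    by_cases h2 : Q.Adj v w
    · rw [if_pos h2, MonoidAlgebra.coeff_single, Finsupp.single_apply] at h1
      by_cases h3 : γ v w = g
      · refine SimpleGraph.Adj.reachable ⟨h2, ?_, ?_⟩
        · change 1 * γ v w = g
          rw [one_mul, h3]
        · change g * γ w v = 1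
          rw [hγ v w, h3, mul_inv_cancel]
      · rw [if_neg h3] at h1
        exact absurd rfl h1
    · rw [if_neg h2] at h1
      exact absurd rfl h1

end

/-- `Q` is a finite connected graph of degree at most three, `γ` are voltages, the cover is
connected if `G` is finitely generated, and its norm is at most `c`. -/
def Small {G : Type} [Group G] {V : Type} (Q : SimpleGraph V) (γ : V → V → G) (c : ℝ) : Prop :=
  Q.Connected ∧ (∀ v, (Q.neighborSet v).ncard ≤ 3) ∧ (∀ v w, γ w v = (γ v w)⁻¹) ∧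
    (Group.FG G → (cover Q γ).Connected) ∧ GNorm (cover Q γ) c

open Classical in
/-- every kernel dimension is the nullity of a cover of small norm -/
theorem small_cover {K L : Type} [Fintype K] [Fintype L] [DecidableEq K] [DecidableEq L]
    (A : Matrix K L (MonoidAlgebra ℂ G)) (hA : Zc A) (c : ℝ) (hc : 3 / Real.sqrt 2 < c) :
    ∃ (V : Type) (_ : Fintype V) (Q : SimpleGraph V) (γ : V → V → G), Small Q γ c ∧
      nullity (cover Q γ) = kap A := by
  have hc0 : 0 < c := crit.1.trans hc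
  have hc2 : 9 / 2 < c ^ 2 := by
    rw [← crit.2]
    exact pow_lt_pow_left₀ hc crit.1.le (by norm_num)
  have main : ∀ (n : ℕ) (s : Fin n → G), ∃ (V : Type) (_ : Fintype V) (_ : Nonempty V)
      (Q : SimpleGraph V) (γ : V → V → G), (∀ v, (Q.neighborSet v).ncard ≤ 3) ∧
      (∀ v w, γ w v = (γ v w)⁻¹) ∧ GNorm (cover Q γ) c ∧ nullity (cover Q γ) = kap A ∧
      (∀ v w, Q.Reachable v w) ∧
      ∀ v w g, ∀ t ∈ Subgroup.closure (Set.range s), (cover Q γ).Reachable (v, g) (w, g * t) := by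
    intro n s
    obtain ⟨V, i1, i2, N, hN, hcg, hne, hd, hk⟩ := main_cg A hA s
    obtain ⟨m, F, hF, hS⟩ := weights hN (fun v => (hd v).le) c hc0 hc2
    have hcl := cg_lng hN hcg hne m
    obtain ⟨Q, γ, h1, h2, h3⟩ := exists_cover (lng N m) (vm_lng hN m)
    refine ⟨V ⊕ (Fin (4 * m + 4) × Et N), inferInstance, ⟨Sum.inl hne.some⟩, Q, γ, ?_, h1, ?_, ?_,
      ?_, ?_⟩
    · intro v
      rw [h3]
      exact nb_lng hN m (fun v => (hd v).le) v
    · refine gnorm_cover Q γ c F hF fun v => ?_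
      refine le_trans (le_of_eq ?_) (hS v)
      refine Finset.sum_congr ?_ fun _ _ => rfl
      ext w
      rw [Finset.mem_filter, Finset.mem_filter]
      have : w ∈ Q.neighborSet v ↔ w ∈ nb (lng N m) v := by rw [h3]
      exact and_congr_right fun _ => this
    · rw [nullity_eq Q γ h1, h2, kap_lng hN, hk]
    · intro v w
      exact reach_base h2 (hcl.one v w 1)
    · intro v w g t ht
      exact reach_of h1 h2 (hcl v w g t ht)
  by_cases hG : Group.FG G
  · obtain ⟨S, hS⟩ := (Group.fg_def.1 hG)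
    let s : Fin S.card → G := fun i => (S.equivFin.symm i : G)
    have hs : Set.range s = S := by
      ext x
      constructor
      · rintro ⟨i, rfl⟩
        exact (S.equivFin.symm i).2
      · intro hx
        exact ⟨S.equivFin ⟨x, hx⟩, by simp [s]⟩
    obtain ⟨V, i1, hne, Q, γ, h1, h2, h3, h4, h5, h6⟩ := main _ s
    rw [hs, hS] at h6
    refine ⟨V, i1, Q, γ, ⟨⟨h5⟩, h1, h2, fun _ => ⟨fun p q => ?_⟩, h3⟩, h4⟩
    have := h6 p.1 q.1 p.2 (p.2⁻¹ * q.2) trivial
    rwa [mul_inv_cancel_left] at this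
  · obtain ⟨V, i1, hne, Q, γ, h1, h2, h3, h4, h5, h6⟩ := main 0 (fun _ => 1)
    exact ⟨V, i1, Q, γ, ⟨⟨h5⟩, h1, h2, fun h => absurd h hG, h3⟩, h4⟩

theorem small_of_rat {m n : ℕ} (A : Matrix (Fin m) (Fin n) (G →₀ ℂ))
    (hA : ∀ i j g, ∃ q : ℚ, A i j g = q) (c : ℝ) (hc : 3 / Real.sqrt 2 < c) :
    ∃ (V : Type) (_ : Fintype V) (Q : SimpleGraph V) (γ : V → V → G), Small Q γ c ∧
      nullity (cover Q γ) = kerDim A := by
  obtain ⟨A', hA', hk⟩ := clear_den (∅ : Set ℂ) (ofm A) (fun i j g => by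
    obtain ⟨q, hq⟩ := hA i j g
    change A i j g ∈ _
    rw [hq]
    exact SubfieldClass.ratCast_mem _ q)
  obtain ⟨V, i, Q, γ, h1, h5⟩ := small_cover A' (fun i j g => by
    have h := hA' i j g
    rw [Subring.closure_empty] at h
    obtain ⟨z, hz⟩ := Subring.mem_bot.1 h
    exact ⟨z, hz.symm⟩) c hc
  exact ⟨V, i, Q, γ, h1, by rw [kerDim_kap, h5, hk]⟩

theorem small_of_val {v : ℝ} (hv : Val (Int.castRingHom ℂ).range G v) (c : ℝ)
    (hc : 3 / Real.sqrt 2 < c) :
    ∃ (V : Type) (_ : Fintype V) (Q : SimpleGraph V) (γ : V → V → G), Small Q γ c ∧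
      nullity (cover Q γ) = v := by
  obtain ⟨m, n, A, hA, hAv⟩ := exists_kerDim hv
  obtain ⟨V, i, Q, γ, h1, h2⟩ := small_cover (ofm A) (fun i j g => by
    obtain ⟨z, hz⟩ := hA i j g
    exact ⟨z, hz.symm⟩) c hc
  exact ⟨V, i, Q, γ, h1, by rw [h2, ← kerDim_kap, hAv]⟩

/-- the equivalence for closed classes of torsion-free groups -/
theorem tfae_small {C : (G : Type) → [Group G] → Prop} (hC : ClosedClass C) (c : ℝ)
    (hc : 3 / Real.sqrt 2 < c) : List.TFAE [
    ∀ (G : Type) [Group G], C G → ∀ (m n : ℕ) (A : Matrix (Fin m) (Fin n) (G →₀ ℂ)),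
      ∃ z : ℤ, kerDim A = z,
    ∀ (G : Type) [Group G], C G → Group.FG G → ∀ (V : Type) [Fintype V] (Q : SimpleGraph V)
      (γ : V → V → G), Small Q γ c → ∃ z : ℤ, nullity (cover Q γ) = z,
    ∃ r : ℝ, 0 ≤ r ∧ ∀ (G : Type) [Group G], C G → Group.FG G → ∀ (V : Type) [Fintype V]
      (Q : SimpleGraph V) (γ : V → V → G), Small Q γ c → nullity (cover Q γ) ≠ r] := by
  tfae_have 1 → 2 := by
    intro h G _ hG _ V _ Q γ hQ
    obtain ⟨m, A, _, hA⟩ := kerDim_of_null Q γ hQ.2.2.1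
    obtain ⟨z, hz⟩ := h G hG m m A
    exact ⟨z, by rw [← hA, hz]⟩
  tfae_have 2 → 3 := by
    intro h
    refine ⟨1 / 2, by norm_num, ?_⟩
    intro G _ hG hf V _ Q γ hQ hr
    obtain ⟨z, hz⟩ := h G hG hf V Q γ hQ
    rw [hr] at hz
    have h1 : (2 * z : ℝ) = 1 := by linarith
    have h2 : 2 * z = 1 := by exact_mod_cast h1
    omega
  tfae_have 3 → 1 := by
    rintro ⟨r, hr, h⟩
    by_contra hno
    obtain ⟨H, _, hH, hv⟩ := all_values hC hno r hr
    obtain ⟨K, hK, m, n, A, hA, hAv⟩ := TH25.AD.fg_val_sub hv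
    have hv' : Val (Int.castRingHom ℂ).range K r := by
      refine ⟨m, n, A, fun k i g => ?_, hAv⟩
      obtain ⟨z, hz⟩ := Subring.mem_bot.1 (hA k i g)
      exact ⟨z, hz⟩
    obtain ⟨V, i, Q, γ, hQ, hn⟩ := small_of_val hv' c hc
    exact h K (hC.subgroup K H K.subtype K.subtype_injective hH) hK V Q γ hQ hn
  tfae_finish

theorem small_iff {C : (G : Type) → [Group G] → Prop} (hC : ClosedClass C) (c : ℝ)
    (hc : 3 / Real.sqrt 2 < c) :
    (∃ r : ℝ, 0 ≤ r ∧ ∀ (G : Type) [Group G], C G → Group.FG G → ∀ (V : Type) [Fintype V]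
      (Q : SimpleGraph V) (γ : V → V → G), Small Q γ c → nullity (cover Q γ) ≠ r) ↔
    (∀ (G : Type) [Group G], C G → ∀ (m n : ℕ) (A : Matrix (Fin m) (Fin n) (G →₀ ℂ)),
      ∃ z : ℤ, kerDim A = z) :=
  (tfae_small hC c hc).out 2 0

/-- every nonnegative real number -/
theorem all_real_small (r : ℝ) (hr : 0 ≤ r) (c : ℝ) (hc : 3 / Real.sqrt 2 < c) :
    ∃ (G : Type) (_ : Group G), Group.FG G ∧ Group.IsSolvable G ∧
      (∀ g : G, IsOfFinOrder g → g ^ 2 = 1) ∧
      ∃ (V : Type) (_ : Fintype V) (Q : SimpleGraph V) (γ : V → V → G), Small Q γ c ∧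
        nullity (cover Q γ) = r := by
  obtain ⟨K, iK, h1, h2, h3, h4⟩ := val_fg r hr
  refine ⟨K, iK, h1, h2, ?_, small_of_val h4 c hc⟩
  intro g hg
  obtain ⟨m, hm, hg⟩ := isOfFinOrder_iff_pow_eq_one.1 hg
  exact h3 g m hm hg

/-- the equivalence for bounded torsion -/
theorem gap_small (C : (G : Type) → [Group G] → Prop)
    (hprod : ∀ (G H : Type) [Group G] [Group H], C G → C H → C (G × H))
    (hfree : ∀ (G : Type) [Group G] (m : ℕ), C G → C (Monoid.Coprod G (FreeGroup (Fin m))))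
    (c : ℝ) (hc : 3 / Real.sqrt 2 < c) :
    (∀ (G : Type) [Group G], C G → ∀ d : ℕ, IsLcm G d →
      ∀ (m n : ℕ) (A : Matrix (Fin m) (Fin n) (G →₀ ℂ)), ∃ z : ℤ, (d : ℝ) * kerDim A = z) ↔
    ∃ a b : ℝ, 0 ≤ a ∧ a < b ∧ ∀ (G : Type) [Group G], C G → ∀ d : ℕ, IsLcm G d →
      ∀ (V : Type) [Fintype V] (Q : SimpleGraph V) (γ : V → V → G), Small Q γ c →
        ¬ (a < (d : ℝ) * nullity (cover Q γ) ∧ (d : ℝ) * nullity (cover Q γ) < b) := by
  constructor
  · intro h
    refine ⟨0, 1, le_rfl, one_pos, ?_⟩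
    rintro G _ hG d hd V _ Q γ hQ ⟨h1, h2⟩
    obtain ⟨m, A, _, hA⟩ := kerDim_of_null Q γ hQ.2.2.1
    obtain ⟨z, hz⟩ := h G hG d hd m m A
    rw [← hA, hz] at h1 h2
    have h3 : 0 < z := by exact_mod_cast h1
    have h4 : z < 1 := by exact_mod_cast h2
    omega
  · rintro ⟨a, b, ha, hab, h⟩ G _ hG d hd m n A
    have hR : ∀ (G : Type) [Group G], C G → ∀ d : ℕ, IsLcm G d → ∀ v : ℝ,
        Val (Int.castRingHom ℂ).range G v → ∃ z : ℤ, (d : ℝ) * v = z := by
      intro G _ hG d hd v hv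
      refine gap_val C hprod hfree (Int.castRingHom ℂ).range a b ha hab ?_ G hG d hd v hv
      intro H _ hH e he v hv
      obtain ⟨V, i, Q, γ, hQ, rfl⟩ := small_of_val hv c hc
      exact h H hH e he V Q γ hQ
    exact base_change C hprod hfree _ hR ⊤ G hG d hd _
      (val_kerDim A (fun _ _ _ => Subring.mem_top _))

end Pool.Agent.L0h7.CG
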