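import Pool.Agent.R472.GridKer

set_option autoImplicit false
set_option linter.unusedSectionVars false

/-! Schur complements and kernel dimensions of matrices over group rings. -/

namespace Pool.Agent.L0h7.CG

open Matrix TH57.Thr.Ati Pool.Agent.R719.AT Pool.Agent.R472.Grid

variable {G : Type} [Group G] {K L M V : Type} [Fintype K] [Fintype L] [Fintype M] [Fintype V]
  [DecidableEq K] [DecidableEq L] [DecidableEq M] [DecidableEq V]

/-- the Schur complement -/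
theorem kap_schur (P : Matrix K L (MonoidAlgebra ℂ G)) (Q : Matrix K M (MonoidAlgebra ℂ G))
    (R : Matrix M L (MonoidAlgebra ℂ G)) {S S' : Matrix M M (MonoidAlgebra ℂ G)}
    (h1 : S * S' = 1) (h2 : S' * S = 1) :
    kap (fromBlocks P Q R S) = kap (P - Q * S' * R) := by
  have e : fromBlocks P Q R S =
      (fromBlocks 1 (Q * S') 0 1 : Matrix (K ⊕ M) (K ⊕ M) (MonoidAlgebra ℂ G)) *
      (fromBlocks (P - Q * S' * R) 0 0 (1 : Matrix M M (MonoidAlgebra ℂ G)) *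
        (fromBlocks 1 0 R S : Matrix (L ⊕ M) (L ⊕ M) (MonoidAlgebra ℂ G))) := by
    rw [fromBlocks_multiply, fromBlocks_multiply]
    simp [Matrix.mul_assoc, h2]
  have hU1 : fromBlocks 1 (Q * S') 0 1 * fromBlocks 1 (-(Q * S')) 0 1
      = (1 : Matrix (K ⊕ M) (K ⊕ M) (MonoidAlgebra ℂ G)) := by
    rw [fromBlocks_multiply]
    simp
  have hU2 : fromBlocks 1 (-(Q * S')) 0 1 * fromBlocks 1 (Q * S') 0 1
      = (1 : Matrix (K ⊕ M) (K ⊕ M) (MonoidAlgebra ℂ G)) := by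
    rw [fromBlocks_multiply]
    simp
  have hV : fromBlocks 1 0 R S * fromBlocks 1 0 (-(S' * R)) S'
      = (1 : Matrix (L ⊕ M) (L ⊕ M) (MonoidAlgebra ℂ G)) := by
    rw [fromBlocks_multiply]
    simp [← Matrix.mul_assoc, h1]
  rw [e, kap_iso _ hU1 hU2, kap_unit_right _ hV, kap_stab]

/-- the self-adjoint matrix with diagonal block `-2` -/
theorem kap_self_adj (B : Matrix K L (MonoidAlgebra ℂ G)) :
    kap (fromBlocks 0 B (sta B) (-1 - 1 : Matrix L L (MonoidAlgebra ℂ G))) = kap B := by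
  have hs : (-1 - 1 : Matrix L L (MonoidAlgebra ℂ G)) = (-2 : ℂ) • 1 := by
    rw [show (-2 : ℂ) = -1 - 1 by norm_num, sub_smul, neg_smul, one_smul]
  have h1 : (-1 - 1 : Matrix L L (MonoidAlgebra ℂ G)) * ((-2 : ℂ)⁻¹ • 1) = 1 := by
    rw [hs, Matrix.smul_mul, Matrix.mul_smul, Matrix.one_mul, smul_smul,
      mul_inv_cancel₀ (by norm_num), one_smul]
  have h2 : ((-2 : ℂ)⁻¹ • 1) * (-1 - 1 : Matrix L L (MonoidAlgebra ℂ G)) = 1 := by
    rw [hs, Matrix.smul_mul, Matrix.mul_smul, Matrix.one_mul, smul_smul,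
      inv_mul_cancel₀ (by norm_num), one_smul]
  rw [kap_schur _ _ _ h1 h2, Matrix.mul_smul, Matrix.mul_one, Matrix.smul_mul, zero_sub,
    ← neg_smul, kap_smul _ _ (by norm_num), kap_mul_sta]

/-- doubling of all vertices -/
noncomputable def dbl (X₁ X₂ X₃ X₄ : Matrix V V (MonoidAlgebra ℂ G)) :
    Matrix (V ⊕ ((V ⊕ V) ⊕ (V ⊕ V))) (V ⊕ ((V ⊕ V) ⊕ (V ⊕ V))) (MonoidAlgebra ℂ G) :=
  fromBlocks X₁ (fromCols (fromCols 1 0) (fromCols 0 X₂))
    (fromRows (fromRows 1 0) (fromRows 0 X₃))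
    (fromBlocks (fromBlocks 0 1 1 0) (fromBlocks 0 0 1 0) (fromBlocks 0 1 0 0)
      (fromBlocks 0 1 1 X₄))

theorem kap_dbl (X₁ X₂ X₃ X₄ : Matrix V V (MonoidAlgebra ℂ G)) :
    kap (dbl X₁ X₂ X₃ X₄) = kap (X₁ + X₂ + X₃ + X₄) := by
  have h1 : (fromBlocks (fromBlocks 0 1 1 0) (fromBlocks 0 0 1 0) (fromBlocks 0 1 0 0)
      (fromBlocks 0 1 1 X₄) : Matrix ((V ⊕ V) ⊕ (V ⊕ V)) ((V ⊕ V) ⊕ (V ⊕ V)) (MonoidAlgebra ℂ G)) *
      fromBlocks (fromBlocks (-X₄) 1 1 0) (fromBlocks X₄ (-1) 0 0) (fromBlocks X₄ 0 (-1) 0)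
        (fromBlocks (-X₄) 1 1 0) = 1 := by
    simp [fromBlocks_multiply, fromBlocks_add]
  have h2 : fromBlocks (fromBlocks (-X₄) 1 1 0) (fromBlocks X₄ (-1) 0 0) (fromBlocks X₄ 0 (-1) 0)
        (fromBlocks (-X₄) 1 1 0) * (fromBlocks (fromBlocks 0 1 1 0) (fromBlocks 0 0 1 0)
        (fromBlocks 0 1 0 0) (fromBlocks 0 1 1 X₄) :
      Matrix ((V ⊕ V) ⊕ (V ⊕ V)) ((V ⊕ V) ⊕ (V ⊕ V)) (MonoidAlgebra ℂ G)) = 1 := by
    simp [fromBlocks_multiply, fromBlocks_add]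
  unfold dbl
  rw [kap_schur _ _ _ h1 h2]
  congr 1
  simp only [fromCols_mul_fromBlocks, fromCols_mul_fromRows, Matrix.add_mul, Matrix.one_mul,
    Matrix.zero_mul, Matrix.mul_one, Matrix.mul_zero, Matrix.neg_mul, Matrix.mul_neg, neg_zero,
    add_zero, zero_add, sub_eq_add_neg, neg_add, neg_neg]
  abel

/-- doubling of all vertices with a sign -/
noncomputable def sdb (X₁ X₂ X₃ X₄ : Matrix V V (MonoidAlgebra ℂ G)) :
    Matrix (V ⊕ (V ⊕ V)) (V ⊕ (V ⊕ V)) (MonoidAlgebra ℂ G) :=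
  fromBlocks X₁ (fromCols 1 X₂) (fromRows 1 X₃) (fromBlocks 0 1 1 X₄)

theorem kap_sdb (X₁ X₂ X₃ X₄ : Matrix V V (MonoidAlgebra ℂ G)) :
    kap (sdb X₁ X₂ X₃ X₄) = kap (X₁ + X₄ - X₂ - X₃) := by
  have h1 : (fromBlocks 0 1 1 X₄ : Matrix (V ⊕ V) (V ⊕ V) (MonoidAlgebra ℂ G)) *
      fromBlocks (-X₄) 1 1 0 = 1 := by
    simp [fromBlocks_multiply]
  have h2 : fromBlocks (-X₄) 1 1 0 *
      (fromBlocks 0 1 1 X₄ : Matrix (V ⊕ V) (V ⊕ V) (MonoidAlgebra ℂ G)) = 1 := by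
    simp [fromBlocks_multiply]
  unfold sdb
  rw [kap_schur _ _ _ h1 h2]
  congr 1
  simp only [fromCols_mul_fromBlocks, fromCols_mul_fromRows, Matrix.add_mul, Matrix.one_mul,
    Matrix.zero_mul, Matrix.mul_one, Matrix.mul_zero, Matrix.neg_mul, Matrix.mul_neg, neg_zero,
    add_zero, zero_add, sub_eq_add_neg, neg_add, neg_neg]
  abel

end Pool.Agent.L0h7.CG
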