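import Pool.Agent.L0h7.CG.Norm
import Pool.Agent.N510.CT.Ati

set_option autoImplicit false
set_option linter.unusedSectionVars false
set_option linter.style.haveILetI false

/-! Graphs of norm at most `3 / √2` with a free cocompact action. -/

namespace Pool.Agent.L0h7.CGq

section copy

open Matrix SimpleGraph TH57.Thr Pool.Agent.N510.CT

variable {G : Type*} [Group G] {ι κ : Type*}

/-- The stabilisers of the components are virtually cyclic. -/
theorem stab_vcq [Fintype ι] [Fintype κ] [DecidableEq ι] [DecidableEq κ]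
    (A : Matrix ι κ (MonoidAlgebra ℤ G)) (c : ℝ) (hc0 : 0 < c) (hc : c ^ 2 ≤ 9 / 2)
    (hA : ∀ (s : Finset (Vx G ι κ)) (f : Vx G ι κ → ℝ),
      ∑ u ∈ s, ∑ v ∈ s, wt A u v * f u * f v ≤ c * ∑ u ∈ s, f u ^ 2) (b : Vx G ι κ) :
    ∃ s : stab A b, (Subgroup.zpowers s).FiniteIndex := by
  classical
  letI := act A b
  set Γ := (cp A b).toSimpleGraph with hΓ
  have hconn : Γ.Connected := (cp A b).connected_toSimpleGraph
  have hadj : ∀ u v : cp A b, Γ.Adj u v ↔ (gr A).Adj u.1 v.1 := fun u v =>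
    SimpleGraph.ConnectedComponent.toSimpleGraph_adj _ u.2 v.2
  have hcol : ∀ u v : cp A b, Γ.Adj u v → Sum.isLeft u.1 ≠ Sum.isLeft v.1 := by
    intro u v h
    rw [hadj] at h
    rcases u with ⟨p | q, hu⟩ <;> rcases v with ⟨p' | q', hv⟩
    · exact absurd rfl h
    · simp
    · simp
    · exact absurd rfl h
  have hsm : ∀ (g : stab A b) (u v : cp A b), Γ.Adj u v → Γ.Adj (g • u) (g • v) := by
    intro g u v h
    rw [hadj] at h ⊢
    exact adj_mv A g.1 _ _ h
  have hRep : ∀ v : cp A b, ∃ g : stab A b, ∃ r ∈ (Finset.univ.biUnion (fun p : ι ⊕ κ =>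
      if h : ∃ v : cp A b, ix v.1 = p then {Classical.choose h} else ∅) : Finset (cp A b)),
      g • r = v := by
    intro v
    have hex : ∃ w : cp A b, ix w.1 = ix v.1 := ⟨v, rfl⟩
    set w := Classical.choose hex with hw
    have hwix : ix w.1 = ix v.1 := Classical.choose_spec hex
    have h1 : mv (ge v.1 * (ge w.1)⁻¹) w.1 = v.1 := by
      calc mv (ge v.1 * (ge w.1)⁻¹) w.1
          = mv (ge v.1 * (ge w.1)⁻¹) (mv (ge w.1) (bs (ix w.1))) := by rw [mv_ge_bs w.1]
        _ = v.1 := by rw [← mv_mul, inv_mul_cancel_right, hwix, mv_ge_bs]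
    have h2 : ge v.1 * (ge w.1)⁻¹ ∈ stab A b := by
      rw [mem_stab]
      have hb1 : (gr A).Reachable b v.1 := (mem_cp A b _).1 v.2
      have hb2 : (gr A).Reachable b w.1 := (mem_cp A b _).1 w.2
      have h3 := reachable_mv A (ge v.1 * (ge w.1)⁻¹) hb2
      rw [h1] at h3
      exact hb1.trans h3.symm
    refine ⟨⟨_, h2⟩, w, ?_, Subtype.ext h1⟩
    rw [Finset.mem_biUnion]
    refine ⟨ix v.1, Finset.mem_univ _, ?_⟩
    rw [dif_pos hex]
    exact Finset.mem_singleton_self _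
  -- no tripods
  obtain ⟨N, hN⟩ : ∃ N, ¬ HasTripod2 Γ N := by
    refine noTripod_closed (S := stab A b) hconn (fun v => (Sum.isLeft v.1)) hcol
      (fun u v => wt A u.1 v.1) (fun u v => wt_symm A _ _)
      (fun u v h => by
        by_contra h1
        exact h ((hadj u v).2 h1))
      (fun u v h => one_le_abs_wt A _ _ ((hadj u v).1 h)) c hc0 hc
      (fun s f => by
        obtain ⟨F, hF⟩ : ∃ F : Vx G ι κ → ℝ, ∀ x : cp A b, F x.1 = f x :=
          ⟨fun v => if h : v ∈ cp A b then f ⟨v, h⟩ else 0, fun x => dif_pos x.2⟩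
        have := hA (s.map (Function.Embedding.subtype _)) F
        simp only [Finset.sum_map, Function.Embedding.subtype_apply, hF] at this
        exact this) hsm _ hRep
  refine vc_of_noTripod2 (S := stab A b) hconn (fun v => (Sum.isLeft v.1)) ?_ (dg A) ?_ N hN
    ?_ ?_ (Finset.univ.biUnion (fun p : ι ⊕ κ =>
      if h : ∃ v : cp A b, ix v.1 = p then {Classical.choose h} else ∅)) ?_
  · intro u v h
    rw [hadj] at h
    rcases u with ⟨p | q, hu⟩ <;> rcases v with ⟨p' | q', hv⟩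
    · exact absurd rfl h
    · simp
    · simp
    · exact absurd rfl h
  · intro v
    obtain ⟨T, hT1, hT2⟩ := nbr_row A v.1
    have hsub : (Subtype.val '' Γ.neighborSet v) ⊆ (T : Set (Vx G ι κ)) := by
      rintro _ ⟨u, hu, rfl⟩
      exact hT1 ((hadj v u).1 hu)
    have hfin : (Subtype.val '' Γ.neighborSet v).Finite := T.finite_toSet.subset hsub
    refine ⟨hfin.of_finite_image Subtype.val_injective.injOn, ?_⟩
    rw [← Set.ncard_image_of_injective _ Subtype.val_injective]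
    exact (Set.ncard_le_ncard hsub T.finite_toSet).trans (by rw [Set.ncard_coe_finset]; exact hT2)
  · intro g u v h
    rw [hadj] at h ⊢
    exact adj_mv A g.1 _ _ h
  · intro g v h
    exact Subtype.ext (mv_free g.1 v.1 (congrArg Subtype.val h))
  · intro v
    have hex : ∃ w : cp A b, ix w.1 = ix v.1 := ⟨v, rfl⟩
    set w := Classical.choose hex with hw
    have hwix : ix w.1 = ix v.1 := Classical.choose_spec hex
    have h1 : mv (ge v.1 * (ge w.1)⁻¹) w.1 = v.1 := by
      calc mv (ge v.1 * (ge w.1)⁻¹) w.1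
          = mv (ge v.1 * (ge w.1)⁻¹) (mv (ge w.1) (bs (ix w.1))) := by rw [mv_ge_bs w.1]
        _ = v.1 := by rw [← mv_mul, inv_mul_cancel_right, hwix, mv_ge_bs]
    have h2 : ge v.1 * (ge w.1)⁻¹ ∈ stab A b := by
      rw [mem_stab]
      have hb1 : (gr A).Reachable b v.1 := (mem_cp A b _).1 v.2
      have hb2 : (gr A).Reachable b w.1 := (mem_cp A b _).1 w.2
      have h3 := reachable_mv A (ge v.1 * (ge w.1)⁻¹) hb2
      rw [h1] at h3
      exact hb1.trans h3.symm
    refine ⟨⟨_, h2⟩, w, ?_, Subtype.ext h1⟩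
    rw [Finset.mem_biUnion]
    refine ⟨ix v.1, Finset.mem_univ _, ?_⟩
    rw [dif_pos hex]
    exact Finset.mem_singleton_self _

end copy

end Pool.Agent.L0h7.CGq

namespace Pool.Agent.L0h7.CG

open TH57.Thr Matrix

variable {G : Type} [Group G] {V : Type} [Fintype V] [DecidableEq V]

open Classical in
/-- the integral adjacency matrix of the cover -/
noncomputable def zmat (Q : SimpleGraph V) (γ : V → V → G) : Matrix V V (MonoidAlgebra ℤ G) :=
  Matrix.of fun v w => if Q.Adj v w then MonoidAlgebra.single (γ v w) 1 else 0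

open Classical in
theorem zmat_coeff (Q : SimpleGraph V) (γ : V → V → G) (hγ : ∀ v w, γ w v = (γ v w)⁻¹)
    (p q : V × G) : ((((zmat Q γ p.1 q.1).coeff (p.2⁻¹ * q.2)) : ℤ) : ℝ) =
      if (cover Q γ).Adj p q then 1 else 0 := by
  unfold zmat
  rw [Matrix.of_apply]
  by_cases h : Q.Adj p.1 q.1
  · rw [if_pos h, MonoidAlgebra.coeff_single, Finsupp.single_apply]
    by_cases h2 : γ p.1 q.1 = p.2⁻¹ * q.2
    · rw [if_pos h2, if_pos, Int.cast_one]
      refine ⟨h, ?_, ?_⟩
      · rw [h2, mul_inv_cancel_left]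
      · rw [hγ p.1 q.1, h2]
        group
    · rw [if_neg h2, if_neg, Int.cast_zero]
      rintro ⟨_, h3, _⟩
      apply h2
      rw [← h3, inv_mul_cancel_left]
  · rw [if_neg h, if_neg (fun h' => h h'.1)]
    simp

/-- the vertex of the cover under a vertex of the double cover -/
def pr : Vx G V V → V × G
  | Sum.inl p => (p.2, p.1)
  | Sum.inr q => (q.2, q.1)

open Classical in
/-- the quadratic form of the double cover -/
theorem quad_double (Q : SimpleGraph V) (γ : V → V → G) (hγ : ∀ v w, γ w v = (γ v w)⁻¹) (c : ℝ)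
    (h : GNorm (cover Q γ) c) (s : Finset (Vx G V V)) (f : Vx G V V → ℝ) :
    ∑ u ∈ s, ∑ v ∈ s, wt (zmat Q γ) u v * f u * f v ≤ c * ∑ u ∈ s, f u ^ 2 := by
  rw [gnorm_iff] at h
  set a : V × G → V × G → ℝ := fun p q => if (cover Q γ).Adj p q then 1 else 0 with ha
  have hasymm : ∀ p q, a p q = a q p := fun p q => by
    simp only [ha]
    rw [(cover Q γ).adj_comm p q]
  have ha0 : ∀ p q, 0 ≤ a p q := fun p q => by
    simp only [ha]
    split_ifs <;> norm_num
  have h' : ∀ (t : Finset (V × G)) (z : V × G → ℝ),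
      ∑ p ∈ t, ∑ q ∈ t, a p q * (z p * z q) ≤ c * ∑ p ∈ t, z p ^ 2 := by
    intro t z
    refine le_trans (le_of_eq ?_) (h t z)
    refine Finset.sum_congr rfl fun p _ => Finset.sum_congr rfl fun q _ => ?_
    simp only [ha]
    split_ifs <;> simp
  set x : V × G → ℝ := fun p => if Sum.inl (p.2, p.1) ∈ s then f (Sum.inl (p.2, p.1)) else 0 with hx
  set y : V × G → ℝ := fun p => if Sum.inr (p.2, p.1) ∈ s then f (Sum.inr (p.2, p.1)) else 0 with hy
  set t : Finset (V × G) := s.image pr with ht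
  -- the inequality for the two functions
  have key : 2 * ∑ p ∈ t, ∑ q ∈ t, a p q * (x p * y q) ≤ c * (∑ p ∈ t, x p ^ 2 + ∑ p ∈ t, y p ^ 2) := by
    have k1 := h' t (fun p => x p + y p)
    have k2 := h' t (fun p => |x p - y p|)
    have k3 : -∑ p ∈ t, ∑ q ∈ t, a p q * ((x p - y p) * (x q - y q)) ≤
        ∑ p ∈ t, ∑ q ∈ t, a p q * (|x p - y p| * |x q - y q|) := by
      rw [← Finset.sum_neg_distrib]
      refine Finset.sum_le_sum fun p _ => ?_
      rw [← Finset.sum_neg_distrib]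
      refine Finset.sum_le_sum fun q _ => ?_
      rw [← mul_neg]
      refine mul_le_mul_of_nonneg_left ?_ (ha0 p q)
      rw [← abs_mul]
      exact neg_le_abs _
    have k4 : ∑ p ∈ t, ∑ q ∈ t, a p q * ((x p + y p) * (x q + y q)) +
        -∑ p ∈ t, ∑ q ∈ t, a p q * ((x p - y p) * (x q - y q)) =
        4 * ∑ p ∈ t, ∑ q ∈ t, a p q * (x p * y q) := by
      have k5 : ∑ p ∈ t, ∑ q ∈ t, a p q * (y p * x q) = ∑ p ∈ t, ∑ q ∈ t, a p q * (x p * y q) := by
        rw [Finset.sum_comm]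
        refine Finset.sum_congr rfl fun p _ => Finset.sum_congr rfl fun q _ => ?_
        rw [hasymm q p]
        ring
      have k6 : 4 * ∑ p ∈ t, ∑ q ∈ t, a p q * (x p * y q) =
          2 * ∑ p ∈ t, ∑ q ∈ t, a p q * (x p * y q) + 2 * ∑ p ∈ t, ∑ q ∈ t, a p q * (y p * x q) := by
        rw [k5]; ring
      rw [k6, ← Finset.sum_neg_distrib, ← Finset.sum_add_distrib, Finset.mul_sum, Finset.mul_sum,
        ← Finset.sum_add_distrib]
      refine Finset.sum_congr rfl fun p _ => ?_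
      rw [← Finset.sum_neg_distrib, ← Finset.sum_add_distrib, Finset.mul_sum, Finset.mul_sum,
        ← Finset.sum_add_distrib]
      refine Finset.sum_congr rfl fun q _ => ?_
      ring
    have k7 : c * ∑ p ∈ t, (x p + y p) ^ 2 + c * ∑ p ∈ t, |x p - y p| ^ 2 =
        2 * (c * (∑ p ∈ t, x p ^ 2 + ∑ p ∈ t, y p ^ 2)) := by
      rw [← mul_add, ← Finset.sum_add_distrib, ← Finset.sum_add_distrib]
      have : ∀ p, (x p + y p) ^ 2 + |x p - y p| ^ 2 = 2 * (x p ^ 2 + y p ^ 2) := by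
        intro p
        rw [sq_abs]
        ring
      rw [Finset.sum_congr rfl fun p _ => this p, ← Finset.mul_sum]
      ring
    beta_reduce at k1 k2
    linarith
  -- the left side
  have hinl : ∀ p : G × V, (p.2, p.1) ∈ t ∨ Sum.inl p ∉ s := by
    intro p
    by_cases hp : Sum.inl p ∈ s
    · exact Or.inl (Finset.mem_image.2 ⟨_, hp, rfl⟩)
    · exact Or.inr hp
  have hinr : ∀ p : G × V, (p.2, p.1) ∈ t ∨ Sum.inr p ∉ s := by
    intro p
    by_cases hp : Sum.inr p ∈ s
    · exact Or.inl (Finset.mem_image.2 ⟨_, hp, rfl⟩)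
    · exact Or.inr hp
  set P := s.toLeft with hP
  set R := s.toRight with hR
  have hs : s = P.disjSum R := Finset.toLeft_disjSum_toRight.symm
  have sumP : ∀ F : V × G → ℝ, ∑ p ∈ P, F (p.2, p.1) =
      ∑ p ∈ t, (if Sum.inl (p.2, p.1) ∈ s then F p else 0) := by
    intro F
    rw [← Finset.sum_filter]
    refine Finset.sum_nbij' (fun p => (p.2, p.1)) (fun p => (p.2, p.1)) ?_ ?_ ?_ ?_ ?_
    · intro p hp
      have hp' : Sum.inl p ∈ s := Finset.mem_toLeft.1 hp
      exact Finset.mem_filter.2 ⟨Finset.mem_image.2 ⟨_, hp', rfl⟩, hp'⟩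
    · intro p hp
      exact Finset.mem_toLeft.2 (Finset.mem_filter.1 hp).2
    · intro p _; rfl
    · intro p _; rfl
    · intro p _; rfl
  have sumR : ∀ F : V × G → ℝ, ∑ p ∈ R, F (p.2, p.1) =
      ∑ p ∈ t, (if Sum.inr (p.2, p.1) ∈ s then F p else 0) := by
    intro F
    rw [← Finset.sum_filter]
    refine Finset.sum_nbij' (fun p => (p.2, p.1)) (fun p => (p.2, p.1)) ?_ ?_ ?_ ?_ ?_
    · intro p hp
      have hp' : Sum.inr p ∈ s := Finset.mem_toRight.1 hp
      exact Finset.mem_filter.2 ⟨Finset.mem_image.2 ⟨_, hp', rfl⟩, hp'⟩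
    · intro p hp
      exact Finset.mem_toRight.2 (Finset.mem_filter.1 hp).2
    · intro p _; rfl
    · intro p _; rfl
    · intro p _; rfl
  have e1 : ∑ p ∈ P, f (Sum.inl p) ^ 2 = ∑ p ∈ t, x p ^ 2 := by
    refine (sumP (fun q : V × G => f (Sum.inl (q.2, q.1)) ^ 2)).trans ?_
    refine Finset.sum_congr rfl fun p _ => ?_
    simp only [hx]
    split_ifs <;> simp
  have e2 : ∑ p ∈ R, f (Sum.inr p) ^ 2 = ∑ p ∈ t, y p ^ 2 := by
    refine (sumR (fun q : V × G => f (Sum.inr (q.2, q.1)) ^ 2)).trans ?_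
    refine Finset.sum_congr rfl fun p _ => ?_
    simp only [hy]
    split_ifs <;> simp
  have hw : ∀ p q : G × V, wt (zmat Q γ) (Sum.inl p) (Sum.inr q) = a (p.2, p.1) (q.2, q.1) := by
    intro p q
    exact zmat_coeff Q γ hγ (p.2, p.1) (q.2, q.1)
  have e3 : ∑ p ∈ P, ∑ q ∈ R, wt (zmat Q γ) (Sum.inl p) (Sum.inr q) * f (Sum.inl p) * f (Sum.inr q)
      = ∑ p ∈ t, ∑ q ∈ t, a p q * (x p * y q) := by
    have : ∀ p : G × V, ∑ q ∈ R, wt (zmat Q γ) (Sum.inl p) (Sum.inr q) * f (Sum.inl p) *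
        f (Sum.inr q) = ∑ q ∈ t, a (p.2, p.1) q * (f (Sum.inl p) * y q) := by
      intro p
      refine ((Finset.sum_congr rfl fun q _ => by rw [hw]).trans (sumR (fun q' : V × G =>
        a (p.2, p.1) q' * f (Sum.inl p) * f (Sum.inr (q'.2, q'.1))))).trans ?_
      refine Finset.sum_congr rfl fun q _ => ?_
      simp only [hy]
      split_ifs
      · ring
      · simp
    rw [Finset.sum_congr rfl fun p _ => this p]
    refine (sumP (fun p' : V × G => ∑ q ∈ t, a p' q * (f (Sum.inl (p'.2, p'.1)) * y q))).trans ?_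
    refine Finset.sum_congr rfl fun p _ => ?_
    simp only [hx]
    split_ifs
    · rfl
    · simp
  have e4 : ∑ q ∈ R, ∑ p ∈ P, wt (zmat Q γ) (Sum.inr q) (Sum.inl p) * f (Sum.inr q) * f (Sum.inl p)
      = ∑ p ∈ t, ∑ q ∈ t, a p q * (x p * y q) := by
    rw [← e3, Finset.sum_comm]
    refine Finset.sum_congr rfl fun p _ => Finset.sum_congr rfl fun q _ => ?_
    rw [wt_symm]
    ring
  have e5 : ∑ u ∈ s, f u ^ 2 = ∑ p ∈ t, x p ^ 2 + ∑ p ∈ t, y p ^ 2 := by
    rw [hs, Finset.sum_disjSum, e1, e2]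
  have e6 : ∑ u ∈ s, ∑ v ∈ s, wt (zmat Q γ) u v * f u * f v =
      2 * ∑ p ∈ t, ∑ q ∈ t, a p q * (x p * y q) := by
    rw [hs, Finset.sum_disjSum]
    simp only [Finset.sum_disjSum]
    have z1 : ∀ p p' : G × V, wt (zmat Q γ) (Sum.inl p) (Sum.inl p') = 0 := fun _ _ => rfl
    have z2 : ∀ q q' : G × V, wt (zmat Q γ) (Sum.inr q) (Sum.inr q') = 0 := fun _ _ => rfl
    simp only [z1, z2, zero_mul, Finset.sum_const_zero, zero_add, add_zero]
    rw [e3, e4]
    ring
  rw [e6, e5]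
  exact key

end Pool.Agent.L0h7.CG
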