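import Pool.Agent.L0h7.CG.Below

set_option autoImplicit false
set_option linter.unusedSectionVars false
set_option linter.style.haveILetI false

/-! Graphs of norm at most `3 / √2` with a free cocompact action: the stabilisers of the components
are virtually cyclic, and kernel dimensions. -/

namespace Pool.Agent.L0h7.CG

open TH57.Thr Matrix TH57.Thr.Ati Pool.Agent.Y477.AV

variable {G : Type} [Group G] {V : Type} [Fintype V] [DecidableEq V]

theorem adj_lr (Q : SimpleGraph V) (γ : V → V → G) (hγ : ∀ v w, γ w v = (γ v w)⁻¹) {p q : V × G}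
    (h : (cover Q γ).Adj p q) : (gr (zmat Q γ)).Adj (Sum.inl (p.2, p.1)) (Sum.inr (q.2, q.1)) := by
  classical
  have h1 := zmat_coeff Q γ hγ p q
  rw [if_pos h] at h1
  intro h2
  have h3 : ((((zmat Q γ p.1 q.1).coeff (p.2⁻¹ * q.2)) : ℤ) : ℝ) = 0 := h2
  rw [h1] at h3
  exact one_ne_zero h3

theorem adj_rl (Q : SimpleGraph V) (γ : V → V → G) (hγ : ∀ v w, γ w v = (γ v w)⁻¹) {p q : V × G}
    (h : (cover Q γ).Adj p q) : (gr (zmat Q γ)).Adj (Sum.inr (p.2, p.1)) (Sum.inl (q.2, q.1)) :=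
  (adj_lr Q γ hγ h.symm).symm

theorem adj_pr (Q : SimpleGraph V) (γ : V → V → G) (hγ : ∀ v w, γ w v = (γ v w)⁻¹)
    {u v : Vx G V V} (h : (gr (zmat Q γ)).Adj u v) : (cover Q γ).Adj (pr u) (pr v) := by
  classical
  have key : ∀ p q : G × V, (gr (zmat Q γ)).Adj (Sum.inl p) (Sum.inr q) →
      (cover Q γ).Adj (p.2, p.1) (q.2, q.1) := by
    intro p q h
    by_contra hno
    have h1 := zmat_coeff Q γ hγ (p.2, p.1) (q.2, q.1)
    rw [if_neg hno] at h1
    exact h h1
  rcases u with p | p <;> rcases v with q | q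
  · exact absurd rfl h
  · exact key p q h
  · exact (key q p h.symm).symm
  · exact absurd rfl h

theorem reach_pr (Q : SimpleGraph V) (γ : V → V → G) (hγ : ∀ v w, γ w v = (γ v w)⁻¹)
    {u v : Vx G V V} (h : (gr (zmat Q γ)).Reachable u v) :
    (cover Q γ).Reachable (pr u) (pr v) := by
  let f : gr (zmat Q γ) →g cover Q γ := ⟨pr, fun h => adj_pr Q γ hγ h⟩
  exact h.map f

/-- exchanging the sides -/
def sw : Vx G V V → Vx G V V
  | Sum.inl p => Sum.inr p
  | Sum.inr p => Sum.inl p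

theorem reach_sw (Q : SimpleGraph V) (γ : V → V → G) (hγ : ∀ v w, γ w v = (γ v w)⁻¹)
    {u v : Vx G V V} (h : (gr (zmat Q γ)).Reachable u v) :
    (gr (zmat Q γ)).Reachable (sw u) (sw v) := by
  let f : gr (zmat Q γ) →g gr (zmat Q γ) := ⟨sw, by
    intro u v h
    have h1 := adj_pr Q γ hγ h
    rcases u with p | p <;> rcases v with q | q
    · exact absurd rfl h
    · exact adj_rl Q γ hγ h1
    · exact adj_lr Q γ hγ h1
    · exact absurd rfl h⟩
  exact h.map f

theorem reach_or (Q : SimpleGraph V) (γ : V → V → G) (hγ : ∀ v w, γ w v = (γ v w)⁻¹)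
    {p q : V × G} (h : (cover Q γ).Reachable p q) :
    (gr (zmat Q γ)).Reachable (Sum.inl (p.2, p.1)) (Sum.inl (q.2, q.1)) ∨
    (gr (zmat Q γ)).Reachable (Sum.inl (p.2, p.1)) (Sum.inr (q.2, q.1)) := by
  rw [SimpleGraph.reachable_iff_reflTransGen] at h
  induction h with
  | refl => exact Or.inl (SimpleGraph.Reachable.refl _)
  | tail _ h ih =>
    rcases ih with ih | ih
    · exact Or.inr (ih.trans (adj_lr Q γ hγ h).reachable)
    · exact Or.inl (ih.trans (adj_rl Q γ hγ h).reachable)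

theorem reach_mul (Q : SimpleGraph V) (γ : V → V → G) (k : G) {p q : V × G}
    (h : (cover Q γ).Reachable p q) : (cover Q γ).Reachable (p.1, k * p.2) (q.1, k * q.2) := by
  let f : cover Q γ →g cover Q γ := ⟨fun p => (p.1, k * p.2), by
    intro p q h
    refine ⟨h.1, ?_, ?_⟩
    · change k * p.2 * γ p.1 q.1 = k * q.2
      rw [mul_assoc, h.2.1]
    · change k * q.2 * γ q.1 p.1 = k * p.2
      rw [mul_assoc, h.2.2]⟩
  exact h.map f

/-- the stabiliser of a component -/
def cst (Q : SimpleGraph V) (γ : V → V → G) (b : V) : Subgroup G where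
  carrier := {g | (cover Q γ).Reachable (b, 1) (b, g)}
  mul_mem' := by
    intro g h hg hh
    have := reach_mul Q γ g hh
    rw [mul_one] at this
    exact SimpleGraph.Reachable.trans hg this
  one_mem' := SimpleGraph.Reachable.refl _
  inv_mem' := by
    intro g hg
    have := reach_mul Q γ g⁻¹ hg
    rw [mul_one, inv_mul_cancel] at this
    exact this.symm

theorem mem_cst (Q : SimpleGraph V) (γ : V → V → G) (b : V) (g : G) :
    g ∈ cst Q γ b ↔ (cover Q γ).Reachable (b, 1) (b, g) := Iff.rfl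

/-- The stabilisers of the components are virtually cyclic. -/
theorem cst_vc (Q : SimpleGraph V) (γ : V → V → G) (hγ : ∀ v w, γ w v = (γ v w)⁻¹) (c : ℝ)
    (hc0 : 0 < c) (hc : c ^ 2 ≤ 9 / 2) (h : GNorm (cover Q γ) c) (b : V) :
    ∃ s : cst Q γ b, (Subgroup.zpowers s).FiniteIndex := by
  classical
  set A := zmat Q γ with hA
  set S := stab A (Sum.inl (1, b)) with hS
  obtain ⟨s, hs⟩ := CGq.stab_vcq A c hc0 hc (quad_double Q γ hγ c h) (Sum.inl (1, b))
  have hmem : ∀ g, g ∈ S ↔ (gr A).Reachable (Sum.inl (1, b)) (Sum.inl (g, b)) := by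
    intro g
    rw [hS, mem_stab]
    change (gr A).Reachable (Sum.inl (1, b)) (Sum.inl (g * 1, b)) ↔ _
    rw [mul_one]
  have hle : S ≤ cst Q γ b := by
    intro g hg
    exact reach_pr Q γ hγ ((hmem g).1 hg)
  have hodd : ∀ g ∈ cst Q γ b, g ∉ S → (gr A).Reachable (Sum.inl (1, b)) (Sum.inr (g, b)) := by
    intro g hg hgS
    rcases reach_or Q γ hγ hg with h1 | h1
    · exact absurd ((hmem g).2 h1) hgS
    · exact h1
  have hmul : ∀ g ∈ cst Q γ b, ∀ g' ∈ cst Q γ b, g ∉ S → g' ∉ S → g * g' ∈ S := by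
    intro g hg g' hg' h1 h2
    have h3 := reachable_mv A g (reach_sw Q γ hγ (hodd g' hg' h2))
    have h4 : (gr A).Reachable (Sum.inr (g * 1, b)) (Sum.inl (g * g', b)) := h3
    rw [mul_one] at h4
    rw [hmem]
    exact (hodd g hg h1).trans h4
  have hidx : (S.subgroupOf (cst Q γ b)).FiniteIndex := by
    by_cases hall : S.subgroupOf (cst Q γ b) = ⊤
    · rw [hall]
      infer_instance
    · obtain ⟨a, ha⟩ : ∃ a : cst Q γ b, a ∉ S.subgroupOf (cst Q γ b) := by
        by_contra hno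
        push Not at hno
        exact hall (Subgroup.eq_top_iff' _ |>.2 hno)
      have h2 : (S.subgroupOf (cst Q γ b)).index = 2 := by
        rw [Subgroup.index_eq_two_iff]
        refine ⟨a, fun x => ?_⟩
        by_cases hx : x ∈ S.subgroupOf (cst Q γ b)
        · refine Or.inr ⟨hx, fun hxa => ha ?_⟩
          have := (S.subgroupOf (cst Q γ b)).mul_mem
            ((S.subgroupOf (cst Q γ b)).inv_mem hx) hxa
          rwa [inv_mul_cancel_left] at this
        · refine Or.inl ⟨?_, hx⟩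
          exact hmul x.1 x.2 a.1 a.2 hx ha
      exact ⟨by rw [h2]; norm_num⟩
  refine ⟨⟨s.1, hle s.2⟩, ?_⟩
  have h1 : (Subgroup.zpowers (s : G)).relIndex S ≠ 0 := by
    have e : (Subgroup.zpowers (s : G)).subgroupOf S = Subgroup.zpowers s := by
      ext x
      rw [Subgroup.mem_subgroupOf, Subgroup.mem_zpowers_iff, Subgroup.mem_zpowers_iff]
      refine exists_congr fun k => ?_
      rw [Subtype.ext_iff, Subgroup.coe_zpow]
    unfold Subgroup.relIndex
    rw [e]
    exact hs.index_ne_zero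
  have h2 : S.relIndex (cst Q γ b) ≠ 0 := hidx.index_ne_zero
  have h3 : (Subgroup.zpowers (s : G)).relIndex (cst Q γ b) ≠ 0 := by
    rw [← Subgroup.relIndex_mul_relIndex _ _ _ (Subgroup.zpowers_le.2 s.2) hle]
    exact mul_ne_zero h1 h2
  have e : (Subgroup.zpowers (s : G)).subgroupOf (cst Q γ b) =
      Subgroup.zpowers (⟨s.1, hle s.2⟩ : cst Q γ b) := by
    ext x
    rw [Subgroup.mem_subgroupOf, Subgroup.mem_zpowers_iff, Subgroup.mem_zpowers_iff]
    refine exists_congr fun k => ?_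
    rw [Subtype.ext_iff, Subgroup.coe_zpow]
  refine ⟨?_⟩
  rw [← e]
  exact h3

/-- **Below the threshold.** -/
theorem kap_below (Q : SimpleGraph V) (γ : V → V → G) (hγ : ∀ v w, γ w v = (γ v w)⁻¹) (c : ℝ)
    (hc0 : 0 < c) (hc : c ^ 2 ≤ 9 / 2) (h : GNorm (cover Q γ) c)
    (A : Matrix V V (MonoidAlgebra ℂ G))
    (hA : ∀ v w g, (A v w).coeff g ≠ 0 → (cover Q γ).Reachable (v, 1) (w, g)) :
    kap A ∈ Lam G := by
  classical
  let st : Setoid V :=
    { r := fun p q => ∃ g : G, (cover Q γ).Reachable (p, 1) (q, g)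
      iseqv := by
        refine ⟨fun p => ⟨1, SimpleGraph.Reachable.refl _⟩, ?_, ?_⟩
        · rintro p q ⟨g, hg⟩
          refine ⟨g⁻¹, ?_⟩
          have := reach_mul Q γ g⁻¹ hg
          rw [mul_one, inv_mul_cancel] at this
          exact this.symm
        · rintro p q r ⟨g, hg⟩ ⟨h, hh⟩
          refine ⟨g * h, hg.trans ?_⟩
          have := reach_mul Q γ g hh
          rwa [mul_one] at this }
  let ρ : V → V := fun p => (Quotient.mk st p).out
  have hρ : ∀ p, ∃ g : G, (cover Q γ).Reachable (ρ p, 1) (p, g) := fun p =>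
    Quotient.exact (Quotient.out_eq (Quotient.mk st p))
  choose u hu using hρ
  have hst : ∀ v w g, (cover Q γ).Reachable (v, 1) (w, g) →
      ρ v = ρ w ∧ u v * g * (u w)⁻¹ ∈ cst Q γ (ρ v) := by
    intro v w g hg
    have heq : ρ v = ρ w := by
      have : Quotient.mk st v = Quotient.mk st w := Quotient.sound ⟨g, hg⟩
      simp only [ρ, this]
    refine ⟨heq, ?_⟩
    rw [mem_cst]
    have h1 := hu v
    have h2 := reach_mul Q γ (u v) hg
    rw [mul_one] at h2
    have h3 := reach_mul Q γ (u v * g * (u w)⁻¹) (hu w)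
    rw [mul_one, inv_mul_cancel_right, ← heq] at h3
    exact (h1.trans h2).trans h3.symm
  let D1 : Matrix V V (MonoidAlgebra ℂ G) :=
    Matrix.diagonal fun i => MonoidAlgebra.single (u i) 1
  let D1' : Matrix V V (MonoidAlgebra ℂ G) :=
    Matrix.diagonal fun i => MonoidAlgebra.single (u i)⁻¹ 1
  have h1 : D1 * D1' = 1 := by
    simp only [D1, D1']
    rw [Matrix.diagonal_mul_diagonal, ← Matrix.diagonal_one]
    congr 1
    funext i
    rw [MonoidAlgebra.single_mul_single, mul_inv_cancel, mul_one, MonoidAlgebra.one_def]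
  have h2 : D1' * D1 = 1 := by
    simp only [D1, D1']
    rw [Matrix.diagonal_mul_diagonal, ← Matrix.diagonal_one]
    congr 1
    funext i
    rw [MonoidAlgebra.single_mul_single, inv_mul_cancel, mul_one, MonoidAlgebra.one_def]
  have hB : ∀ i j, (D1 * A * D1') i j = MonoidAlgebra.single (u i) 1 * A i j
      * MonoidAlgebra.single (u j)⁻¹ 1 := by
    intro i j
    simp only [D1, D1']
    rw [Matrix.mul_diagonal, Matrix.diagonal_mul]
  have hBc : ∀ i j g, ((D1 * A * D1') i j).coeff g ≠ 0 →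
      ρ i = ρ j ∧ g ∈ cst Q γ (ρ i) := by
    intro i j g hg
    rw [hB, MonoidAlgebra.coeff_mul_single_apply, MonoidAlgebra.coeff_single_mul_apply, one_mul,
      mul_one, inv_inv] at hg
    have h1 := hst i j _ (hA i j _ hg)
    refine ⟨h1.1, ?_⟩
    have h2 := h1.2
    have h3 : u i * ((u i)⁻¹ * (g * u j)) * (u j)⁻¹ = g := by group
    rwa [h3] at h2
  have h3 : kap (D1 * A * D1') = kap A := by
    rw [kap_unit_right _ h2, kap_mul_left D1 (Rop_inj h1)]
  rw [← h3, kap_eq]
  let e := Fintype.equivFin V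
  let C' : ℕ → Subgroup G := fun b => if h : b < Fintype.card V then
    cst Q γ (e.symm ⟨b, h⟩) else ⊥
  have hC' : ∀ b, ∃ s : C' b, (Subgroup.zpowers s).FiniteIndex := by
    intro b
    by_cases h' : b < Fintype.card V
    · have e1 : C' b = cst Q γ (e.symm ⟨b, h'⟩) := dif_pos h'
      rw [e1]
      exact cst_vc Q γ hγ c hc0 hc h _
    · have e1 : C' b = ⊥ := dif_neg h'
      rw [e1]
      exact ⟨1, inferInstance⟩
  have hCe : ∀ x, C' (e x) = cst Q γ x := by
    intro x
    have : C' (e x) = cst Q γ (e.symm ⟨e x, (e x).2⟩) := dif_pos (e x).2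
    rw [this]
    congr 1
    exact e.symm_apply_apply x
  refine vdim_blocks C' hC' (Fintype.card V) (gm (D1 * A * D1'))
    (fun i => e (ρ i)) (fun j => e (ρ j)) (fun i => (e _).2) ?_
  intro j i g hne
  rw [gm_apply] at hne
  obtain ⟨h4, h5⟩ := hBc i j _ hne
  refine ⟨by rw [h4], ?_⟩
  rw [hCe]
  exact (Subgroup.inv_mem_iff _).1 h5

end Pool.Agent.L0h7.CG
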