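import Pool.Agent.L0h7.CG.Red

set_option autoImplicit false
set_option linter.unusedSectionVars false

/-! Covers of finite graphs and their nullities. -/

namespace Pool.Agent.L0h7.CG

open Matrix TH57.Thr.Ati Pool.Agent.R719.AT Pool.Agent.R472.Grid

/-- The cover of the graph `Q` given by the voltages `γ`. -/
def cover {G : Type} [Group G] {V : Type} (Q : SimpleGraph V) (γ : V → V → G) :
    SimpleGraph (V × G) where
  Adj p q := Q.Adj p.1 q.1 ∧ p.2 * γ p.1 q.1 = q.2 ∧ q.2 * γ q.1 p.1 = p.2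
  symm := ⟨fun _ _ h => ⟨h.1.symm, h.2.2, h.2.1⟩⟩
  loopless := ⟨fun _ h => h.1.ne rfl⟩

/-- the kernel of the adjacency operator -/
def zeroFun {G : Type} {V : Type} (Γ : SimpleGraph (V × G)) :
    Set (lp (fun _ : V × G => ℂ) 2) :=
  {x | ∀ p, ∑ᶠ q ∈ Γ.neighborSet p, x q = 0}

open Classical in
/-- the multiplicity of the eigenvalue zero -/
noncomputable def nullity {G : Type} [Group G] {V : Type} [Fintype V] (Γ : SimpleGraph (V × G)) :
    ℝ :=
  ∑ v : V, (1 - (Metric.infDist
    (lp.single 2 (v, (1 : G)) (1 : ℂ) : lp (fun _ : V × G => ℂ) 2) (zeroFun Γ)) ^ 2)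

variable {G : Type} [Group G] {V : Type} [Fintype V] [DecidableEq V]

open Classical in
/-- the adjacency matrix of the cover -/
noncomputable def vmat (Q : SimpleGraph V) (γ : V → V → G) : Matrix V V (MonoidAlgebra ℂ G) :=
  Matrix.of fun v w => if Q.Adj v w then MonoidAlgebra.single (γ v w) 1 else 0

theorem zeroFun_eq (Q : SimpleGraph V) (γ : V → V → G) (hγ : ∀ v w, γ w v = (γ v w)⁻¹) :
    zeroFun (cover Q γ) = kerC (vmat Q γ) := by
  classical
  have key : ∀ (x : V × G → ℂ) (w : V) (g : G),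
      ∑ᶠ q ∈ (cover Q γ).neighborSet (w, g), x q = ∑ k : V, ∑ h ∈ (vmat Q γ k w).coeff.support,
        x (k, g * h⁻¹) * (vmat Q γ k w).coeff h := by
    intro x w g
    have h1 : (cover Q γ).neighborSet (w, g) =
        (fun k => (k, g * γ w k)) '' {k | Q.Adj w k} := by
      ext ⟨k, y⟩
      constructor
      · rintro ⟨h1, h2, h3⟩
        exact ⟨k, h1, Prod.ext rfl h2⟩
      · rintro ⟨k', h1, h2⟩
        obtain ⟨rfl, rfl⟩ := Prod.mk.inj h2
        refine ⟨h1, rfl, ?_⟩
        change g * γ w k' * γ k' w = g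
        rw [hγ w k', mul_assoc, mul_inv_cancel, mul_one]
    rw [h1, finsum_mem_image, ← Finset.coe_filter_univ, finsum_mem_coe_finset,
      Finset.sum_filter]
    · refine Finset.sum_congr rfl fun k _ => ?_
      have h2 : vmat Q γ k w = if Q.Adj w k then MonoidAlgebra.single (γ k w) 1 else 0 := by
        unfold vmat
        rw [Matrix.of_apply]
        simp only [Q.adj_comm k w]
      by_cases hk : Q.Adj w k
      · rw [if_pos hk, h2, if_pos hk, MonoidAlgebra.coeff_single,
          Finsupp.support_single _ (one_ne_zero), Finset.sum_singleton, Finsupp.single_eq_same,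
          mul_one, hγ w k, inv_inv]
      · rw [if_neg hk, h2, if_neg hk]
        simp
    · intro a _ b _ h
      exact congrArg Prod.fst h
  ext x
  constructor
  · intro hx j g
    rw [← key]
    exact hx (j, g)
  · rintro hx ⟨j, g⟩
    rw [key]
    exact hx j g

theorem nullity_eq (Q : SimpleGraph V) (γ : V → V → G) (hγ : ∀ v w, γ w v = (γ v w)⁻¹) :
    nullity (cover Q γ) = kap (vmat Q γ) := by
  classical
  rw [← kerC_dim]
  unfold nullity
  rw [zeroFun_eq Q γ hγ]
  refine Finset.sum_congr rfl fun i _ => ?_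
  congr
  exact Subsingleton.elim _ _

theorem vmat_int (Q : SimpleGraph V) (γ : V → V → G) : Zc (vmat Q γ) := by
  classical
  intro v w g
  unfold vmat
  rw [Matrix.of_apply]
  split_ifs
  · rw [MonoidAlgebra.coeff_single, Finsupp.single_apply]
    split_ifs
    · exact ⟨1, by simp⟩
    · exact ⟨0, by simp⟩
  · exact ⟨0, by simp⟩

/-- every voltage matrix comes from a cover -/
theorem exists_cover (N : Matrix V V (MonoidAlgebra ℂ G)) (hN : Vm N) :
    ∃ (Q : SimpleGraph V) (γ : V → V → G), (∀ v w, γ w v = (γ v w)⁻¹) ∧ vmat Q γ = N ∧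
      ∀ v, Q.neighborSet v = nb N v := by
  classical
  let Q : SimpleGraph V :=
    { Adj := fun v w => N v w ≠ 0
      symm := ⟨fun v w h => by rw [hN.symm v w]; exact st_ne.2 h⟩
      loopless := ⟨fun v h => h (hN.irr v)⟩ }
  have h1 : ∀ v w, ∃ g : G, (N v w ≠ 0 → N v w = MonoidAlgebra.single g 1) ∧
      (N v w = 0 → g = 1) := by
    intro v w
    rcases hN.mo v w with h | ⟨g, h⟩
    · exact ⟨1, fun h' => absurd h h', fun _ => rfl⟩
    · refine ⟨g, fun _ => h, fun h0 => ?_⟩
      rw [h0] at h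
      have h2 := congrArg (fun x => MonoidAlgebra.coeff x g) h
      simp [MonoidAlgebra.coeff_single] at h2
  choose γ hγ1 hγ2 using h1
  refine ⟨Q, γ, ?_, ?_, fun v => rfl⟩
  · intro v w
    by_cases h : N v w = 0
    · rw [hγ2 v w h, hγ2 w v (by rw [hN.symm v w, h, st_zero]), inv_one]
    · have h2 : N w v ≠ 0 := by rw [hN.symm v w]; exact st_ne.2 h
      have h3 := hγ1 w v h2
      rw [hN.symm v w, hγ1 v w h, st_single, map_one] at h3
      have h4 := congrArg (fun x => MonoidAlgebra.coeff x (γ v w)⁻¹) h3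
      simp only [MonoidAlgebra.coeff_single, Finsupp.single_eq_same, Finsupp.single_apply] at h4
      by_contra h5
      rw [if_neg h5] at h4
      exact one_ne_zero h4
  · ext1 v w
    unfold vmat
    rw [Matrix.of_apply]
    by_cases h : N v w = 0
    · rw [if_neg (show ¬ Q.Adj v w from fun h' => h' h), h]
    · rw [if_pos (show Q.Adj v w from h), ← hγ1 v w h]

/-- every kernel dimension is the nullity of a cover of a finite cubic graph -/
theorem main_cover {K L : Type} [Fintype K] [Fintype L] [DecidableEq K] [DecidableEq L]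
    (A : Matrix K L (MonoidAlgebra ℂ G)) (hA : Zc A) :
    ∃ (V : Type) (_ : Fintype V) (Q : SimpleGraph V) (γ : V → V → G),
      (∀ v w, γ w v = (γ v w)⁻¹) ∧ (∀ v, (Q.neighborSet v).ncard = 3) ∧
      nullity (cover Q γ) = kap A := by
  obtain ⟨V, i1, i2, N, hN, hd, hk⟩ := main A hA
  obtain ⟨Q, γ, h1, h2, h3⟩ := exists_cover N hN
  exact ⟨V, i1, Q, γ, h1, fun v => by rw [h3, hd], by rw [nullity_eq Q γ h1, h2, hk]⟩

end Pool.Agent.L0h7.CG
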