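import Pool.Agent.L0h7.CG.Volt

set_option autoImplicit false
set_option linter.unusedSectionVars false

/-! Lowering the degrees of voltage matrices. -/

namespace Pool.Agent.L0h7.CG

open Matrix TH57.Thr.Ati Pool.Agent.R719.AT Pool.Agent.R472.Grid

variable {G : Type} [Group G] {V : Type} [Fintype V] [DecidableEq V]

theorem part_ne {N : Matrix V V (MonoidAlgebra ℂ G)} {σ : V → Set V} {a b : Prop} {v w : V}
    (h : part N σ a b v w ≠ 0) : (w ∈ σ v ↔ a) ∧ (v ∈ σ w ↔ b) ∧ N v w ≠ 0 := by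
  classical
  simp only [part, Matrix.of_apply] at h
  by_cases h' : (w ∈ σ v ↔ a) ∧ (v ∈ σ w ↔ b)
  · rw [if_pos h'] at h
    exact ⟨h'.1, h'.2, h⟩
  · rw [if_neg h'] at h
    exact absurd rfl h

theorem one_ne' {v w : V} (h : (1 : Matrix V V (MonoidAlgebra ℂ G)) v w ≠ 0) : w = v := by
  by_contra h'
  exact h (Matrix.one_apply_ne (Ne.symm h'))

theorem ncard_two {α : Type} {S : Set α} {x y : α} (h : S ⊆ {x, y}) : S.ncard ≤ 2 :=
  (Set.ncard_le_ncard h (Set.toFinite _)).trans ((Set.ncard_insert_le _ _).trans (by simp))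

open Classical in
/-- the copy of `w` adjacent to a copy of `v` -/
noncomputable def cp (σ : V → Set V) (v w : V) : V ⊕ ((V ⊕ V) ⊕ (V ⊕ V)) :=
  if v ∈ σ w then Sum.inl w else Sum.inr (Sum.inr (Sum.inr w))

theorem nb_dbl (N : Matrix V V (MonoidAlgebra ℂ G)) (hN : Vm N) (σ : V → Set V) (D : ℕ)
    (hD : 2 ≤ D) (h1 : ∀ v, {w | N v w ≠ 0 ∧ w ∈ σ v}.ncard + 1 ≤ D)
    (h2 : ∀ v, {w | N v w ≠ 0 ∧ w ∉ σ v}.ncard + 1 ≤ D) (x : V ⊕ ((V ⊕ V) ⊕ (V ⊕ V))) :
    (nb (dbl (part N σ True True) (part N σ True False) (sta (part N σ True False))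
      (part N σ False False)) x).ncard ≤ D := by
  classical
  have h3 : sta (part N σ True False) = part N σ False True := (part_symm hN σ True False).symm
  rw [h3]
  rcases x with v | (v | v) | (v | v)
  · refine (Set.ncard_le_ncard (t := insert (Sum.inr (Sum.inl (Sum.inl v)))
      ((cp σ v) '' {w | N v w ≠ 0 ∧ w ∈ σ v})) ?_ (Set.toFinite _)).trans
      ((Set.ncard_insert_le _ _).trans ((Nat.add_le_add_right (Set.ncard_image_le
        (Set.toFinite _)) 1).trans (h1 v)))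
    rintro (w | (w | w) | (w | w)) hw
    · obtain ⟨a1, a2, a3⟩ := part_ne (show part N σ True True v w ≠ 0 from hw)
      exact Or.inr ⟨w, ⟨a3, a1.2 trivial⟩, by unfold cp; rw [if_pos (a2.2 trivial)]⟩
    · left
      rw [one_ne' (show (1 : Matrix V V (MonoidAlgebra ℂ G)) v w ≠ 0 from hw)]
    · exact absurd rfl hw
    · exact absurd rfl hw
    · obtain ⟨a1, a2, a3⟩ := part_ne (show part N σ True False v w ≠ 0 from hw)
      exact Or.inr ⟨w, ⟨a3, a1.2 trivial⟩, by unfold cp; rw [if_neg fun h => a2.1 h]⟩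
  · refine (ncard_two (x := Sum.inl v) (y := Sum.inr (Sum.inl (Sum.inr v))) ?_).trans hD
    rintro (w | (w | w) | (w | w)) hw
    · rw [one_ne' (show (1 : Matrix V V (MonoidAlgebra ℂ G)) v w ≠ 0 from hw)]
      exact Or.inl rfl
    · exact absurd rfl hw
    · rw [one_ne' (show (1 : Matrix V V (MonoidAlgebra ℂ G)) v w ≠ 0 from hw)]
      exact Or.inr rfl
    · exact absurd rfl hw
    · exact absurd rfl hw
  · refine (ncard_two (x := Sum.inr (Sum.inl (Sum.inl v))) (y := Sum.inr (Sum.inr (Sum.inl v)))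
      ?_).trans hD
    rintro (w | (w | w) | (w | w)) hw
    · exact absurd rfl hw
    · rw [one_ne' (show (1 : Matrix V V (MonoidAlgebra ℂ G)) v w ≠ 0 from hw)]
      exact Or.inl rfl
    · exact absurd rfl hw
    · rw [one_ne' (show (1 : Matrix V V (MonoidAlgebra ℂ G)) v w ≠ 0 from hw)]
      exact Or.inr rfl
    · exact absurd rfl hw
  · refine (ncard_two (x := Sum.inr (Sum.inl (Sum.inr v))) (y := Sum.inr (Sum.inr (Sum.inr v)))
      ?_).trans hD
    rintro (w | (w | w) | (w | w)) hw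
    · exact absurd rfl hw
    · exact absurd rfl hw
    · rw [one_ne' (show (1 : Matrix V V (MonoidAlgebra ℂ G)) v w ≠ 0 from hw)]
      exact Or.inl rfl
    · exact absurd rfl hw
    · rw [one_ne' (show (1 : Matrix V V (MonoidAlgebra ℂ G)) v w ≠ 0 from hw)]
      exact Or.inr rfl
  · refine (Set.ncard_le_ncard (t := insert (Sum.inr (Sum.inr (Sum.inl v)))
      ((cp σ v) '' {w | N v w ≠ 0 ∧ w ∉ σ v})) ?_ (Set.toFinite _)).trans
      ((Set.ncard_insert_le _ _).trans ((Nat.add_le_add_right (Set.ncard_image_le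
        (Set.toFinite _)) 1).trans (h2 v)))
    rintro (w | (w | w) | (w | w)) hw
    · obtain ⟨a1, a2, a3⟩ := part_ne (show part N σ False True v w ≠ 0 from hw)
      exact Or.inr ⟨w, ⟨a3, a1.1⟩, by unfold cp; rw [if_pos (a2.2 trivial)]⟩
    · exact absurd rfl hw
    · exact absurd rfl hw
    · left
      rw [one_ne' (show (1 : Matrix V V (MonoidAlgebra ℂ G)) v w ≠ 0 from hw)]
    · obtain ⟨a1, a2, a3⟩ := part_ne (show part N σ False False v w ≠ 0 from hw)
      exact Or.inr ⟨w, ⟨a3, a1.1⟩, by unfold cp; rw [if_neg fun h => a2.1 h]⟩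

/-- one step -/
theorem lower' (N : Matrix V V (MonoidAlgebra ℂ G)) (hN : Vm N) (D : ℕ) (hD : 3 ≤ D)
    (h : ∀ v, (nb N v).ncard ≤ D + 1) : ∃ σ : V → Set V,
    ∀ x, (nb (dbl (part N σ True True) (part N σ True False) (sta (part N σ True False))
      (part N σ False False)) x).ncard ≤ D := by
  classical
  have h1 : ∀ v, ∃ s : Set V, s ⊆ nb N v ∧ s.ncard ≤ 2 ∧ (nb N v \ s).ncard + 1 ≤ D := by
    intro v
    by_cases hv : (nb N v).ncard ≤ 2
    · exact ⟨nb N v, le_refl _, hv, by simp; omega⟩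
    · have h2 : 2 ≤ (Set.toFinite (nb N v)).toFinset.card := by
        rw [← Set.ncard_eq_toFinset_card]
        omega
      obtain ⟨t, ht, htc⟩ := Finset.exists_subset_card_eq h2
      have h3 : (t : Set V) ⊆ nb N v := by
        intro x hx
        have := ht (Finset.mem_coe.1 hx)
        exact (Set.Finite.mem_toFinset _).1 this
      refine ⟨t, h3, by rw [Set.ncard_coe_finset]; omega, ?_⟩
      rw [Set.ncard_sdiff h3, Set.ncard_coe_finset, htc]
      have := h v
      omega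
  choose σ hσ1 hσ2 hσ3 using h1
  refine ⟨σ, nb_dbl N hN σ D (by omega) ?_ ?_⟩
  · intro v
    have : {w | N v w ≠ 0 ∧ w ∈ σ v}.ncard ≤ (σ v).ncard :=
      Set.ncard_le_ncard (fun w hw => hw.2) (Set.toFinite _)
    have := hσ2 v
    omega
  · intro v
    exact hσ3 v

/-- one step -/
theorem lower (N : Matrix V V (MonoidAlgebra ℂ G)) (hN : Vm N) (D : ℕ) (hD : 3 ≤ D)
    (h : ∀ v, (nb N v).ncard ≤ D + 1) :
    ∃ N' : Matrix (V ⊕ ((V ⊕ V) ⊕ (V ⊕ V))) (V ⊕ ((V ⊕ V) ⊕ (V ⊕ V))) (MonoidAlgebra ℂ G),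
      Vm N' ∧ (∀ v, (nb N' v).ncard ≤ D) ∧ kap N' = kap N := by
  classical
  have h1 : ∀ v, ∃ s : Set V, s ⊆ nb N v ∧ s.ncard ≤ 2 ∧ (nb N v \ s).ncard + 1 ≤ D := by
    intro v
    by_cases hv : (nb N v).ncard ≤ 2
    · exact ⟨nb N v, le_refl _, hv, by simp; omega⟩
    · have h2 : 2 ≤ (Set.toFinite (nb N v)).toFinset.card := by
        rw [← Set.ncard_eq_toFinset_card]
        omega
      obtain ⟨t, ht, htc⟩ := Finset.exists_subset_card_eq h2
      have h3 : (t : Set V) ⊆ nb N v := by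
        intro x hx
        have := ht (Finset.mem_coe.1 hx)
        exact (Set.Finite.mem_toFinset _).1 this
      refine ⟨t, h3, by rw [Set.ncard_coe_finset]; omega, ?_⟩
      rw [Set.ncard_sdiff h3, Set.ncard_coe_finset, htc]
      have := h v
      omega
  choose σ hσ1 hσ2 hσ3 using h1
  refine ⟨dbl (part N σ True True) (part N σ True False) (sta (part N σ True False))
      (part N σ False False), vm_dbl (part_vm hN σ True) (part_vm hN σ False)
      (part_mo hN σ True False), nb_dbl N hN σ D (by omega) ?_ ?_, ?_⟩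
  · intro v
    have : {w | N v w ≠ 0 ∧ w ∈ σ v}.ncard ≤ (σ v).ncard :=
      Set.ncard_le_ncard (fun w hw => hw.2) (Set.toFinite _)
    have := hσ2 v
    omega
  · intro v
    exact hσ3 v
  · rw [kap_dbl, ← part_symm hN σ True False, part_sum]

theorem lower_all (k : ℕ) : ∀ (V : Type) [Fintype V] [DecidableEq V]
    (N : Matrix V V (MonoidAlgebra ℂ G)), Vm N → (∀ v, (nb N v).ncard ≤ 3 + k) →
    ∃ (V' : Type) (_ : Fintype V') (_ : DecidableEq V') (N' : Matrix V' V' (MonoidAlgebra ℂ G)),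
      Vm N' ∧ (∀ v, (nb N' v).ncard ≤ 3) ∧ kap N' = kap N := by
  induction k with
  | zero => exact fun V i1 i2 N hN h => ⟨V, i1, i2, N, hN, h, rfl⟩
  | succ k ih =>
    intro V i1 i2 N hN h
    obtain ⟨N', hN', h', hk⟩ := lower N hN (3 + k) (by omega) h
    obtain ⟨V'', i3, i4, N'', hN'', h'', hk'⟩ := ih _ N' hN' h'
    exact ⟨V'', i3, i4, N'', hN'', h'', hk'.trans hk⟩

theorem exists_three (N : Matrix V V (MonoidAlgebra ℂ G)) (hN : Vm N) :
    ∃ (V' : Type) (_ : Fintype V') (_ : DecidableEq V') (N' : Matrix V' V' (MonoidAlgebra ℂ G)),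
      Vm N' ∧ (∀ v, (nb N' v).ncard ≤ 3) ∧ kap N' = kap N := by
  refine lower_all (Fintype.card V) V N hN fun v => ?_
  have := Set.ncard_le_card (nb N v)
  rw [Nat.card_eq_fintype_card] at this
  omega

end Pool.Agent.L0h7.CG
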