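import Pool.Agent.L0h7.CG.App2

set_option autoImplicit false
set_option linter.unusedSectionVars false
set_option linter.style.haveILetI false

/-! Graphs of norm at most `3 / √2` with a free cocompact action, in general. -/

namespace Pool.Agent.L0h7.CGG

open Pool.Agent.L0h7.CG (GNorm gnorm_iff pr sw crit eigFun mult)
open TH57.Thr Matrix TH57.Thr.Ati Pool.Agent.Y477.AV

open Classical in
/-- degrees are finite -/
theorem nbr_finite {X : Type} {Γ : SimpleGraph X} {c : ℝ} (h : GNorm Γ c) (p : X) :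
    (Γ.neighborSet p).Finite := by
  by_contra hinf
  rw [gnorm_iff] at h
  obtain ⟨m, hm⟩ := exists_nat_gt (max c 0)
  have hmc : c < m := (le_max_left _ _).trans_lt hm
  have hm0 : (0 : ℝ) < m := (le_max_right _ _).trans_lt hm
  obtain ⟨T, hT, hTc⟩ := Set.Infinite.exists_subset_card_eq hinf (m ^ 2)
  have hpT : p ∉ T := fun h' => Γ.loopless.irrefl p (hT (Finset.mem_coe.2 h'))
  set f : X → ℝ := fun x => if x = p then (m : ℝ) else 1 with hf
  have hf0 : ∀ x, 0 ≤ f x := fun x => by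
    simp only [hf]
    split_ifs
    · exact hm0.le
    · exact zero_le_one
  have hfp : f p = m := if_pos rfl
  have hfT : ∀ x ∈ T, f x = 1 := fun x hx => if_neg (by rintro rfl; exact hpT hx)
  have h1 := h (insert p T) f
  have h2 : ∑ x ∈ insert p T, f x ^ 2 = 2 * (m : ℝ) ^ 2 := by
    rw [Finset.sum_insert hpT, hfp, Finset.sum_congr rfl fun x hx => by rw [hfT x hx],
      Finset.sum_const, hTc]
    simp
    ring
  have hadj : ∀ y ∈ T, Γ.Adj p y := fun y hy => hT (Finset.mem_coe.2 hy)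
  have hnn : ∀ x y, 0 ≤ (if Γ.Adj x y then f x * f y else 0) := fun x y => by
    split_ifs
    · exact mul_nonneg (hf0 _) (hf0 _)
    · exact le_rfl
  have h3 : 2 * (m : ℝ) ^ 3 ≤ ∑ x ∈ insert p T, ∑ y ∈ insert p T,
      (if Γ.Adj x y then f x * f y else 0) := by
    rw [Finset.sum_insert hpT, Finset.sum_insert hpT]
    have a1 : ∑ y ∈ T, (if Γ.Adj p y then f p * f y else 0) = (m : ℝ) ^ 3 := by
      rw [Finset.sum_congr rfl fun y hy => by
        rw [if_pos (hadj y hy), hfp, hfT y hy], Finset.sum_const, hTc]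
      simp
      ring
    have a2 : (m : ℝ) ^ 3 ≤ ∑ x ∈ T, ∑ y ∈ insert p T, (if Γ.Adj x y then f x * f y else 0) := by
      have a3 : ∑ x ∈ T, (if Γ.Adj x p then f x * f p else 0) = (m : ℝ) ^ 3 := by
        rw [Finset.sum_congr rfl fun y hy => by
          rw [if_pos (hadj y hy).symm, hfp, hfT y hy],
          Finset.sum_const, hTc]
        simp
        ring
      rw [← a3]
      refine Finset.sum_le_sum fun x _ => ?_
      rw [Finset.sum_insert hpT]
      have := Finset.sum_nonneg fun y (_ : y ∈ T) => hnn x y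
      linarith
    have a4 := hnn p p
    linarith
  rw [h2] at h1
  have h4 : 2 * (m : ℝ) ^ 3 ≤ c * (2 * (m : ℝ) ^ 2) := h3.trans h1
  have h5 : (m : ℝ) * (2 * (m : ℝ) ^ 2) ≤ c * (2 * (m : ℝ) ^ 2) := by
    calc _ = 2 * (m : ℝ) ^ 3 := by ring
      _ ≤ _ := h4
  have h6 : (m : ℝ) ≤ c := le_of_mul_le_mul_right h5 (by positivity)
  linarith

variable {G : Type} [Group G] {V : Type} [Fintype V] [DecidableEq V]

/-- the graph is invariant under the left action of `G` -/
def Inv (Γ : SimpleGraph (V × G)) : Prop :=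
  ∀ (k : G) (p q : V × G), Γ.Adj p q → Γ.Adj (p.1, k * p.2) (q.1, k * q.2)

open Classical in
/-- the adjacency matrix -/
noncomputable def amat (R : Type) [Ring R] (Γ : SimpleGraph (V × G)) :
    Matrix V V (MonoidAlgebra R G) :=
  Matrix.of fun v w => if h : {g : G | Γ.Adj (v, 1) (w, g)}.Finite then
    ∑ g ∈ h.toFinset, MonoidAlgebra.single g 1 else 0

theorem fib_finite {Γ : SimpleGraph (V × G)} {c : ℝ} (h : GNorm Γ c) (v w : V) :
    {g : G | Γ.Adj (v, 1) (w, g)}.Finite := by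
  have h1 := nbr_finite h (v, (1 : G))
  refine Set.Finite.of_finite_image (f := fun g => (w, g)) (h1.subset ?_) ?_
  · rintro _ ⟨g, hg, rfl⟩
    exact hg
  · intro a _ b _ hab
    exact congrArg Prod.snd hab

open Classical in
theorem amat_coeff (R : Type) [Ring R] {Γ : SimpleGraph (V × G)} {c : ℝ} (h : GNorm Γ c)
    (v w : V) (g : G) : (amat R Γ v w).coeff g = if Γ.Adj (v, 1) (w, g) then 1 else 0 := by
  have hfin := fib_finite h v w
  unfold amat
  rw [Matrix.of_apply, dif_pos hfin, MonoidAlgebra.coeff_sum, Finsupp.finsetSum_apply]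
  by_cases hg : Γ.Adj (v, 1) (w, g)
  · rw [if_pos hg, Finset.sum_eq_single g]
    · rw [MonoidAlgebra.coeff_single, Finsupp.single_eq_same]
    · intro b _ hb
      rw [MonoidAlgebra.coeff_single, Finsupp.single_eq_of_ne (Ne.symm hb)]
    · intro h'
      exact absurd (hfin.mem_toFinset.2 hg) h'
  · rw [if_neg hg]
    refine Finset.sum_eq_zero fun b hb => ?_
    rw [MonoidAlgebra.coeff_single, Finsupp.single_eq_of_ne]
    rintro rfl
    exact hg (hfin.mem_toFinset.1 hb)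

theorem inv_iff {Γ : SimpleGraph (V × G)} (hΓ : Inv Γ) (k : G) (p q : V × G) :
    Γ.Adj (p.1, k * p.2) (q.1, k * q.2) ↔ Γ.Adj p q := by
  refine ⟨fun h => ?_, hΓ k p q⟩
  have := hΓ k⁻¹ _ _ h
  simpa using this

open Classical in
theorem zmat_coeff {Γ : SimpleGraph (V × G)} (hΓ : Inv Γ) {c : ℝ} (h : GNorm Γ c)
    (p q : V × G) : ((((amat ℤ Γ p.1 q.1).coeff (p.2⁻¹ * q.2)) : ℤ) : ℝ) =
      if Γ.Adj p q then 1 else 0 := by
  rw [amat_coeff ℤ h]
  have h1 : Γ.Adj (p.1, 1) (q.1, p.2⁻¹ * q.2) ↔ Γ.Adj p q := by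
    rw [← inv_iff hΓ p.2 (p.1, 1) (q.1, p.2⁻¹ * q.2)]
    simp
  by_cases h2 : Γ.Adj p q
  · rw [if_pos h2, if_pos (h1.2 h2), Int.cast_one]
  · rw [if_neg h2, if_neg fun h' => h2 (h1.1 h'), Int.cast_zero]

open Classical in
/-- the quadratic form of the double cover -/
theorem quad_double {Γ : SimpleGraph (V × G)} (hΓ : Inv Γ) {c : ℝ}
    (hn : GNorm Γ c) (s : Finset (Vx G V V)) (f : Vx G V V → ℝ) :
    ∑ u ∈ s, ∑ v ∈ s, wt (amat ℤ Γ) u v * f u * f v ≤ c * ∑ u ∈ s, f u ^ 2 := by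
  have h := hn
  rw [gnorm_iff] at h
  set a : V × G → V × G → ℝ := fun p q => if Γ.Adj p q then 1 else 0 with ha
  have hasymm : ∀ p q, a p q = a q p := fun p q => by
    simp only [ha]
    rw [Γ.adj_comm p q]
  have ha0 : ∀ p q, 0 ≤ a p q := fun p q => by
    simp only [ha]
    split_ifs <;> norm_num
  have h' : ∀ (t : Finset (V × G)) (z : V × G → ℝ),
      ∑ p ∈ t, ∑ q ∈ t, a p q * (z p * z q) ≤ c * ∑ p ∈ t, z p ^ 2 := by
    intro t z
    refine le_trans (le_of_eq ?_) (h t z)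
    refine Finset.sum_congr rfl fun p _ => Finset.sum_congr rfl fun q _ => ?_
    simp only [ha]
    split_ifs <;> simp
  set x : V × G → ℝ := fun p => if Sum.inl (p.2, p.1) ∈ s then f (Sum.inl (p.2, p.1)) else 0 with hx
  set y : V × G → ℝ := fun p => if Sum.inr (p.2, p.1) ∈ s then f (Sum.inr (p.2, p.1)) else 0 with hy
  set t : Finset (V × G) := s.image pr with ht
  -- the inequality for the two functions
  have key : 2 * ∑ p ∈ t, ∑ q ∈ t, a p q * (x p * y q) ≤ c * (∑ p ∈ t, x p ^ 2 + ∑ p ∈ t, y p ^ 2) := by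
    have k1 := h' t (fun p => x p + y p)
    have k2 := h' t (fun p => |x p - y p|)
    have k3 : -∑ p ∈ t, ∑ q ∈ t, a p q * ((x p - y p) * (x q - y q)) ≤
        ∑ p ∈ t, ∑ q ∈ t, a p q * (|x p - y p| * |x q - y q|) := by
      rw [← Finset.sum_neg_distrib]
      refine Finset.sum_le_sum fun p _ => ?_
      rw [← Finset.sum_neg_distrib]
      refine Finset.sum_le_sum fun q _ => ?_
      rw [← mul_neg]
      refine mul_le_mul_of_nonneg_left ?_ (ha0 p q)
      rw [← abs_mul]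
      exact neg_le_abs _
    have k4 : ∑ p ∈ t, ∑ q ∈ t, a p q * ((x p + y p) * (x q + y q)) +
        -∑ p ∈ t, ∑ q ∈ t, a p q * ((x p - y p) * (x q - y q)) =
        4 * ∑ p ∈ t, ∑ q ∈ t, a p q * (x p * y q) := by
      have k5 : ∑ p ∈ t, ∑ q ∈ t, a p q * (y p * x q) = ∑ p ∈ t, ∑ q ∈ t, a p q * (x p * y q) := by
        rw [Finset.sum_comm]
        refine Finset.sum_congr rfl fun p _ => Finset.sum_congr rfl fun q _ => ?_
        rw [hasymm q p]
        ring
      have k6 : 4 * ∑ p ∈ t, ∑ q ∈ t, a p q * (x p * y q) =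
          2 * ∑ p ∈ t, ∑ q ∈ t, a p q * (x p * y q) + 2 * ∑ p ∈ t, ∑ q ∈ t, a p q * (y p * x q) := by
        rw [k5]; ring
      rw [k6, ← Finset.sum_neg_distrib, ← Finset.sum_add_distrib, Finset.mul_sum, Finset.mul_sum,
        ← Finset.sum_add_distrib]
      refine Finset.sum_congr rfl fun p _ => ?_
      rw [← Finset.sum_neg_distrib, ← Finset.sum_add_distrib, Finset.mul_sum, Finset.mul_sum,
        ← Finset.sum_add_distrib]
      refine Finset.sum_congr rfl fun q _ => ?_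
      ring
    have k7 : c * ∑ p ∈ t, (x p + y p) ^ 2 + c * ∑ p ∈ t, |x p - y p| ^ 2 =
        2 * (c * (∑ p ∈ t, x p ^ 2 + ∑ p ∈ t, y p ^ 2)) := by
      rw [← mul_add, ← Finset.sum_add_distrib, ← Finset.sum_add_distrib]
      have : ∀ p, (x p + y p) ^ 2 + |x p - y p| ^ 2 = 2 * (x p ^ 2 + y p ^ 2) := by
        intro p
        rw [sq_abs]
        ring
      rw [Finset.sum_congr rfl fun p _ => this p, ← Finset.mul_sum]
      ring
    beta_reduce at k1 k2
    linarith
  -- the left side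
  have hinl : ∀ p : G × V, (p.2, p.1) ∈ t ∨ Sum.inl p ∉ s := by
    intro p
    by_cases hp : Sum.inl p ∈ s
    · exact Or.inl (Finset.mem_image.2 ⟨_, hp, rfl⟩)
    · exact Or.inr hp
  have hinr : ∀ p : G × V, (p.2, p.1) ∈ t ∨ Sum.inr p ∉ s := by
    intro p
    by_cases hp : Sum.inr p ∈ s
    · exact Or.inl (Finset.mem_image.2 ⟨_, hp, rfl⟩)
    · exact Or.inr hp
  set P := s.toLeft with hP
  set R := s.toRight with hR
  have hs : s = P.disjSum R := Finset.toLeft_disjSum_toRight.symm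
  have sumP : ∀ F : V × G → ℝ, ∑ p ∈ P, F (p.2, p.1) =
      ∑ p ∈ t, (if Sum.inl (p.2, p.1) ∈ s then F p else 0) := by
    intro F
    rw [← Finset.sum_filter]
    refine Finset.sum_nbij' (fun p => (p.2, p.1)) (fun p => (p.2, p.1)) ?_ ?_ ?_ ?_ ?_
    · intro p hp
      have hp' : Sum.inl p ∈ s := Finset.mem_toLeft.1 hp
      exact Finset.mem_filter.2 ⟨Finset.mem_image.2 ⟨_, hp', rfl⟩, hp'⟩
    · intro p hp
      exact Finset.mem_toLeft.2 (Finset.mem_filter.1 hp).2
    · intro p _; rfl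
    · intro p _; rfl
    · intro p _; rfl
  have sumR : ∀ F : V × G → ℝ, ∑ p ∈ R, F (p.2, p.1) =
      ∑ p ∈ t, (if Sum.inr (p.2, p.1) ∈ s then F p else 0) := by
    intro F
    rw [← Finset.sum_filter]
    refine Finset.sum_nbij' (fun p => (p.2, p.1)) (fun p => (p.2, p.1)) ?_ ?_ ?_ ?_ ?_
    · intro p hp
      have hp' : Sum.inr p ∈ s := Finset.mem_toRight.1 hp
      exact Finset.mem_filter.2 ⟨Finset.mem_image.2 ⟨_, hp', rfl⟩, hp'⟩
    · intro p hp
      exact Finset.mem_toRight.2 (Finset.mem_filter.1 hp).2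
    · intro p _; rfl
    · intro p _; rfl
    · intro p _; rfl
  have e1 : ∑ p ∈ P, f (Sum.inl p) ^ 2 = ∑ p ∈ t, x p ^ 2 := by
    refine (sumP (fun q : V × G => f (Sum.inl (q.2, q.1)) ^ 2)).trans ?_
    refine Finset.sum_congr rfl fun p _ => ?_
    simp only [hx]
    split_ifs <;> simp
  have e2 : ∑ p ∈ R, f (Sum.inr p) ^ 2 = ∑ p ∈ t, y p ^ 2 := by
    refine (sumR (fun q : V × G => f (Sum.inr (q.2, q.1)) ^ 2)).trans ?_
    refine Finset.sum_congr rfl fun p _ => ?_
    simp only [hy]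
    split_ifs <;> simp
  have hw : ∀ p q : G × V, wt (amat ℤ Γ) (Sum.inl p) (Sum.inr q) = a (p.2, p.1) (q.2, q.1) := by
    intro p q
    exact zmat_coeff hΓ hn (p.2, p.1) (q.2, q.1)
  have e3 : ∑ p ∈ P, ∑ q ∈ R, wt (amat ℤ Γ) (Sum.inl p) (Sum.inr q) * f (Sum.inl p) * f (Sum.inr q)
      = ∑ p ∈ t, ∑ q ∈ t, a p q * (x p * y q) := by
    have : ∀ p : G × V, ∑ q ∈ R, wt (amat ℤ Γ) (Sum.inl p) (Sum.inr q) * f (Sum.inl p) *
        f (Sum.inr q) = ∑ q ∈ t, a (p.2, p.1) q * (f (Sum.inl p) * y q) := by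
      intro p
      refine ((Finset.sum_congr rfl fun q _ => by rw [hw]).trans (sumR (fun q' : V × G =>
        a (p.2, p.1) q' * f (Sum.inl p) * f (Sum.inr (q'.2, q'.1))))).trans ?_
      refine Finset.sum_congr rfl fun q _ => ?_
      simp only [hy]
      split_ifs
      · ring
      · simp
    rw [Finset.sum_congr rfl fun p _ => this p]
    refine (sumP (fun p' : V × G => ∑ q ∈ t, a p' q * (f (Sum.inl (p'.2, p'.1)) * y q))).trans ?_
    refine Finset.sum_congr rfl fun p _ => ?_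
    simp only [hx]
    split_ifs
    · rfl
    · simp
  have e4 : ∑ q ∈ R, ∑ p ∈ P, wt (amat ℤ Γ) (Sum.inr q) (Sum.inl p) * f (Sum.inr q) * f (Sum.inl p)
      = ∑ p ∈ t, ∑ q ∈ t, a p q * (x p * y q) := by
    rw [← e3, Finset.sum_comm]
    refine Finset.sum_congr rfl fun p _ => Finset.sum_congr rfl fun q _ => ?_
    rw [wt_symm]
    ring
  have e5 : ∑ u ∈ s, f u ^ 2 = ∑ p ∈ t, x p ^ 2 + ∑ p ∈ t, y p ^ 2 := by
    rw [hs, Finset.sum_disjSum, e1, e2]
  have e6 : ∑ u ∈ s, ∑ v ∈ s, wt (amat ℤ Γ) u v * f u * f v =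
      2 * ∑ p ∈ t, ∑ q ∈ t, a p q * (x p * y q) := by
    rw [hs, Finset.sum_disjSum]
    simp only [Finset.sum_disjSum]
    have z1 : ∀ p p' : G × V, wt (amat ℤ Γ) (Sum.inl p) (Sum.inl p') = 0 := fun _ _ => rfl
    have z2 : ∀ q q' : G × V, wt (amat ℤ Γ) (Sum.inr q) (Sum.inr q') = 0 := fun _ _ => rfl
    simp only [z1, z2, zero_mul, Finset.sum_const_zero, zero_add, add_zero]
    rw [e3, e4]
    ring
  rw [e6, e5]
  exact key

theorem adj_lr {Γ : SimpleGraph (V × G)} (hΓ : Inv Γ) {c : ℝ} (hn : GNorm Γ c) {p q : V × G}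
    (h : Γ.Adj p q) : (gr (amat ℤ Γ)).Adj (Sum.inl (p.2, p.1)) (Sum.inr (q.2, q.1)) := by
  classical
  have h1 := zmat_coeff hΓ hn p q
  rw [if_pos h] at h1
  intro h2
  have h3 : ((((amat ℤ Γ p.1 q.1).coeff (p.2⁻¹ * q.2)) : ℤ) : ℝ) = 0 := h2
  rw [h1] at h3
  exact one_ne_zero h3

theorem adj_rl {Γ : SimpleGraph (V × G)} (hΓ : Inv Γ) {c : ℝ} (hn : GNorm Γ c) {p q : V × G}
    (h : Γ.Adj p q) : (gr (amat ℤ Γ)).Adj (Sum.inr (p.2, p.1)) (Sum.inl (q.2, q.1)) :=
  (adj_lr hΓ hn h.symm).symm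

theorem adj_pr {Γ : SimpleGraph (V × G)} (hΓ : Inv Γ) {c : ℝ} (hn : GNorm Γ c)
    {u v : Vx G V V} (h : (gr (amat ℤ Γ)).Adj u v) : Γ.Adj (pr u) (pr v) := by
  classical
  have key : ∀ p q : G × V, (gr (amat ℤ Γ)).Adj (Sum.inl p) (Sum.inr q) →
      Γ.Adj (p.2, p.1) (q.2, q.1) := by
    intro p q h
    by_contra hno
    have h1 := zmat_coeff hΓ hn (p.2, p.1) (q.2, q.1)
    rw [if_neg hno] at h1
    exact h h1
  rcases u with p | p <;> rcases v with q | q
  · exact absurd rfl h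
  · exact key p q h
  · exact (key q p h.symm).symm
  · exact absurd rfl h

theorem reach_pr {Γ : SimpleGraph (V × G)} (hΓ : Inv Γ) {c : ℝ} (hn : GNorm Γ c)
    {u v : Vx G V V} (h : (gr (amat ℤ Γ)).Reachable u v) :
    Γ.Reachable (pr u) (pr v) := by
  let f : gr (amat ℤ Γ) →g Γ := ⟨pr, fun h => adj_pr hΓ hn h⟩
  exact h.map f

/-- exchanging the sides -/
def sw : Vx G V V → Vx G V V
  | Sum.inl p => Sum.inr p
  | Sum.inr p => Sum.inl p

theorem reach_sw {Γ : SimpleGraph (V × G)} (hΓ : Inv Γ) {c : ℝ} (hn : GNorm Γ c)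
    {u v : Vx G V V} (h : (gr (amat ℤ Γ)).Reachable u v) :
    (gr (amat ℤ Γ)).Reachable (sw u) (sw v) := by
  let f : gr (amat ℤ Γ) →g gr (amat ℤ Γ) := ⟨sw, by
    intro u v h
    have h1 := adj_pr hΓ hn h
    rcases u with p | p <;> rcases v with q | q
    · exact absurd rfl h
    · exact adj_rl hΓ hn h1
    · exact adj_lr hΓ hn h1
    · exact absurd rfl h⟩
  exact h.map f

theorem reach_or {Γ : SimpleGraph (V × G)} (hΓ : Inv Γ) {c : ℝ} (hn : GNorm Γ c)
    {p q : V × G} (h : Γ.Reachable p q) :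
    (gr (amat ℤ Γ)).Reachable (Sum.inl (p.2, p.1)) (Sum.inl (q.2, q.1)) ∨
    (gr (amat ℤ Γ)).Reachable (Sum.inl (p.2, p.1)) (Sum.inr (q.2, q.1)) := by
  rw [SimpleGraph.reachable_iff_reflTransGen] at h
  induction h with
  | refl => exact Or.inl (SimpleGraph.Reachable.refl _)
  | tail _ h ih =>
    rcases ih with ih | ih
    · exact Or.inr (ih.trans (adj_lr hΓ hn h).reachable)
    · exact Or.inl (ih.trans (adj_rl hΓ hn h).reachable)

theorem reach_mul {Γ : SimpleGraph (V × G)} (hΓ : Inv Γ) (k : G) {p q : V × G}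
    (h : Γ.Reachable p q) : Γ.Reachable (p.1, k * p.2) (q.1, k * q.2) := by
  let f : Γ →g Γ := ⟨fun p => (p.1, k * p.2), fun h => hΓ k _ _ h⟩
  exact h.map f

/-- the stabiliser of a component -/
def cst {Γ : SimpleGraph (V × G)} (hΓ : Inv Γ) (b : V) : Subgroup G where
  carrier := {g | Γ.Reachable (b, 1) (b, g)}
  mul_mem' := by
    intro g h hg hh
    have := reach_mul hΓ g hh
    rw [mul_one] at this
    exact SimpleGraph.Reachable.trans hg this
  one_mem' := SimpleGraph.Reachable.refl _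
  inv_mem' := by
    intro g hg
    have := reach_mul hΓ g⁻¹ hg
    rw [mul_one, inv_mul_cancel] at this
    exact this.symm

theorem mem_cst {Γ : SimpleGraph (V × G)} (hΓ : Inv Γ) (b : V) (g : G) :
    g ∈ cst hΓ b ↔ Γ.Reachable (b, 1) (b, g) := Iff.rfl

/-- The stabilisers of the components are virtually cyclic. -/
theorem cst_vc {Γ : SimpleGraph (V × G)} (hΓ : Inv Γ) {c : ℝ} (hn : GNorm Γ c)
    (hc0 : 0 < c) (hc : c ^ 2 ≤ 9 / 2) (b : V) :
    ∃ s : cst hΓ b, (Subgroup.zpowers s).FiniteIndex := by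
  classical
  set A := amat ℤ Γ with hA
  set S := stab A (Sum.inl (1, b)) with hS
  obtain ⟨s, hs⟩ := Pool.Agent.L0h7.CGq.stab_vcq A c hc0 hc (quad_double hΓ hn) (Sum.inl (1, b))
  have hmem : ∀ g, g ∈ S ↔ (gr A).Reachable (Sum.inl (1, b)) (Sum.inl (g, b)) := by
    intro g
    rw [hS, mem_stab]
    change (gr A).Reachable (Sum.inl (1, b)) (Sum.inl (g * 1, b)) ↔ _
    rw [mul_one]
  have hle : S ≤ cst hΓ b := by
    intro g hg
    exact reach_pr hΓ hn ((hmem g).1 hg)
  have hodd : ∀ g ∈ cst hΓ b, g ∉ S → (gr A).Reachable (Sum.inl (1, b)) (Sum.inr (g, b)) := by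
    intro g hg hgS
    rcases reach_or hΓ hn hg with h1 | h1
    · exact absurd ((hmem g).2 h1) hgS
    · exact h1
  have hmul : ∀ g ∈ cst hΓ b, ∀ g' ∈ cst hΓ b, g ∉ S → g' ∉ S → g * g' ∈ S := by
    intro g hg g' hg' h1 h2
    have h3 := reachable_mv A g (reach_sw hΓ hn (hodd g' hg' h2))
    have h4 : (gr A).Reachable (Sum.inr (g * 1, b)) (Sum.inl (g * g', b)) := h3
    rw [mul_one] at h4
    rw [hmem]
    exact (hodd g hg h1).trans h4
  have hidx : (S.subgroupOf (cst hΓ b)).FiniteIndex := by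
    by_cases hall : S.subgroupOf (cst hΓ b) = ⊤
    · rw [hall]
      infer_instance
    · obtain ⟨a, ha⟩ : ∃ a : cst hΓ b, a ∉ S.subgroupOf (cst hΓ b) := by
        by_contra hno
        push Not at hno
        exact hall (Subgroup.eq_top_iff' _ |>.2 hno)
      have h2 : (S.subgroupOf (cst hΓ b)).index = 2 := by
        rw [Subgroup.index_eq_two_iff]
        refine ⟨a, fun x => ?_⟩
        by_cases hx : x ∈ S.subgroupOf (cst hΓ b)
        · refine Or.inr ⟨hx, fun hxa => ha ?_⟩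
          have := (S.subgroupOf (cst hΓ b)).mul_mem
            ((S.subgroupOf (cst hΓ b)).inv_mem hx) hxa
          rwa [inv_mul_cancel_left] at this
        · refine Or.inl ⟨?_, hx⟩
          exact hmul x.1 x.2 a.1 a.2 hx ha
      exact ⟨by rw [h2]; norm_num⟩
  refine ⟨⟨s.1, hle s.2⟩, ?_⟩
  have h1 : (Subgroup.zpowers (s : G)).relIndex S ≠ 0 := by
    have e : (Subgroup.zpowers (s : G)).subgroupOf S = Subgroup.zpowers s := by
      ext x
      rw [Subgroup.mem_subgroupOf, Subgroup.mem_zpowers_iff, Subgroup.mem_zpowers_iff]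
      refine exists_congr fun k => ?_
      rw [Subtype.ext_iff, Subgroup.coe_zpow]
    unfold Subgroup.relIndex
    rw [e]
    exact hs.index_ne_zero
  have h2 : S.relIndex (cst hΓ b) ≠ 0 := hidx.index_ne_zero
  have h3 : (Subgroup.zpowers (s : G)).relIndex (cst hΓ b) ≠ 0 := by
    rw [← Subgroup.relIndex_mul_relIndex _ _ _ (Subgroup.zpowers_le.2 s.2) hle]
    exact mul_ne_zero h1 h2
  have e : (Subgroup.zpowers (s : G)).subgroupOf (cst hΓ b) =
      Subgroup.zpowers (⟨s.1, hle s.2⟩ : cst hΓ b) := by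
    ext x
    rw [Subgroup.mem_subgroupOf, Subgroup.mem_zpowers_iff, Subgroup.mem_zpowers_iff]
    refine exists_congr fun k => ?_
    rw [Subtype.ext_iff, Subgroup.coe_zpow]
  refine ⟨?_⟩
  rw [← e]
  exact h3

/-- **Below the threshold.** -/
theorem kap_below {Γ : SimpleGraph (V × G)} (hΓ : Inv Γ) {c : ℝ} (hn : GNorm Γ c)
    (hc0 : 0 < c) (hc : c ^ 2 ≤ 9 / 2)
    (A : Matrix V V (MonoidAlgebra ℂ G))
    (hA : ∀ v w g, (A v w).coeff g ≠ 0 → Γ.Reachable (v, 1) (w, g)) :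
    kap A ∈ Lam G := by
  classical
  let st : Setoid V :=
    { r := fun p q => ∃ g : G, Γ.Reachable (p, 1) (q, g)
      iseqv := by
        refine ⟨fun p => ⟨1, SimpleGraph.Reachable.refl _⟩, ?_, ?_⟩
        · rintro p q ⟨g, hg⟩
          refine ⟨g⁻¹, ?_⟩
          have := reach_mul hΓ g⁻¹ hg
          rw [mul_one, inv_mul_cancel] at this
          exact this.symm
        · rintro p q r ⟨g, hg⟩ ⟨h, hh⟩
          refine ⟨g * h, hg.trans ?_⟩
          have := reach_mul hΓ g hh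
          rwa [mul_one] at this }
  let ρ : V → V := fun p => (Quotient.mk st p).out
  have hρ : ∀ p, ∃ g : G, Γ.Reachable (ρ p, 1) (p, g) := fun p =>
    Quotient.exact (Quotient.out_eq (Quotient.mk st p))
  choose u hu using hρ
  have hst : ∀ v w g, Γ.Reachable (v, 1) (w, g) →
      ρ v = ρ w ∧ u v * g * (u w)⁻¹ ∈ cst hΓ (ρ v) := by
    intro v w g hg
    have heq : ρ v = ρ w := by
      have : Quotient.mk st v = Quotient.mk st w := Quotient.sound ⟨g, hg⟩
      simp only [ρ, this]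
    refine ⟨heq, ?_⟩
    rw [mem_cst]
    have h1 := hu v
    have h2 := reach_mul hΓ (u v) hg
    rw [mul_one] at h2
    have h3 := reach_mul hΓ (u v * g * (u w)⁻¹) (hu w)
    rw [mul_one, inv_mul_cancel_right, ← heq] at h3
    exact (h1.trans h2).trans h3.symm
  let D1 : Matrix V V (MonoidAlgebra ℂ G) :=
    Matrix.diagonal fun i => MonoidAlgebra.single (u i) 1
  let D1' : Matrix V V (MonoidAlgebra ℂ G) :=
    Matrix.diagonal fun i => MonoidAlgebra.single (u i)⁻¹ 1
  have h1 : D1 * D1' = 1 := by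
    simp only [D1, D1']
    rw [Matrix.diagonal_mul_diagonal, ← Matrix.diagonal_one]
    congr 1
    funext i
    rw [MonoidAlgebra.single_mul_single, mul_inv_cancel, mul_one, MonoidAlgebra.one_def]
  have h2 : D1' * D1 = 1 := by
    simp only [D1, D1']
    rw [Matrix.diagonal_mul_diagonal, ← Matrix.diagonal_one]
    congr 1
    funext i
    rw [MonoidAlgebra.single_mul_single, inv_mul_cancel, mul_one, MonoidAlgebra.one_def]
  have hB : ∀ i j, (D1 * A * D1') i j = MonoidAlgebra.single (u i) 1 * A i j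
      * MonoidAlgebra.single (u j)⁻¹ 1 := by
    intro i j
    simp only [D1, D1']
    rw [Matrix.mul_diagonal, Matrix.diagonal_mul]
  have hBc : ∀ i j g, ((D1 * A * D1') i j).coeff g ≠ 0 →
      ρ i = ρ j ∧ g ∈ cst hΓ (ρ i) := by
    intro i j g hg
    rw [hB, MonoidAlgebra.coeff_mul_single_apply, MonoidAlgebra.coeff_single_mul_apply, one_mul,
      mul_one, inv_inv] at hg
    have h1 := hst i j _ (hA i j _ hg)
    refine ⟨h1.1, ?_⟩
    have h2 := h1.2
    have h3 : u i * ((u i)⁻¹ * (g * u j)) * (u j)⁻¹ = g := by group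
    rwa [h3] at h2
  have h3 : kap (D1 * A * D1') = kap A := by
    rw [kap_unit_right _ h2, kap_mul_left D1 (Rop_inj h1)]
  rw [← h3, kap_eq]
  let e := Fintype.equivFin V
  let C' : ℕ → Subgroup G := fun b => if h : b < Fintype.card V then
    cst hΓ (e.symm ⟨b, h⟩) else ⊥
  have hC' : ∀ b, ∃ s : C' b, (Subgroup.zpowers s).FiniteIndex := by
    intro b
    by_cases h' : b < Fintype.card V
    · have e1 : C' b = cst hΓ (e.symm ⟨b, h'⟩) := dif_pos h'
      rw [e1]
      exact cst_vc hΓ hn hc0 hc _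
    · have e1 : C' b = ⊥ := dif_neg h'
      rw [e1]
      exact ⟨1, inferInstance⟩
  have hCe : ∀ x, C' (e x) = cst hΓ x := by
    intro x
    have : C' (e x) = cst hΓ (e.symm ⟨e x, (e x).2⟩) := dif_pos (e x).2
    rw [this]
    congr 1
    exact e.symm_apply_apply x
  refine vdim_blocks C' hC' (Fintype.card V) (gm (D1 * A * D1'))
    (fun i => e (ρ i)) (fun j => e (ρ j)) (fun i => (e _).2) ?_
  intro j i g hne
  rw [gm_apply] at hne
  obtain ⟨h4, h5⟩ := hBc i j _ hne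
  refine ⟨by rw [h4], ?_⟩
  rw [hCe]
  exact (Subgroup.inv_mem_iff _).1 h5


end Pool.Agent.L0h7.CGG
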