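import Pool.Agent.L0h7.CG.Gen

set_option autoImplicit false
set_option linter.unusedSectionVars false

/-! Multiplicities of eigenvalues of invariant graphs. -/

namespace Pool.Agent.L0h7.CGG

open Pool.Agent.L0h7.CG (GNorm gnorm_iff crit eigFun mult)
open TH57.Thr Matrix TH57.Thr.Ati Pool.Agent.Y477.AV

variable {G : Type} [Group G] {V : Type} [Fintype V] [DecidableEq V]

theorem nb_sum {Γ : SimpleGraph (V × G)} (hΓ : Inv Γ) {c : ℝ} (hn : GNorm Γ c)
    (x : V × G → ℂ) (w : V) (g : G) :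
    ∑ᶠ q ∈ Γ.neighborSet (w, g), x q = ∑ k : V, (amat ℂ Γ k w).coeff.sum
      (fun h c => x (k, g * h⁻¹) * c) := by
  classical
  have hfin := nbr_finite hn (w, g)
  have e1 : ∑ᶠ q ∈ Γ.neighborSet (w, g), x q = ∑ q ∈ hfin.toFinset, x q := by
    rw [← finsum_mem_coe_finset, hfin.coe_toFinset]
  have e2 : ∀ k, (amat ℂ Γ k w).coeff.sum (fun h c => x (k, g * h⁻¹) * c) =
      ∑ h ∈ (fib_finite hn k w).toFinset, x (k, g * h⁻¹) := by
    intro k
    rw [Finsupp.sum_of_support_subset (s := (fib_finite hn k w).toFinset)]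
    · refine Finset.sum_congr rfl fun h hh => ?_
      have hadj : Γ.Adj (k, 1) (w, h) := (fib_finite hn k w).mem_toFinset.1 hh
      rw [amat_coeff ℂ hn, if_pos hadj, mul_one]
    · intro h hh
      rw [Finsupp.mem_support_iff, amat_coeff ℂ hn] at hh
      refine (fib_finite hn k w).mem_toFinset.2 ?_
      by_contra hno
      exact hh (if_neg hno)
    · intro h _
      rw [mul_zero]
  have hmem : ∀ (k : V) (h : G), Γ.Adj (w, g) (k, g * h⁻¹) ↔ Γ.Adj (k, 1) (w, h) := by
    intro k h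
    rw [Γ.adj_comm, ← inv_iff hΓ (g * h⁻¹) (k, 1) (w, h)]
    simp
  rw [e1, Finset.sum_congr rfl fun k _ => e2 k, Finset.sum_sigma']
  refine Finset.sum_bij' (fun q _ => ⟨q.1, q.2⁻¹ * g⟩) (fun p _ => (p.1, g * p.2⁻¹)) ?_ ?_ ?_ ?_ ?_
  · intro q hq
    refine Finset.mem_sigma.2 ⟨Finset.mem_univ _, (fib_finite hn _ _).mem_toFinset.2 ?_⟩
    have h1 : Γ.Adj (w, g) q := hfin.mem_toFinset.1 hq
    change Γ.Adj (q.1, 1) (w, q.2⁻¹ * g)
    rw [← hmem]
    simpa using h1
  · intro p hp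
    refine hfin.mem_toFinset.2 ?_
    have h1 : Γ.Adj (p.1, 1) (w, p.2) :=
      (fib_finite hn _ _).mem_toFinset.1 (Finset.mem_sigma.1 hp).2
    exact (hmem p.1 p.2).2 h1
  · intro q _
    simp
  · intro p _
    simp
  · intro q _
    simp

theorem eigFun_eq {Γ : SimpleGraph (V × G)} (hΓ : Inv Γ) {c : ℝ} (hn : GNorm Γ c) (z : ℂ) :
    eigFun Γ z = kerC (amat ℂ Γ - z • 1) := by
  classical
  have key : ∀ (x : V × G → ℂ) (w : V) (g : G),
      ∑ k : V, ∑ h ∈ ((amat ℂ Γ - z • 1 : Matrix V V (MonoidAlgebra ℂ G)) k w).coeff.support,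
        x (k, g * h⁻¹) * ((amat ℂ Γ - z • 1 : Matrix V V (MonoidAlgebra ℂ G)) k w).coeff h =
      ∑ᶠ q ∈ Γ.neighborSet (w, g), x q - z * x (w, g) := by
    intro x w g
    rw [nb_sum hΓ hn]
    have h1 : ∀ k, ∑ h ∈ ((amat ℂ Γ - z • 1 : Matrix V V (MonoidAlgebra ℂ G)) k w).coeff.support,
        x (k, g * h⁻¹) * ((amat ℂ Γ - z • 1 : Matrix V V (MonoidAlgebra ℂ G)) k w).coeff h =
        (amat ℂ Γ k w).coeff.sum (fun h c => x (k, g * h⁻¹) * c) -
          (if k = w then z * x (w, g) else 0) := by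
      intro k
      change ((amat ℂ Γ - z • 1 : Matrix V V (MonoidAlgebra ℂ G)) k w).coeff.sum
        (fun h c => x (k, g * h⁻¹) * c) = _
      rw [Matrix.sub_apply, MonoidAlgebra.coeff_sub, Finsupp.sum_sub_index]
      · congr 1
        rw [Matrix.smul_apply, Matrix.one_apply]
        by_cases hk : k = w
        · subst hk
          rw [if_pos rfl, if_pos rfl, MonoidAlgebra.one_def, MonoidAlgebra.smul_single,
            MonoidAlgebra.coeff_single, Finsupp.sum_single_index]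
          · simp [mul_comm]
          · rw [mul_zero]
        · rw [if_neg hk, if_neg hk]
          simp
      · intro a b c
        ring
    rw [Finset.sum_congr rfl fun k _ => h1 k, Finset.sum_sub_distrib]
    simp
  ext x
  constructor
  · intro hx j g
    rw [key, sub_eq_zero]
    exact hx (j, g)
  · rintro hx ⟨j, g⟩
    rw [← sub_eq_zero, ← key]
    exact hx j g

theorem mult_eq {Γ : SimpleGraph (V × G)} (hΓ : Inv Γ) {c : ℝ} (hn : GNorm Γ c) (z : ℂ) :
    mult Γ z = kap (amat ℂ Γ - z • 1) := by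
  classical
  rw [← kerC_dim]
  unfold mult
  rw [eigFun_eq hΓ hn]
  refine Finset.sum_congr rfl fun i _ => ?_
  congr
  exact Subsingleton.elim _ _

theorem below_all {Γ : SimpleGraph (V × G)} (hΓ : Inv Γ) (hn : GNorm Γ (3 / Real.sqrt 2))
    (A : Matrix V V (MonoidAlgebra ℂ G))
    (hA : ∀ v w g, (A v w).coeff g ≠ 0 → Γ.Reachable (v, 1) (w, g)) :
    kap A ∈ Lam G :=
  kap_below hΓ hn crit.1 crit.2.le A hA

theorem below_mult {Γ : SimpleGraph (V × G)} (hΓ : Inv Γ) (hn : GNorm Γ (3 / Real.sqrt 2))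
    (z : ℂ) : mult Γ z ∈ Lam G := by
  classical
  rw [mult_eq hΓ hn]
  refine below_all hΓ hn _ fun v w g hg => ?_
  rw [Matrix.sub_apply, Matrix.smul_apply, MonoidAlgebra.coeff_sub, Finsupp.sub_apply] at hg
  by_cases h1 : (amat ℂ Γ v w).coeff g = 0
  · rw [h1, zero_sub, neg_ne_zero, Matrix.one_apply] at hg
    by_cases h2 : v = w
    · rw [if_pos h2, MonoidAlgebra.one_def, MonoidAlgebra.smul_single,
        MonoidAlgebra.coeff_single, Finsupp.single_apply] at hg
      by_cases h3 : 1 = g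
      · rw [h2, ← h3]
      · rw [if_neg h3] at hg
        exact absurd rfl hg
    · rw [if_neg h2, smul_zero, MonoidAlgebra.coeff_zero] at hg
      exact absurd rfl hg
  · rw [amat_coeff ℂ hn] at h1
    by_cases h2 : Γ.Adj (v, 1) (w, g)
    · exact h2.reachable
    · rw [if_neg h2] at h1
      exact absurd rfl h1

end Pool.Agent.L0h7.CGG
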