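import Pool.Agent.L0h7.CG.Path

set_option autoImplicit false
set_option linter.unusedSectionVars false

/-! Replacing the edges by long paths. -/

namespace Pool.Agent.L0h7.CG

open Matrix TH57.Thr.Ati Pool.Agent.R719.AT Pool.Agent.R472.Grid

variable {G : Type} [Group G] {V : Type} [Fintype V] [DecidableEq V]

/-- the edges -/
abbrev Et (N : Matrix V V (MonoidAlgebra ℂ G)) : Type :=
  {p : V × V // (Fintype.equivFin V) p.1 < (Fintype.equivFin V) p.2 ∧ N p.1 p.2 ≠ 0}

open Classical in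
noncomputable instance Et.fintype (N : Matrix V V (MonoidAlgebra ℂ G)) : Fintype (Et N) :=
  Subtype.fintype _

/-- the connecting matrix -/
noncomputable def Lj (N : Matrix V V (MonoidAlgebra ℂ G)) (m : ℕ) :
    Matrix V (Fin (4 * m + 4) × Et N) (MonoidAlgebra ℂ G) :=
  Matrix.of fun v p => if (p.1 : ℕ) = 0 ∧ p.2.1.1 = v then N p.2.1.1 p.2.1.2 else
    if (p.1 : ℕ) = 4 * m + 3 ∧ p.2.1.2 = v then 1 else 0

/-- the graph with long edges -/
noncomputable def lng (N : Matrix V V (MonoidAlgebra ℂ G)) (m : ℕ) :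
    Matrix (V ⊕ (Fin (4 * m + 4) × Et N)) (V ⊕ (Fin (4 * m + 4) × Et N)) (MonoidAlgebra ℂ G) :=
  fromBlocks 0 (Lj N m) (sta (Lj N m)) (blockDiagonal fun _ : Et N => zc (Pn (4 * m + 4)))

theorem sum_ends {M : Type} [AddCommMonoid M] (m : ℕ) (f : Fin (4 * m + 4) → M)
    (h : ∀ k : Fin (4 * m + 4), (k : ℕ) ≠ 0 → (k : ℕ) ≠ 4 * m + 3 → f k = 0) :
    ∑ k, f k = f 0 + f (Fin.last (4 * m + 3)) := by
  refine Fintype.sum_eq_add _ _ ?_ ?_
  · intro h'
    have := congrArg Fin.val h'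
    simp at this
  · rintro k ⟨h1, h2⟩
    refine h k ?_ ?_
    · intro h'
      exact h1 (Fin.ext h')
    · intro h'
      exact h2 (Fin.ext h')

theorem zc_one (n : ℕ) : (zc (1 : Matrix (Fin n) (Fin n) ℤ) :
    Matrix (Fin n) (Fin n) (MonoidAlgebra ℂ G)) = 1 := by
  unfold zc
  exact Matrix.map_one _ (map_zero _) (map_one _)

theorem Lj_zero (N : Matrix V V (MonoidAlgebra ℂ G)) (m : ℕ) (v : V) (e : Et N) :
    Lj N m v (0, e) = if e.1.1 = v then N e.1.1 e.1.2 else 0 := by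
  change (if ((0 : Fin (4 * m + 4)) : ℕ) = 0 ∧ e.1.1 = v then N e.1.1 e.1.2 else
    if ((0 : Fin (4 * m + 4)) : ℕ) = 4 * m + 3 ∧ e.1.2 = v then 1 else 0) = _
  by_cases h : e.1.1 = v
  · rw [if_pos ⟨rfl, h⟩, if_pos h]
  · rw [if_neg (fun h' => h h'.2), if_neg h, if_neg]
    rintro ⟨h', _⟩
    simp at h'

theorem Lj_last (N : Matrix V V (MonoidAlgebra ℂ G)) (m : ℕ) (v : V) (e : Et N) :
    Lj N m v (Fin.last (4 * m + 3), e) = if e.1.2 = v then 1 else 0 := by
  change (if ((Fin.last (4 * m + 3)) : ℕ) = 0 ∧ e.1.1 = v then N e.1.1 e.1.2 else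
    if ((Fin.last (4 * m + 3)) : ℕ) = 4 * m + 3 ∧ e.1.2 = v then 1 else 0) = _
  rw [if_neg (by simp)]
  by_cases h : e.1.2 = v
  · rw [if_pos ⟨by simp, h⟩, if_pos h]
  · rw [if_neg (fun h' => h h'.2), if_neg h]

theorem Lj_other (N : Matrix V V (MonoidAlgebra ℂ G)) (m : ℕ) (v : V) (k : Fin (4 * m + 4))
    (e : Et N) (h1 : (k : ℕ) ≠ 0) (h2 : (k : ℕ) ≠ 4 * m + 3) : Lj N m v (k, e) = 0 := by
  change (if (k : ℕ) = 0 ∧ e.1.1 = v then N e.1.1 e.1.2 else
    if (k : ℕ) = 4 * m + 3 ∧ e.1.2 = v then 1 else 0) = _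
  rw [if_neg fun h => h1 h.1, if_neg fun h => h2 h.1]

/-- sums over edges -/
theorem sum_Et (N : Matrix V V (MonoidAlgebra ℂ G)) (v w : V) (x : MonoidAlgebra ℂ G)
    (hx : N v w = 0 → x = 0) :
    ∑ e : Et N, (if e.1.1 = v ∧ e.1.2 = w then x else 0) =
      if (Fintype.equivFin V) v < (Fintype.equivFin V) w then x else 0 := by
  classical
  by_cases h : (Fintype.equivFin V) v < (Fintype.equivFin V) w ∧ N v w ≠ 0
  · rw [if_pos h.1, Finset.sum_eq_single (⟨(v, w), h⟩ : Et N)]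
    · rw [if_pos ⟨rfl, rfl⟩]
    · rintro ⟨⟨a, b⟩, hb⟩ _ hne
      rw [if_neg]
      rintro ⟨h1, h2⟩
      exact hne (Subtype.ext (Prod.ext h1 h2))
    · intro h'
      exact absurd (Finset.mem_univ _) h'
  · have h0 : (if (Fintype.equivFin V) v < (Fintype.equivFin V) w then x else 0) = 0 := by
      by_cases h1 : (Fintype.equivFin V) v < (Fintype.equivFin V) w
      · rw [if_pos h1]
        exact hx (by
          by_contra h2
          exact h ⟨h1, h2⟩)
      · rw [if_neg h1]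
    rw [h0]
    refine Finset.sum_eq_zero ?_
    rintro ⟨⟨a, b⟩, hb⟩ _
    rw [if_neg]
    rintro ⟨h1, h2⟩
    apply h
    rw [← h1, ← h2]
    exact hb

theorem zPW (n : ℕ) (hn : n % 2 = 0) :
    (zc (Pn n) : Matrix (Fin n) (Fin n) (MonoidAlgebra ℂ G)) * zc (Wn n) = 1 :=
  (zc_mul (G := G) (Pn n) (Wn n)).symm.trans (by rw [PW _ hn, zc_one])

theorem zWP (n : ℕ) (hn : n % 2 = 0) :
    (zc (Wn n) : Matrix (Fin n) (Fin n) (MonoidAlgebra ℂ G)) * zc (Pn n) = 1 :=
  (zc_mul (G := G) (Wn n) (Pn n)).symm.trans (by rw [WP _ hn, zc_one])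

/-- the inverse of the block of the paths -/
noncomputable def Wb (N : Matrix V V (MonoidAlgebra ℂ G)) (m : ℕ) :
    Matrix (Fin (4 * m + 4) × Et N) (Fin (4 * m + 4) × Et N) (MonoidAlgebra ℂ G) :=
  blockDiagonal fun _ : Et N => zc (Wn (4 * m + 4))

theorem kap_lng {N : Matrix V V (MonoidAlgebra ℂ G)} (hN : Vm N) (m : ℕ) :
    kap (lng N m) = kap N := by
  have hn : (4 * m + 4) % 2 = 0 := by omega
  have h1 : (blockDiagonal fun _ : Et N => (zc (Pn (4 * m + 4)) :
      Matrix (Fin (4 * m + 4)) (Fin (4 * m + 4)) (MonoidAlgebra ℂ G))) * Wb N m = 1 := by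
    unfold Wb
    rw [← blockDiagonal_mul, zPW _ hn, ← Pi.one_def, blockDiagonal_one]
  have h2 : Wb N m * (blockDiagonal fun _ : Et N => (zc (Pn (4 * m + 4)) :
      Matrix (Fin (4 * m + 4)) (Fin (4 * m + 4)) (MonoidAlgebra ℂ G))) = 1 := by
    unfold Wb
    rw [← blockDiagonal_mul, zWP _ hn, ← Pi.one_def, blockDiagonal_one]
  unfold lng
  rw [kap_schur _ _ _ h1 h2]
  congr 1
  have z00 : (zc (Wn (4 * m + 4)) : Matrix _ _ (MonoidAlgebra ℂ G)) 0 0 = 0 := by
    change ((wN 0 0 : ℤ) : MonoidAlgebra ℂ G) = 0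
    rw [wN_zero, Int.cast_zero]
  have z01 : (zc (Wn (4 * m + 4)) : Matrix _ _ (MonoidAlgebra ℂ G)) 0 (Fin.last (4 * m + 3))
      = -1 := by
    change ((wN 0 (4 * m + 3) : ℤ) : MonoidAlgebra ℂ G) = -1
    rw [wN_end, Int.cast_neg, Int.cast_one]
  have z10 : (zc (Wn (4 * m + 4)) : Matrix _ _ (MonoidAlgebra ℂ G)) (Fin.last (4 * m + 3)) 0
      = -1 := by
    change ((wN (4 * m + 3) 0 : ℤ) : MonoidAlgebra ℂ G) = -1
    rw [wN_end', Int.cast_neg, Int.cast_one]
  have z11 : (zc (Wn (4 * m + 4)) : Matrix _ _ (MonoidAlgebra ℂ G)) (Fin.last (4 * m + 3))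
      (Fin.last (4 * m + 3)) = 0 := by
    change ((wN (4 * m + 3) (4 * m + 3) : ℤ) : MonoidAlgebra ℂ G) = 0
    rw [wN_diag, Int.cast_zero]
  have h3 : ∀ (v : V) (l : Fin (4 * m + 4)) (e : Et N),
      (Lj N m * Wb N m) v (l, e) =
        Lj N m v (0, e) * zc (Wn (4 * m + 4)) 0 l +
        Lj N m v (Fin.last (4 * m + 3), e) * zc (Wn (4 * m + 4)) (Fin.last (4 * m + 3)) l := by
    intro v l e
    rw [Matrix.mul_apply, Fintype.sum_prod_type_right, Finset.sum_eq_single e]
    · rw [sum_ends]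
      · unfold Wb
        simp only [blockDiagonal_apply, if_true]
      · intro k hk1 hk2
        rw [Lj_other N m v k e hk1 hk2, zero_mul]
    · intro e' _ he'
      refine Finset.sum_eq_zero fun k _ => ?_
      unfold Wb
      rw [blockDiagonal_apply, if_neg he', mul_zero]
    · intro h'
      exact absurd (Finset.mem_univ _) h'
  ext1 v w
  rw [Matrix.sub_apply, Matrix.zero_apply, zero_sub, Matrix.mul_apply, Fintype.sum_prod_type_right]
  have h4 : ∀ e : Et N, ∑ l : Fin (4 * m + 4),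
      (Lj N m * Wb N m) v (l, e) *
        sta (Lj N m) (l, e) w = -((if e.1.1 = v ∧ e.1.2 = w then N v w else 0) +
          (if e.1.1 = w ∧ e.1.2 = v then st (N w v) else 0)) := by
    intro e
    rw [sum_ends, h3, h3, z00, z01, z10, z11, mul_zero, mul_zero, zero_add, add_zero]
    · change Lj N m v (Fin.last (4 * m + 3), e) * -1 * st (Lj N m w (0, e)) +
        Lj N m v (0, e) * -1 * st (Lj N m w (Fin.last (4 * m + 3), e)) = _
      rw [Lj_zero, Lj_zero, Lj_last, Lj_last]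
      obtain ⟨⟨a, b⟩, hab⟩ := e
      change (if b = v then (1 : MonoidAlgebra ℂ G) else 0) * -1 * st (if a = w then N a b else 0) +
        (if a = v then N a b else 0) * -1 * st (if b = w then (1 : MonoidAlgebra ℂ G) else 0) =
        -((if a = v ∧ b = w then N v w else 0) + (if a = w ∧ b = v then st (N w v) else 0))
      have e1 : (if b = v then (1 : MonoidAlgebra ℂ G) else 0) * -1 *
          st (if a = w then N a b else 0) = -(if a = w ∧ b = v then st (N w v) else 0) := by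
        by_cases a1 : b = v
        · by_cases a2 : a = w
          · rw [if_pos a1, if_pos a2, if_pos ⟨a2, a1⟩, a1, a2]
            simp
          · rw [if_neg a2, if_neg (show ¬ (a = w ∧ b = v) from fun h => a2 h.1), st_zero, mul_zero,
              neg_zero]
        · rw [if_neg a1, if_neg (show ¬ (a = w ∧ b = v) from fun h => a1 h.2), zero_mul, zero_mul,
            neg_zero]
      have e2 : (if a = v then N a b else 0) * -1 *
          st (if b = w then (1 : MonoidAlgebra ℂ G) else 0) =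
            -(if a = v ∧ b = w then N v w else 0) := by
        by_cases a1 : a = v
        · by_cases a2 : b = w
          · rw [if_pos a1, if_pos a2, if_pos ⟨a1, a2⟩, a1, a2, st_one]
            simp
          · rw [if_neg a2, if_neg (show ¬ (a = v ∧ b = w) from fun h => a2 h.2), st_zero, mul_zero,
              neg_zero]
        · rw [if_neg a1, if_neg (show ¬ (a = v ∧ b = w) from fun h => a1 h.1), zero_mul, zero_mul,
            neg_zero]
      rw [e1, e2]
      abel
    · intro k hk1 hk2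
      have : sta (Lj N m) (k, e) w = 0 := by
        change st (Lj N m w (k, e)) = 0
        rw [Lj_other N m w k e hk1 hk2, st_zero]
      rw [this, mul_zero]
  rw [Finset.sum_congr rfl fun e _ => h4 e, Finset.sum_neg_distrib, neg_neg,
    Finset.sum_add_distrib, sum_Et N v w _ (fun h => h),
    sum_Et N w v _ (fun h => by rw [h, st_zero]), ← hN.symm w v]
  rcases lt_trichotomy ((Fintype.equivFin V) v) ((Fintype.equivFin V) w) with h | h | h
  · rw [if_pos h, if_neg (not_lt.2 h.le), add_zero]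
  · have h' : v = w := (Fintype.equivFin V).injective h
    subst h'
    rw [if_neg (lt_irrefl _), add_zero, hN.irr]
  · rw [if_neg (not_lt.2 h.le), if_pos h, zero_add]

theorem zcP_mo (n : ℕ) (i j : Fin n) : Mo ((zc (Pn n) : Matrix _ _ (MonoidAlgebra ℂ G)) i j) := by
  change Mo (((if (i : ℕ) + 1 = j ∨ (j : ℕ) + 1 = i then 1 else 0 : ℤ) : MonoidAlgebra ℂ G))
  split_ifs
  · rw [Int.cast_one]
    exact Mo.one
  · rw [Int.cast_zero]
    exact Mo.zero

theorem zcP_symm (n : ℕ) (i j : Fin n) : (zc (Pn n) : Matrix _ _ (MonoidAlgebra ℂ G)) j i =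
    st ((zc (Pn n) : Matrix _ _ (MonoidAlgebra ℂ G)) i j) := by
  change ((if (j : ℕ) + 1 = i ∨ (i : ℕ) + 1 = j then 1 else 0 : ℤ) : MonoidAlgebra ℂ G) =
    st (((if (i : ℕ) + 1 = j ∨ (j : ℕ) + 1 = i then 1 else 0 : ℤ) : MonoidAlgebra ℂ G))
  by_cases h : (i : ℕ) + 1 = j ∨ (j : ℕ) + 1 = i
  · rw [if_pos h, if_pos h.symm, Int.cast_one, st_one]
  · rw [if_neg h, if_neg (fun h' => h h'.symm), Int.cast_zero, st_zero]

theorem vm_lng {N : Matrix V V (MonoidAlgebra ℂ G)} (hN : Vm N) (m : ℕ) : Vm (lng N m) := by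
  have hL : ∀ v p, Mo (Lj N m v p) := by
    rintro v ⟨k, e⟩
    change Mo (if (k : ℕ) = 0 ∧ e.1.1 = v then N e.1.1 e.1.2 else
      if (k : ℕ) = 4 * m + 3 ∧ e.1.2 = v then 1 else 0)
    split_ifs
    · exact hN.mo _ _
    · exact Mo.one
    · exact Mo.zero
  refine ⟨?_, ?_, ?_⟩
  · rintro (v | ⟨k, e⟩)
    · rfl
    · change blockDiagonal (fun _ : Et N => zc (Pn (4 * m + 4))) (k, e) (k, e) = 0
      rw [blockDiagonal_apply, if_pos rfl]
      change ((if (k : ℕ) + 1 = k ∨ (k : ℕ) + 1 = k then 1 else 0 : ℤ) : MonoidAlgebra ℂ G) = 0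
      rw [if_neg (by omega), Int.cast_zero]
  · rintro (v | ⟨k, e⟩) (w | ⟨l, e'⟩)
    · exact Mo.zero
    · exact hL v _
    · exact Mo_st (hL w _)
    · change Mo (blockDiagonal (fun _ : Et N => zc (Pn (4 * m + 4))) (k, e) (l, e'))
      rw [blockDiagonal_apply]
      split_ifs
      · exact zcP_mo _ _ _
      · exact Mo.zero
  · refine symm_of_sta ?_
    unfold lng
    rw [sta_fromBlocks, sta_sta, sta_zero]
    congr 1
    ext1 p q
    obtain ⟨k, e⟩ := p
    obtain ⟨l, e'⟩ := q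
    change st (blockDiagonal (fun _ : Et N => zc (Pn (4 * m + 4))) (l, e') (k, e)) = _
    rw [blockDiagonal_apply, blockDiagonal_apply]
    by_cases h : e' = e
    · rw [if_pos h, if_pos h.symm]
      exact (zcP_symm _ _ _).symm
    · rw [if_neg h, if_neg (Ne.symm h), st_zero]

/-- consecutive vertices of the paths -/
theorem lng_path (N : Matrix V V (MonoidAlgebra ℂ G)) (m : ℕ) (e : Et N) (k l : Fin (4 * m + 4))
    (h : (k : ℕ) + 1 = l) : lng N m (Sum.inr (k, e)) (Sum.inr (l, e)) = 1 := by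
  change blockDiagonal (fun _ : Et N => zc (Pn (4 * m + 4))) (k, e) (l, e) = 1
  rw [blockDiagonal_apply, if_pos rfl]
  change ((if (k : ℕ) + 1 = l ∨ (l : ℕ) + 1 = k then 1 else 0 : ℤ) : MonoidAlgebra ℂ G) = 1
  rw [if_pos (Or.inl h), Int.cast_one]

theorem cg_lng {N : Matrix V V (MonoidAlgebra ℂ G)} (hN : Vm N) {T : Subgroup G} (hc : Cg N T)
    (hne : Nonempty V) (m : ℕ) : Cg (lng N m) T := by
  have hvm := vm_lng hN m
  -- along the path
  have h1 : ∀ (e : Et N) (g : G) (d : ℕ) (k : Fin (4 * m + 4)), 4 * m + 3 ≤ (k : ℕ) + d →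
      Jg (lng N m) (Sum.inr (k, e), g) (Sum.inl e.1.2, g) := by
    intro e g d
    induction d with
    | zero =>
      intro k hk
      have hk' : k = Fin.last (4 * m + 3) := Fin.ext (by
        have := k.2
        simp only [Fin.val_last]
        omega)
      refine Jg.one g ?_
      change st (Lj N m e.1.2 (k, e)) = 1
      rw [hk', Lj_last, if_pos rfl, st_one]
    | succ d ih =>
      intro k hk
      by_cases h : 4 * m + 3 ≤ (k : ℕ) + d
      · exact ih k h
      · have hk2 : (k : ℕ) + 1 < 4 * m + 4 := by omega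
        exact (Jg.one g (lng_path N m e k ⟨k + 1, hk2⟩ rfl)).trans
          (ih ⟨k + 1, hk2⟩ (by simp only []; omega))
  have h2 : ∀ (e : Et N) (s g : G), N e.1.1 e.1.2 = MonoidAlgebra.single s 1 →
      Jg (lng N m) (Sum.inl e.1.1, g) (Sum.inl e.1.2, g * s) := by
    intro e s g h
    refine (Jg.of (w := Sum.inr ((0 : Fin (4 * m + 4)), e)) g ?_).trans
      (h1 e _ (4 * m + 3) 0 (by simp))
    change Lj N m e.1.1 (0, e) = _
    rw [Lj_zero, if_pos rfl, h]
  have h5 : ∀ (v w : V) (s g : G), N v w = MonoidAlgebra.single s 1 →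
      Jg (lng N m) (Sum.inl v, g) (Sum.inl w, g * s) := by
    intro v w s g h
    have hne : N v w ≠ 0 := by
      rw [h]
      intro h0
      have := congrArg (fun x => MonoidAlgebra.coeff x s) h0
      simp [MonoidAlgebra.coeff_single] at this
    rcases lt_trichotomy ((Fintype.equivFin V) v) ((Fintype.equivFin V) w) with h' | h' | h'
    · exact h2 ⟨(v, w), h', hne⟩ s g h
    · have h'' : v = w := (Fintype.equivFin V).injective h'
      subst h''
      exact absurd (hN.irr v) hne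
    · have h3 : N w v = MonoidAlgebra.single s⁻¹ 1 := by
        rw [hN.symm v w, h, st_single, map_one]
      have hne' : N w v ≠ 0 := by rw [hN.symm v w]; exact st_ne.2 hne
      have h4 := (h2 ⟨(w, v), h', hne'⟩ s⁻¹ (g * s) h3).symm hvm
      simpa using h4
  have h6 : ∀ p q : V × G, Jg N p q → Jg (lng N m) (Sum.inl p.1, p.2) (Sum.inl q.1, q.2) := by
    intro p q hpq
    unfold Jg at hpq
    induction hpq with
    | refl => exact Jg.refl _
    | tail _ h ih =>
      obtain ⟨s, ha, hb⟩ := h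
      refine ih.trans ?_
      rw [hb]
      exact h5 _ _ s _ ha
  refine cg_of hvm (Sum.inl hne.some) ?_ fun g t ht => h6 _ _ (hc _ _ g t ht)
  rintro (v | ⟨k, e⟩) g
  · exact h6 _ _ (hc.one _ v g)
  · exact (h6 _ _ (hc.one _ e.1.2 g)).trans ((h1 e g (4 * m + 3) k (by omega)).symm hvm)

end Pool.Agent.L0h7.CG
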