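import Pool.Agent.L0h7.CG.Long

set_option autoImplicit false
set_option linter.unusedSectionVars false

/-! Graphs with long edges have small norm. -/

namespace Pool.Agent.L0h7.CG

open Matrix TH57.Thr.Ati Pool.Agent.R719.AT Pool.Agent.R472.Grid

/-- The norm of the graph is at most `c`: the largest eigenvalue of every finite subgraph is at
most `c`. -/
def GNorm {X : Type} (Γ : SimpleGraph X) (c : ℝ) : Prop :=
  ∀ (s : Finset X) (f : X → ℝ),
    ∑ p ∈ s, ∑ᶠ q ∈ (s : Set X) ∩ Γ.neighborSet p, f p * f q ≤ c * ∑ p ∈ s, f p ^ 2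

open Classical in
theorem gnorm_iff {X : Type} (Γ : SimpleGraph X) (c : ℝ) : GNorm Γ c ↔
    ∀ (s : Finset X) (f : X → ℝ),
      ∑ p ∈ s, ∑ q ∈ s, (if Γ.Adj p q then f p * f q else 0) ≤ c * ∑ p ∈ s, f p ^ 2 := by
  unfold GNorm
  refine forall_congr' fun s => forall_congr' fun f => ?_
  have h : ∀ p, ∑ᶠ q ∈ (s : Set X) ∩ Γ.neighborSet p, f p * f q =
      ∑ q ∈ s, (if Γ.Adj p q then f p * f q else 0) := by
    intro p
    have e : (s : Set X) ∩ Γ.neighborSet p = ((s.filter fun q => Γ.Adj p q : Finset X) : Set X) := by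
      ext q
      simp
    rw [e, finsum_mem_coe_finset, Finset.sum_filter]
  rw [Finset.sum_congr rfl fun p _ => h p]

open Classical in
/-- Schur's test -/
theorem schur_test {X : Type} (Γ : SimpleGraph X) (c : ℝ) (F : X → ℝ) (hF : ∀ x, 0 < F x)
    (h : ∀ (s : Finset X) (p : X), ∑ q ∈ s, (if Γ.Adj p q then F q else 0) ≤ c * F p) :
    GNorm Γ c := by
  rw [gnorm_iff]
  intro s f
  have h1 : ∀ p q, (if Γ.Adj p q then f p * f q else 0) ≤
      (1 / 2) * (f p ^ 2 / F p * (if Γ.Adj p q then F q else 0)) +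
      (1 / 2) * (f q ^ 2 / F q * (if Γ.Adj q p then F p else 0)) := by
    intro p q
    by_cases hpq : Γ.Adj p q
    · rw [if_pos hpq, if_pos hpq, if_pos hpq.symm]
      have hp := hF p
      have hq := hF q
      have e : (1 / 2) * (f p ^ 2 / F p * F q) + (1 / 2) * (f q ^ 2 / F q * F p) - f p * f q =
          (f p * F q - f q * F p) ^ 2 / (2 * F p * F q) := by
        field_simp
        ring
      have : 0 ≤ (f p * F q - f q * F p) ^ 2 / (2 * F p * F q) := by positivity
      linarith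
    · rw [if_neg hpq, if_neg hpq, if_neg fun h' => hpq h'.symm]
      simp
  calc ∑ p ∈ s, ∑ q ∈ s, (if Γ.Adj p q then f p * f q else 0)
      ≤ ∑ p ∈ s, ∑ q ∈ s, ((1 / 2) * (f p ^ 2 / F p * (if Γ.Adj p q then F q else 0)) +
      (1 / 2) * (f q ^ 2 / F q * (if Γ.Adj q p then F p else 0))) :=
        Finset.sum_le_sum fun p _ => Finset.sum_le_sum fun q _ => h1 p q
    _ = ∑ p ∈ s, f p ^ 2 / F p * ∑ q ∈ s, (if Γ.Adj p q then F q else 0) := by
        simp only [Finset.sum_add_distrib]
        rw [Finset.sum_comm (f := fun p q => (1 / 2) * (f q ^ 2 / F q *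
          (if Γ.Adj q p then F p else 0)))]
        rw [← Finset.sum_add_distrib]
        refine Finset.sum_congr rfl fun p _ => ?_
        rw [← Finset.sum_add_distrib, Finset.mul_sum]
        refine Finset.sum_congr rfl fun q _ => ?_
        ring
    _ ≤ ∑ p ∈ s, f p ^ 2 / F p * (c * F p) := by
        refine Finset.sum_le_sum fun p _ => mul_le_mul_of_nonneg_left (h s p) ?_
        have := hF p
        positivity
    _ = c * ∑ p ∈ s, f p ^ 2 := by
        rw [Finset.mul_sum]
        refine Finset.sum_congr rfl fun p _ => ?_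
        have := (hF p).ne'
        field_simp

variable {G : Type} [Group G] {V : Type} [Fintype V] [DecidableEq V]

open Classical in
/-- weights on the finite graph -/
theorem gnorm_cover (Q : SimpleGraph V) (γ : V → V → G) (c : ℝ) (F : V → ℝ) (hF : ∀ x, 0 < F x)
    (h : ∀ v, ∑ w ∈ Finset.univ.filter (fun w => Q.Adj v w), F w ≤ c * F v) :
    GNorm (cover Q γ) c := by
  refine schur_test _ c (fun p => F p.1) (fun p => hF _) fun s p => ?_
  refine le_trans ?_ (h p.1)
  rw [← Finset.sum_filter]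
  have hinj : Set.InjOn Prod.fst ((s.filter fun q => (cover Q γ).Adj p q : Finset (V × G)) :
      Set (V × G)) := by
    intro q hq q' hq' he
    have h1 : (cover Q γ).Adj p q := (Finset.mem_filter.1 (Finset.mem_coe.1 hq)).2
    have h2 : (cover Q γ).Adj p q' := (Finset.mem_filter.1 (Finset.mem_coe.1 hq')).2
    refine Prod.ext he ?_
    rw [← h1.2.1, ← h2.2.1, he]
  rw [← Finset.sum_image (f := F) (g := Prod.fst) hinj]
  refine Finset.sum_le_sum_of_subset_of_nonneg ?_ fun w _ _ => (hF w).le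
  intro w hw
  obtain ⟨q, hq, rfl⟩ := Finset.mem_image.1 hw
  exact Finset.mem_filter.2 ⟨Finset.mem_univ _, (Finset.mem_filter.1 hq).2.1⟩

/-- neighbours of a vertex on a path -/
theorem nb_path (N : Matrix V V (MonoidAlgebra ℂ G)) (m : ℕ) (k : Fin (4 * m + 4)) (e : Et N) :
    nb (lng N m) (Sum.inr (k, e)) ⊆
      {(if h : (k : ℕ) = 0 then Sum.inl e.1.1 else Sum.inr (⟨k - 1, by omega⟩, e)),
       (if h : (k : ℕ) = 4 * m + 3 then Sum.inl e.1.2 else Sum.inr (⟨k + 1, by omega⟩, e))} := by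
  rintro (v | ⟨l, e'⟩) hx
  · have h1 : st (Lj N m v (k, e)) ≠ 0 := hx
    rw [st_ne] at h1
    have h2 : (if (k : ℕ) = 0 ∧ e.1.1 = v then N e.1.1 e.1.2 else
      if (k : ℕ) = 4 * m + 3 ∧ e.1.2 = v then 1 else 0) ≠ 0 := h1
    by_cases a1 : (k : ℕ) = 0 ∧ e.1.1 = v
    · left
      rw [dif_pos a1.1, a1.2]
    · rw [if_neg a1] at h2
      by_cases a2 : (k : ℕ) = 4 * m + 3 ∧ e.1.2 = v
      · right
        rw [Set.mem_singleton_iff, dif_pos a2.1, a2.2]
      · rw [if_neg a2] at h2
        exact absurd rfl h2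
  · have h1 : blockDiagonal (fun _ : Et N => (zc (Pn (4 * m + 4)) :
        Matrix _ _ (MonoidAlgebra ℂ G))) (k, e) (l, e') ≠ 0 := hx
    rw [blockDiagonal_apply] at h1
    by_cases he : e = e'
    · subst he
      rw [if_pos rfl, zc_ne] at h1
      have h2 : (if (k : ℕ) + 1 = l ∨ (l : ℕ) + 1 = k then (1 : ℤ) else 0) ≠ 0 := h1
      by_cases h3 : (k : ℕ) + 1 = l ∨ (l : ℕ) + 1 = k
      · rcases h3 with h3 | h3
        · right
          have hl := l.2
          rw [Set.mem_singleton_iff, dif_neg (by omega)]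
          congr 2
          exact Fin.ext h3.symm
        · left
          rw [dif_neg (by omega)]
          congr 2
          exact Fin.ext (by simp only []; omega)
      · rw [if_neg h3] at h2
        exact absurd rfl h2
    · rw [if_neg he] at h1
      exact absurd rfl h1

open Classical in
/-- neighbours of a branch vertex -/
theorem nb_branch {N : Matrix V V (MonoidAlgebra ℂ G)} (hN : Vm N) (m : ℕ) (v : V) :
    (nb (lng N m) (Sum.inl v)).ncard ≤ (nb N v).ncard ∧ ∀ x ∈ nb (lng N m) (Sum.inl v),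
      ∃ k e, x = Sum.inr (k, e) ∧ ((k : ℕ) = 0 ∨ (k : ℕ) = 4 * m + 3) := by
  have key : ∀ x ∈ nb (lng N m) (Sum.inl v), ∃ k e, x = Sum.inr (k, e) ∧
      (((k : ℕ) = 0 ∧ e.1.1 = v) ∨ ((k : ℕ) = 4 * m + 3 ∧ e.1.2 = v)) := by
    rintro (w | ⟨k, e⟩) hx
    · exact absurd rfl hx
    · have h2 : (if (k : ℕ) = 0 ∧ e.1.1 = v then N e.1.1 e.1.2 else
        if (k : ℕ) = 4 * m + 3 ∧ e.1.2 = v then 1 else 0) ≠ 0 := hx
      refine ⟨k, e, rfl, ?_⟩
      by_cases a1 : (k : ℕ) = 0 ∧ e.1.1 = v
      · exact Or.inl a1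
      · rw [if_neg a1] at h2
        by_cases a2 : (k : ℕ) = 4 * m + 3 ∧ e.1.2 = v
        · exact Or.inr a2
        · rw [if_neg a2] at h2
          exact absurd rfl h2
  refine ⟨?_, fun x hx => ?_⟩
  · let φ : V ⊕ (Fin (4 * m + 4) × Et N) → V :=
      Sum.elim id fun p => if p.2.1.1 = v then p.2.1.2 else p.2.1.1
    refine Set.ncard_le_ncard_of_injOn φ ?_ ?_ (Set.toFinite _)
    · intro x hx
      obtain ⟨k, e, rfl, h | h⟩ := key x hx
      · have e1 : φ (Sum.inr (k, e)) = e.1.2 := if_pos h.2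
        rw [e1]
        have := e.2.2
        rw [h.2] at this
        exact this
      · have hne : e.1.1 ≠ v := by
          intro h'
          have := e.2.1
          rw [h', h.2] at this
          exact lt_irrefl _ this
        have e1 : φ (Sum.inr (k, e)) = e.1.1 := if_neg hne
        rw [e1]
        have := e.2.2
        rw [h.2] at this
        change N v e.1.1 ≠ 0
        rw [hN.symm e.1.1 v]
        exact st_ne.2 this
    · intro x hx y hy hxy
      obtain ⟨k, e, rfl, h⟩ := key x hx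
      obtain ⟨l, e', rfl, h'⟩ := key y hy
      have hlt := e.2.1
      have hlt' := e'.2.1
      have hφ : ∀ (k : Fin (4 * m + 4)) (e : Et N), φ (Sum.inr (k, e)) =
        if e.1.1 = v then e.1.2 else e.1.1 := fun k e => rfl
      rw [hφ, hφ] at hxy
      rcases h with h | h <;> rcases h' with h' | h'
      · rw [if_pos h.2, if_pos h'.2] at hxy
        have h3 : e = e' := Subtype.ext (Prod.ext (h.2.trans h'.2.symm) hxy)
        have h4 : k = l := Fin.ext (h.1.trans h'.1.symm)
        rw [h3, h4]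
      · rw [if_pos h.2, if_neg] at hxy
        · rw [h.2, hxy] at hlt
          rw [h'.2] at hlt'
          exact absurd (hlt.trans hlt') (lt_irrefl _)
        · intro h3
          rw [h3, h'.2] at hlt'
          exact lt_irrefl _ hlt'
      · rw [if_pos h'.2, if_neg] at hxy
        · rw [h'.2, ← hxy] at hlt'
          rw [h.2] at hlt
          exact absurd (hlt.trans hlt') (lt_irrefl _)
        · intro h3
          rw [h3, h.2] at hlt
          exact lt_irrefl _ hlt
      · have a1 : e.1.1 ≠ v := by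
          intro h3
          rw [h3, h.2] at hlt
          exact lt_irrefl _ hlt
        have a2 : e'.1.1 ≠ v := by
          intro h3
          rw [h3, h'.2] at hlt'
          exact lt_irrefl _ hlt'
        rw [if_neg a1, if_neg a2] at hxy
        have h3 : e = e' := Subtype.ext (Prod.ext hxy (h.2.trans h'.2.symm))
        have h4 : k = l := Fin.ext (h.1.trans h'.1.symm)
        rw [h3, h4]
  · obtain ⟨k, e, h1, h2⟩ := key x hx
    exact ⟨k, e, h1, h2.imp And.left And.left⟩

/-- the weight function on a path -/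
noncomputable def gw (s : ℝ) (l j : ℕ) : ℝ := (s ^ j + s ^ (l - j)) / (1 + s ^ l)

theorem gw_rec {s : ℝ} (h2 : s ^ 2 = 1 / 2) (l j : ℕ) (hj : j + 2 ≤ l) :
    gw s l j + gw s l (j + 2) = 3 * s * gw s l (j + 1) := by
  unfold gw
  obtain ⟨q, rfl⟩ := Nat.exists_eq_add_of_le hj
  have e1 : j + 2 + q - j = q + 2 := by omega
  have e2 : j + 2 + q - (j + 2) = q := by omega
  have e3 : j + 2 + q - (j + 1) = q + 1 := by omega
  rw [e1, e2, e3, ← add_div, ← mul_div_assoc]
  congr 1
  have h3 : s ^ (q + 2) = s ^ q * (1 / 2) := by rw [pow_add, h2]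
  have h4 : s ^ (j + 2) = s ^ j * (1 / 2) := by rw [pow_add, h2]
  have h5 : 3 * s * (s ^ (j + 1) + s ^ (q + 1)) = 3 * (s ^ 2) * (s ^ j + s ^ q) := by ring
  rw [h3, h4, h5, h2]
  ring

theorem gw_zero {s : ℝ} (hs : 0 < s) (l : ℕ) : gw s l 0 = 1 := by
  unfold gw
  rw [pow_zero, Nat.sub_zero, div_self (by positivity)]

theorem gw_end {s : ℝ} (hs : 0 < s) (l : ℕ) : gw s l l = 1 := by
  unfold gw
  rw [Nat.sub_self, pow_zero, add_comm, div_self (by positivity)]

theorem gw_pos {s : ℝ} (hs : 0 < s) (l j : ℕ) : 0 < gw s l j := by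
  unfold gw
  positivity

theorem gw_one {s : ℝ} (hs : 0 < s) (l : ℕ) (hl : 1 ≤ l) : gw s l 1 ≤ s + s ^ (l - 1) := by
  unfold gw
  rw [pow_one]
  refine div_le_self (by positivity) ?_
  have : 0 < s ^ l := by positivity
  linarith

theorem gw_symm {s : ℝ} (l j : ℕ) (hj : j ≤ l) : gw s l (l - j) = gw s l j := by
  unfold gw
  rw [Nat.sub_sub_self hj, add_comm]

open Classical in
/-- weights with small Schur constant -/
theorem weights {N : Matrix V V (MonoidAlgebra ℂ G)} (hN : Vm N)
    (hd : ∀ v, (nb N v).ncard ≤ 3) (c : ℝ) (hc0 : 0 < c) (hc : 9 / 2 < c ^ 2) :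
    ∃ (m : ℕ) (F : V ⊕ (Fin (4 * m + 4) × Et N) → ℝ), (∀ x, 0 < F x) ∧
      ∀ x, ∑ y ∈ Finset.univ.filter (fun y => lng N m x y ≠ 0), F y ≤ c * F x := by
  set s : ℝ := (Real.sqrt 2)⁻¹ with hs
  have hr : (0 : ℝ) < Real.sqrt 2 := Real.sqrt_pos.2 two_pos
  have hs0 : 0 < s := inv_pos.2 hr
  have hs2 : s ^ 2 = 1 / 2 := by
    rw [hs, inv_pow, Real.sq_sqrt two_pos.le]
    norm_num
  have hs1 : s < 1 := by nlinarith
  have h3 : 3 * s < c := by
    have : (3 * s) ^ 2 < c ^ 2 := by rw [mul_pow, hs2]; linarith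
    exact lt_of_pow_lt_pow_left₀ 2 hc0.le this
  obtain ⟨m, hm⟩ := exists_pow_lt_of_lt_one (show 0 < (c - 3 * s) / 3 by linarith) hs1
  have hm' : s ^ (4 * m + 4) ≤ s ^ m := pow_le_pow_of_le_one hs0.le hs1.le (by omega)
  set l := 4 * m + 5 with hl
  have hg1 : 3 * gw s l 1 ≤ c := by
    have := gw_one hs0 l (by omega)
    have e : l - 1 = 4 * m + 4 := by omega
    rw [e] at this
    linarith
  refine ⟨m, Sum.elim (fun _ => 1) (fun p => gw s l (p.1 + 1)), ?_, ?_⟩
  · rintro (v | ⟨k, e⟩)
    · exact one_pos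
    · exact gw_pos hs0 _ _
  · rintro (v | ⟨k, e⟩)
    · obtain ⟨b1, b2⟩ := nb_branch hN m v
      have h4 : ∀ y ∈ Finset.univ.filter (fun y => lng N m (Sum.inl v) y ≠ 0),
          (Sum.elim (fun _ => (1 : ℝ)) (fun p => gw s l (p.1 + 1)) :
            V ⊕ (Fin (4 * m + 4) × Et N) → ℝ) y = gw s l 1 := by
        intro y hy
        obtain ⟨k, e, rfl, hk | hk⟩ := b2 y (Finset.mem_filter.1 hy).2
        · change gw s l ((k : ℕ) + 1) = _
          rw [hk]
        · change gw s l ((k : ℕ) + 1) = _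
          rw [hk, ← gw_symm l 1 (by omega)]
          congr 1
      rw [Finset.sum_congr rfl h4, Finset.sum_const, nsmul_eq_mul]
      have h5 : (Finset.univ.filter (fun y => lng N m (Sum.inl v) y ≠ 0)).card ≤ 3 := by
        have e : ((Finset.univ.filter (fun y => lng N m (Sum.inl v) y ≠ 0) : Finset _) : Set _) =
            nb (lng N m) (Sum.inl v) := by
          ext y
          simp [nb]
        rw [← Set.ncard_coe_finset, e]
        exact b1.trans (hd v)
      have h6 : ((Finset.univ.filter (fun y => lng N m (Sum.inl v) y ≠ 0)).card : ℝ) ≤ 3 := by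
        exact_mod_cast h5
      have h7 := gw_pos hs0 l 1
      calc _ ≤ 3 * gw s l 1 := mul_le_mul_of_nonneg_right h6 h7.le
        _ ≤ c := hg1
        _ = c * 1 := (mul_one c).symm
    · set y₁ : V ⊕ (Fin (4 * m + 4) × Et N) :=
        (if h : (k : ℕ) = 0 then Sum.inl e.1.1 else Sum.inr (⟨k - 1, by omega⟩, e)) with hy₁
      set y₂ : V ⊕ (Fin (4 * m + 4) × Et N) :=
        (if h : (k : ℕ) = 4 * m + 3 then Sum.inl e.1.2 else Sum.inr (⟨k + 1, by omega⟩, e)) with hy₂
      set F : V ⊕ (Fin (4 * m + 4) × Et N) → ℝ :=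
        Sum.elim (fun _ => (1 : ℝ)) (fun p => gw s l (p.1 + 1)) with hF
      have hFp : ∀ x, 0 < F x := by
        rintro (v | ⟨k, e⟩)
        · exact one_pos
        · exact gw_pos hs0 _ _
      have h4 : Finset.univ.filter (fun y => lng N m (Sum.inr (k, e)) y ≠ 0) ⊆ {y₁, y₂} := by
        intro y hy
        have := nb_path N m k e (Finset.mem_filter.1 hy).2
        rw [Finset.mem_insert, Finset.mem_singleton]
        exact this
      have h5 : F y₁ = gw s l k := by
        rw [hy₁]
        by_cases h : (k : ℕ) = 0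
        · rw [dif_pos h, h, gw_zero hs0]
          rfl
        · rw [dif_neg h]
          change gw s l ((k : ℕ) - 1 + 1) = _
          congr 1
          omega
      have h6 : F y₂ = gw s l (k + 2) := by
        rw [hy₂]
        by_cases h : (k : ℕ) = 4 * m + 3
        · rw [dif_pos h, h, show 4 * m + 3 + 2 = l by omega, gw_end hs0]
          rfl
        · rw [dif_neg h]
          rfl
      calc ∑ y ∈ Finset.univ.filter (fun y => lng N m (Sum.inr (k, e)) y ≠ 0), F y
          ≤ ∑ y ∈ ({y₁, y₂} : Finset _), F y :=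
            Finset.sum_le_sum_of_subset_of_nonneg h4 fun y _ _ => (hFp y).le
        _ ≤ F y₁ + F y₂ := by
            by_cases h : y₁ = y₂
            · rw [h, Finset.pair_eq_singleton, Finset.sum_singleton]
              have := hFp y₂
              linarith
            · rw [Finset.sum_pair h]
        _ = 3 * s * gw s l (k + 1) := by
            rw [h5, h6]
            exact gw_rec hs2 l k (by have := k.2; omega)
        _ ≤ c * gw s l (k + 1) := mul_le_mul_of_nonneg_right h3.le (gw_pos hs0 _ _).le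

theorem nb_lng {N : Matrix V V (MonoidAlgebra ℂ G)} (hN : Vm N) (m : ℕ)
    (hd : ∀ v, (nb N v).ncard ≤ 3) (x : V ⊕ (Fin (4 * m + 4) × Et N)) :
    (nb (lng N m) x).ncard ≤ 3 := by
  rcases x with v | ⟨k, e⟩
  · exact (nb_branch hN m v).1.trans (hd v)
  · exact (ncard_two (nb_path N m k e)).trans (by norm_num)

end Pool.Agent.L0h7.CG
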