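import Pool.Agent.L0h7.CG.Sign

set_option autoImplicit false
set_option linter.unusedSectionVars false

/-! Making voltage matrices cubic. -/

namespace Pool.Agent.L0h7.CG

open Matrix TH57.Thr.Ati Pool.Agent.R719.AT Pool.Agent.R472.Grid

/-- a graph with 13 vertices: the vertex 0 has degree two, the others have degree three -/
def Zm : Matrix (Fin 13) (Fin 13) ℤ :=
  !![0, 0, 0, 0, 1, 0, 0, 0, 0, 0, 0, 0, 1;
    0, 0, 0, 0, 1, 0, 0, 0, 0, 1, 1, 0, 0;
    0, 0, 0, 0, 0, 1, 1, 1, 0, 0, 0, 0, 0;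
    0, 0, 0, 0, 0, 0, 1, 0, 0, 1, 0, 0, 1;
    1, 1, 0, 0, 0, 0, 0, 0, 0, 0, 0, 1, 0;
    0, 0, 1, 0, 0, 0, 0, 0, 1, 0, 1, 0, 0;
    0, 0, 1, 1, 0, 0, 0, 1, 0, 0, 0, 0, 0;
    0, 0, 1, 0, 0, 0, 1, 0, 0, 0, 0, 1, 0;
    0, 0, 0, 0, 0, 1, 0, 0, 0, 0, 1, 0, 1;
    0, 1, 0, 1, 0, 0, 0, 0, 0, 0, 0, 1, 0;
    0, 1, 0, 0, 0, 1, 0, 0, 1, 0, 0, 0, 0;
    0, 0, 0, 0, 1, 0, 0, 1, 0, 1, 0, 0, 0;
    1, 0, 0, 1, 0, 0, 0, 0, 1, 0, 0, 0, 0]

/-- 18 times the inverse matrix -/
def Wm : Matrix (Fin 13) (Fin 13) ℤ :=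
  !![0, 6, 0, 0, 12, -6, 6, 0, 0, -12, 0, -6, 6;
    6, 8, 6, 6, 10, 4, 8, -12, -12, 2, 6, -14, -10;
    0, 6, -9, 0, 3, -6, 15, 9, 0, -12, 9, -6, -3;
    0, 6, 0, 0, -6, -6, 6, 0, 0, 6, 0, -6, 6;
    12, 10, 3, -6, -1, -4, 1, 3, -6, -2, 3, -4, 1;
    -6, 4, -6, -6, -4, -16, 4, 12, 12, -8, 12, 2, 4;
    6, 8, 15, 6, 1, 4, -1, -3, -12, 2, -3, -14, -1;
    0, -12, 9, 0, 3, 12, -3, -9, 0, 6, -9, 12, -3;
    0, -12, 0, 0, -6, 12, -12, 0, 0, 6, 0, 12, 6;
    -12, 2, -12, 6, -2, -8, 2, 6, 6, -4, 6, 10, 2;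
    0, 6, 9, 0, 3, 12, -3, -9, 0, 6, -9, -6, -3;
    -6, -14, -6, -6, -4, 2, -14, 12, 12, 10, -6, 20, 4;
    6, -10, -3, 6, 1, 4, -1, -3, 6, 2, -3, 4, -1]

theorem ZW : Zm * Wm = Matrix.diagonal fun _ => 18 := by decide +kernel

theorem WZ : Wm * Zm = Matrix.diagonal fun _ => 18 := by decide +kernel

theorem Z_irr : ∀ i, Zm i i = 0 := by decide +kernel

theorem Z_symm' : ∀ p : Fin 13 × Fin 13, Zm p.2 p.1 = Zm p.1 p.2 := by decide +kernel

theorem Z_symm (i j : Fin 13) : Zm j i = Zm i j := Z_symm' (i, j)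

theorem Z_mo' : ∀ p : Fin 13 × Fin 13, Zm p.1 p.2 = 0 ∨ Zm p.1 p.2 = 1 := by decide +kernel

theorem Z_mo (i j : Fin 13) : Zm i j = 0 ∨ Zm i j = 1 := Z_mo' (i, j)

theorem W_zero : Wm 0 0 = 0 := by decide +kernel

theorem Z_deg : ∀ i, (Finset.univ.filter fun j => Zm i j ≠ 0).card = if i = 0 then 2 else 3 := by
  decide +kernel

variable {G : Type} [Group G] {V : Type} [Fintype V] [DecidableEq V]

/-- integer matrices as matrices over the group ring -/
noncomputable def zc {K L : Type} (A : Matrix K L ℤ) : Matrix K L (MonoidAlgebra ℂ G) :=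
  A.map (Int.castRingHom (MonoidAlgebra ℂ G))

theorem zc_mul {K L M : Type} [Fintype L] (A : Matrix K L ℤ) (B : Matrix L M ℤ) :
    (zc (A * B) : Matrix K M (MonoidAlgebra ℂ G)) = zc A * zc B := by
  unfold zc
  exact Matrix.map_mul

theorem ZW' : (zc Zm : Matrix (Fin 13) (Fin 13) (MonoidAlgebra ℂ G)) * ((18 : ℂ)⁻¹ • zc Wm) = 1 := by
  have e : (zc Zm : Matrix (Fin 13) (Fin 13) (MonoidAlgebra ℂ G)) * ((18 : ℂ)⁻¹ • zc Wm)
      = (18 : ℂ)⁻¹ • zc (Zm * Wm) := by
    rw [Matrix.mul_smul]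
    exact congrArg _ (zc_mul (G := G) Zm Wm).symm
  rw [e, ZW]
  ext1 i j
  rw [Matrix.smul_apply]
  unfold zc
  rw [Matrix.map_apply]
  by_cases h : i = j
  · rw [h, Matrix.diagonal_apply_eq, Matrix.one_apply_eq]
    have : (Int.castRingHom (MonoidAlgebra ℂ G)) 18 = (18 : ℂ) • (1 : MonoidAlgebra ℂ G) := by
      rw [map_ofNat, ← Algebra.algebraMap_eq_smul_one, map_ofNat]
    rw [this, smul_smul, inv_mul_cancel₀ (by norm_num), one_smul]
  · rw [Matrix.diagonal_apply_ne _ h, Matrix.one_apply_ne h, map_zero, smul_zero]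

theorem WZ' : ((18 : ℂ)⁻¹ • zc Wm) * (zc Zm : Matrix (Fin 13) (Fin 13) (MonoidAlgebra ℂ G)) = 1 := by
  have e : ((18 : ℂ)⁻¹ • zc Wm) * (zc Zm : Matrix (Fin 13) (Fin 13) (MonoidAlgebra ℂ G))
      = (18 : ℂ)⁻¹ • zc (Wm * Zm) := by
    rw [Matrix.smul_mul]
    exact congrArg _ (zc_mul (G := G) Wm Zm).symm
  rw [e, WZ]
  ext1 i j
  rw [Matrix.smul_apply]
  unfold zc
  rw [Matrix.map_apply]
  by_cases h : i = j
  · rw [h, Matrix.diagonal_apply_eq, Matrix.one_apply_eq]
    have : (Int.castRingHom (MonoidAlgebra ℂ G)) 18 = (18 : ℂ) • (1 : MonoidAlgebra ℂ G) := by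
      rw [map_ofNat, ← Algebra.algebraMap_eq_smul_one, map_ofNat]
    rw [this, smul_smul, inv_mul_cancel₀ (by norm_num), one_smul]
  · rw [Matrix.diagonal_apply_ne _ h, Matrix.one_apply_ne h, map_zero, smul_zero]

/-- the places for the new graphs -/
abbrev Pl (N : Matrix V V (MonoidAlgebra ℂ G)) : Type := Σ v : V, Fin (3 - (nb N v).ncard)

/-- the new edges -/
noncomputable def Jm (N : Matrix V V (MonoidAlgebra ℂ G)) :
    Matrix V (Fin 13 × Pl N) (MonoidAlgebra ℂ G) :=
  Matrix.of fun v p => if p.1 = 0 ∧ p.2.1 = v then 1 else 0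

/-- the cubic voltage matrix -/
noncomputable def cub (N : Matrix V V (MonoidAlgebra ℂ G)) :
    Matrix (V ⊕ (Fin 13 × Pl N)) (V ⊕ (Fin 13 × Pl N)) (MonoidAlgebra ℂ G) :=
  fromBlocks N (Jm N) (sta (Jm N)) (blockDiagonal fun _ : Pl N => zc Zm)

theorem kap_cub (N : Matrix V V (MonoidAlgebra ℂ G)) : kap (cub N) = kap N := by
  have h1 : (blockDiagonal fun _ : Pl N => (zc Zm : Matrix (Fin 13) (Fin 13) (MonoidAlgebra ℂ G))) *
      (blockDiagonal fun _ : Pl N => ((18 : ℂ)⁻¹ • zc Wm)) = 1 := by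
    rw [← blockDiagonal_mul, ZW', ← Pi.one_def, blockDiagonal_one]
  have h2 : (blockDiagonal fun _ : Pl N => ((18 : ℂ)⁻¹ • zc Wm)) *
      (blockDiagonal fun _ : Pl N => (zc Zm : Matrix (Fin 13) (Fin 13) (MonoidAlgebra ℂ G))) = 1 := by
    rw [← blockDiagonal_mul, WZ', ← Pi.one_def, blockDiagonal_one]
  unfold cub
  rw [kap_schur _ _ _ h1 h2]
  have h3 : Jm N * (blockDiagonal fun _ : Pl N => ((18 : ℂ)⁻¹ •
      (zc Wm : Matrix (Fin 13) (Fin 13) (MonoidAlgebra ℂ G)))) * sta (Jm N) = 0 := by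
    ext1 v w
    rw [Matrix.mul_apply]
    refine Finset.sum_eq_zero fun p _ => ?_
    by_cases hp : p.1 = 0
    · rw [Matrix.mul_apply, Finset.sum_eq_zero, zero_mul]
      rintro q _
      by_cases hq : q.1 = 0
      · rw [blockDiagonal_apply, hp, hq]
        have : ((18 : ℂ)⁻¹ • zc Wm : Matrix (Fin 13) (Fin 13) (MonoidAlgebra ℂ G)) 0 0 = 0 := by
          rw [Matrix.smul_apply]
          unfold zc
          rw [Matrix.map_apply, W_zero, map_zero, smul_zero]
        rw [this, ite_self, mul_zero]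
      · have : Jm N v q = 0 := if_neg fun h => hq h.1
        rw [this, zero_mul]
    · have : sta (Jm N) p w = 0 := by
        change st (if p.1 = 0 ∧ p.2.1 = w then 1 else 0) = 0
        rw [if_neg fun h => hp h.1, st_zero]
      rw [this, mul_zero]
  rw [h3, sub_zero]

theorem zc_ne {K L : Type} (A : Matrix K L ℤ) (i : K) (j : L) :
    (zc A : Matrix K L (MonoidAlgebra ℂ G)) i j ≠ 0 ↔ A i j ≠ 0 := by
  unfold zc
  rw [Matrix.map_apply, ne_eq, ne_eq, not_iff_not, eq_intCast]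
  have h1 : ((A i j : ℤ) : MonoidAlgebra ℂ G) = algebraMap ℂ (MonoidAlgebra ℂ G) ((A i j : ℤ) : ℂ) := by
    simp
  rw [h1, map_eq_zero_iff _ (FaithfulSMul.algebraMap_injective ℂ (MonoidAlgebra ℂ G)),
    Int.cast_eq_zero]

theorem one_ne_zero' : (1 : MonoidAlgebra ℂ G) ≠ 0 := one_ne_zero

theorem vm_cub (N : Matrix V V (MonoidAlgebra ℂ G)) (hN : Vm N) : Vm (cub N) := by
  refine ⟨?_, ?_, ?_⟩
  · rintro (v | ⟨k, y⟩)
    · exact hN.irr v
    · change blockDiagonal (fun _ : Pl N => zc Zm) (k, y) (k, y) = 0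
      rw [blockDiagonal_apply, if_pos rfl]
      unfold zc
      rw [Matrix.map_apply, Z_irr, map_zero]
  · rintro (v | ⟨k, y⟩) (w | ⟨l, z⟩)
    · exact hN.mo v w
    · change Mo (if l = 0 ∧ z.1 = v then 1 else 0)
      split_ifs
      · exact Mo.one
      · exact Mo.zero
    · change Mo (st (if k = 0 ∧ y.1 = w then 1 else 0))
      refine Mo_st ?_
      split_ifs
      · exact Mo.one
      · exact Mo.zero
    · change Mo (blockDiagonal (fun _ : Pl N => zc Zm) (k, y) (l, z))
      rw [blockDiagonal_apply]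
      split_ifs
      · unfold zc
        rw [Matrix.map_apply]
        rcases Z_mo k l with h | h
        · rw [h, map_zero]
          exact Mo.zero
        · rw [h, map_one]
          exact Mo.one
      · exact Mo.zero
  · refine symm_of_sta ?_
    unfold cub
    rw [sta_fromBlocks, sta_sta, vm_sta hN]
    congr 1
    ext1 p q
    obtain ⟨k, y⟩ := p
    obtain ⟨l, z⟩ := q
    change st (blockDiagonal (fun _ : Pl N => zc Zm) (l, z) (k, y)) = _
    rw [blockDiagonal_apply, blockDiagonal_apply]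
    by_cases h : z = y
    · rw [if_pos h, if_pos h.symm]
      unfold zc
      rw [Matrix.map_apply, Matrix.map_apply, Z_symm]
      rcases Z_mo k l with h | h
      · rw [h, map_zero, st_zero]
      · rw [h, map_one, st_one]
    · rw [if_neg h, if_neg (Ne.symm h), st_zero]

theorem nb_cub (N : Matrix V V (MonoidAlgebra ℂ G)) (h : ∀ v, (nb N v).ncard ≤ 3)
    (x : V ⊕ (Fin 13 × Pl N)) : (nb (cub N) x).ncard = 3 := by
  rcases x with v | ⟨k, y⟩
  · have e : nb (cub N) (Sum.inl v) = (Sum.inl '' nb N v) ∪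
        ((fun c : Fin (3 - (nb N v).ncard) =>
          (Sum.inr ((0 : Fin 13), (⟨v, c⟩ : Pl N)) : V ⊕ (Fin 13 × Pl N))) '' Set.univ) := by
      ext x
      rcases x with w | ⟨l, z⟩
      · constructor
        · intro hw
          exact Or.inl ⟨w, hw, rfl⟩
        · rintro (⟨w', hw', h'⟩ | ⟨c, _, h'⟩)
          · rw [← Sum.inl.inj h']
            exact hw'
          · exact absurd h' (by simp)
      · constructor
        · intro hw
          have h1 : (if l = 0 ∧ z.1 = v then (1 : MonoidAlgebra ℂ G) else 0) ≠ 0 := hw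
          by_cases h2 : l = 0 ∧ z.1 = v
          · obtain ⟨rfl, h3⟩ := h2
            obtain ⟨v', c⟩ := z
            subst h3
            exact Or.inr ⟨c, trivial, rfl⟩
          · rw [if_neg h2] at h1
            exact absurd rfl h1
        · rintro (⟨w', hw', h'⟩ | ⟨c, _, h'⟩)
          · exact absurd h' (by simp)
          · have h3 := Sum.inr.inj h'
            have h4 : (0 : Fin 13) = l := congrArg Prod.fst h3
            have h5 : (⟨v, c⟩ : Pl N) = z := congrArg Prod.snd h3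
            change (if l = 0 ∧ z.1 = v then (1 : MonoidAlgebra ℂ G) else 0) ≠ 0
            rw [if_pos ⟨h4.symm, by rw [← h5]⟩]
            exact one_ne_zero'
    rw [e, Set.ncard_union_eq, Set.ncard_image_of_injective _ Sum.inl_injective,
      Set.ncard_image_of_injective, Set.ncard_univ, Nat.card_fin]
    · have := h v
      omega
    · intro c c' hc
      have h3 := Sum.inr.inj hc
      have h5 : (⟨v, c⟩ : Pl N) = ⟨v, c'⟩ := congrArg Prod.snd h3
      simpa using h5
    · rw [Set.disjoint_left]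
      rintro _ ⟨w, _, rfl⟩ ⟨c, _, h'⟩
      exact absurd h' (by simp)
  · have e : nb (cub N) (Sum.inr (k, y)) = (if k = 0 then {Sum.inl y.1} else ∅) ∪
        ((fun l : Fin 13 => (Sum.inr (l, y) : V ⊕ (Fin 13 × Pl N))) ''
          ((Finset.univ.filter fun l => Zm k l ≠ 0 : Finset (Fin 13)) : Set (Fin 13))) := by
      ext x
      rcases x with w | ⟨l, z⟩
      · constructor
        · intro hw
          have h1 : st (if k = 0 ∧ y.1 = w then (1 : MonoidAlgebra ℂ G) else 0) ≠ 0 := hw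
          rw [st_ne] at h1
          by_cases h2 : k = 0 ∧ y.1 = w
          · left
            rw [if_pos h2.1, h2.2]
            rfl
          · rw [if_neg h2] at h1
            exact absurd rfl h1
        · rintro (h' | ⟨c, _, h'⟩)
          · by_cases hk : k = 0
            · rw [if_pos hk] at h'
              change st (if k = 0 ∧ y.1 = w then (1 : MonoidAlgebra ℂ G) else 0) ≠ 0
              rw [st_ne, if_pos ⟨hk, (Sum.inl.inj h').symm⟩]
              exact one_ne_zero'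
            · rw [if_neg hk] at h'
              exact absurd h' (Set.notMem_empty _)
          · exact absurd h' (by simp)
      · constructor
        · intro hw
          have h1 : blockDiagonal (fun _ : Pl N => (zc Zm : Matrix (Fin 13) (Fin 13)
            (MonoidAlgebra ℂ G))) (k, y) (l, z) ≠ 0 := hw
          rw [blockDiagonal_apply] at h1
          by_cases h2 : y = z
          · rw [if_pos h2, zc_ne] at h1
            exact Or.inr ⟨l, by simpa using h1, by rw [h2]⟩
          · rw [if_neg h2] at h1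
            exact absurd rfl h1
        · rintro (h' | ⟨c, hc, h'⟩)
          · by_cases hk : k = 0
            · rw [if_pos hk] at h'
              exact absurd h' (by simp)
            · rw [if_neg hk] at h'
              exact absurd h' (Set.notMem_empty _)
          · have h3 := Sum.inr.inj h'
            have h4 : c = l := congrArg Prod.fst h3
            have h5 : y = z := congrArg Prod.snd h3
            change blockDiagonal (fun _ : Pl N => (zc Zm : Matrix (Fin 13) (Fin 13)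
              (MonoidAlgebra ℂ G))) (k, y) (l, z) ≠ 0
            rw [blockDiagonal_apply, if_pos h5, zc_ne, ← h4]
            simpa using hc
    rw [e, Set.ncard_union_eq, Set.ncard_image_of_injective, Set.ncard_coe_finset, Z_deg]
    · by_cases hk : k = 0
      · rw [if_pos hk, if_pos hk, Set.ncard_singleton]
      · rw [if_neg hk, if_neg hk, Set.ncard_empty]
    · intro l l' hl
      exact congrArg Prod.fst (Sum.inr.inj hl)
    · rw [Set.disjoint_left]
      rintro x hx ⟨c, _, h'⟩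
      by_cases hk : k = 0
      · rw [if_pos hk] at hx
        rw [hx] at h'
        exact absurd h' (by simp)
      · rw [if_neg hk] at hx
        exact absurd hx (Set.notMem_empty _)

/-- every kernel dimension of a matrix with entries `0`, `± g` is that of a cubic one -/
theorem exists_cubic (B : Matrix V V (MonoidAlgebra ℂ G)) (hB : Sg B) :
    ∃ (V' : Type) (_ : Fintype V') (_ : DecidableEq V') (N : Matrix V' V' (MonoidAlgebra ℂ G)),
      Vm N ∧ (∀ v, (nb N v).ncard = 3) ∧ kap N = kap B := by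
  obtain ⟨N₁, h1, k1⟩ := exists_volt B hB
  obtain ⟨V', i1, i2, N₂, h2, d2, k2⟩ := exists_three N₁ h1
  exact ⟨V' ⊕ (Fin 13 × Pl N₂), inferInstance, inferInstance, cub N₂, vm_cub N₂ h2,
    nb_cub N₂ d2, by rw [kap_cub, k2, k1]⟩

end Pool.Agent.L0h7.CG
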