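import Pool.Agent.L0h7.CG.Track

set_option autoImplicit false
set_option linter.unusedSectionVars false

/-! The adjacency matrix of a path with an even number of vertices and its inverse. -/

namespace Pool.Agent.L0h7.CG

open Matrix

/-- the adjacency matrix of a path -/
def Pn (n : ℕ) : Matrix (Fin n) (Fin n) ℤ :=
  Matrix.of fun i j => if (i : ℕ) + 1 = j ∨ (j : ℕ) + 1 = i then 1 else 0

/-- the entries of the inverse -/
def wN (i j : ℕ) : ℤ :=
  if i < j then (if i % 2 = 0 ∧ j % 2 = 1 then (-1) ^ ((j - i - 1) / 2) else 0)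
  else (if j % 2 = 0 ∧ i % 2 = 1 then (-1) ^ ((i - j - 1) / 2) else 0)

theorem wN_symm (i j : ℕ) : wN i j = wN j i := by
  unfold wN
  rcases lt_trichotomy i j with h | h | h
  · rw [if_pos h, if_neg (not_lt.2 h.le)]
  · rw [h]
  · rw [if_neg (not_lt.2 h.le), if_pos h]

theorem wN_rec (a j : ℕ) : wN a j + wN (a + 2) j = if a + 1 = j then 1 else 0 := by
  unfold wN
  by_cases h1 : a + 1 = j
  · subst h1
    rw [if_pos (Nat.lt_succ_self a), if_neg (show ¬ a + 2 < a + 1 by omega), if_pos rfl]
    rcases Nat.mod_two_eq_zero_or_one a with h | h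
    · rw [if_pos ⟨h, by omega⟩, if_neg (by omega)]
      have : (a + 1 - a - 1) / 2 = 0 := by omega
      rw [this, pow_zero, add_zero]
    · rw [if_neg (by omega), if_pos ⟨by omega, by omega⟩]
      have : (a + 2 - (a + 1) - 1) / 2 = 0 := by omega
      rw [this, pow_zero, zero_add]
  · rw [if_neg h1]
    by_cases h2 : a < j
    · rw [if_pos h2]
      by_cases h3 : a % 2 = 0 ∧ j % 2 = 1
      · have h4 : a + 2 < j := by omega
        rw [if_pos h3, if_pos h4, if_pos ⟨by omega, h3.2⟩]
        have : (j - a - 1) / 2 = (j - (a + 2) - 1) / 2 + 1 := by omega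
        rw [this, pow_succ]
        ring
      · rw [if_neg h3]
        by_cases h4 : a + 2 < j
        · rw [if_pos h4, if_neg (by omega), add_zero]
        · rw [if_neg h4, if_neg (by omega), add_zero]
    · rw [if_neg h2, if_neg (show ¬ a + 2 < j by omega)]
      by_cases h3 : j % 2 = 0 ∧ a % 2 = 1
      · rw [if_pos h3, if_pos ⟨h3.1, by omega⟩]
        have : (a + 2 - j - 1) / 2 = (a - j - 1) / 2 + 1 := by omega
        rw [this, pow_succ]
        ring
      · rw [if_neg h3, if_neg (by omega), add_zero]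

theorem wN_one (j : ℕ) : wN 1 j = if 0 = j then 1 else 0 := by
  unfold wN
  by_cases h : 0 = j
  · subst h
    simp
  · rw [if_neg h]
    by_cases h1 : 1 < j
    · rw [if_pos h1, if_neg (by omega)]
    · rw [if_neg h1, if_neg (by omega)]

theorem wN_last (a j : ℕ) (ha : a % 2 = 0) (hj : j ≤ a + 1) :
    wN a j = if a + 1 = j then 1 else 0 := by
  unfold wN
  by_cases h : a + 1 = j
  · subst h
    rw [if_pos (Nat.lt_succ_self a), if_pos rfl, if_pos ⟨ha, by omega⟩]
    have : (a + 1 - a - 1) / 2 = 0 := by omega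
    rw [this, pow_zero]
  · rw [if_neg h, if_neg (show ¬ a < j by omega), if_neg (by omega)]

/-- the inverse -/
def Wn (n : ℕ) : Matrix (Fin n) (Fin n) ℤ := Matrix.of fun i j => wN i j

theorem Pn_symm (n : ℕ) : (Pn n)ᵀ = Pn n := by
  ext i j
  simp only [Pn, Matrix.transpose_apply, Matrix.of_apply]
  congr 1
  exact propext or_comm

theorem Wn_symm (n : ℕ) : (Wn n)ᵀ = Wn n := by
  ext i j
  simp only [Wn, Matrix.transpose_apply, Matrix.of_apply]
  exact wN_symm _ _

theorem PW (n : ℕ) (hn : n % 2 = 0) : Pn n * Wn n = 1 := by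
  ext i j
  rw [Matrix.mul_apply]
  have h1 : ∀ k : Fin n, Pn n i k * Wn n k j = (if (k : ℕ) = i + 1 then wN (i + 1) j else 0) +
      (if (k : ℕ) + 1 = i then wN k j else 0) := by
    intro k
    simp only [Pn, Wn, Matrix.of_apply]
    by_cases ha : (i : ℕ) + 1 = k
    · rw [if_pos (Or.inl ha), if_pos ha.symm, if_neg (by omega), add_zero, one_mul, ha]
    · by_cases hb : (k : ℕ) + 1 = i
      · rw [if_pos (Or.inr hb), if_neg (by omega), if_pos hb, zero_add, one_mul]
      · rw [if_neg (by omega), if_neg (by omega), if_neg hb, zero_mul, add_zero]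
  rw [Finset.sum_congr rfl fun k _ => h1 k, Finset.sum_add_distrib]
  have h2 : ∑ k : Fin n, (if (k : ℕ) = i + 1 then wN (i + 1) j else 0) =
      if (i : ℕ) + 1 < n then wN (i + 1) j else 0 := by
    by_cases h : (i : ℕ) + 1 < n
    · rw [if_pos h, Finset.sum_eq_single (⟨i + 1, h⟩ : Fin n)]
      · rw [if_pos rfl]
      · intro b _ hb
        rw [if_neg]
        intro hb'
        exact hb (Fin.ext hb')
      · intro h'
        exact absurd (Finset.mem_univ _) h'
    · rw [if_neg h]
      refine Finset.sum_eq_zero fun k _ => ?_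
      rw [if_neg]
      have := k.2
      omega
  have h3 : ∑ k : Fin n, (if (k : ℕ) + 1 = i then wN k j else 0) =
      if 0 < (i : ℕ) then wN (i - 1) j else 0 := by
    by_cases h : 0 < (i : ℕ)
    · rw [if_pos h, Finset.sum_eq_single (⟨i - 1, by omega⟩ : Fin n)]
      · rw [if_pos (show ((⟨i - 1, by omega⟩ : Fin n) : ℕ) + 1 = i by simp only []; omega)]
      · intro b _ hb
        rw [if_neg]
        intro hb'
        exact hb (Fin.ext (by simp only []; omega))
      · intro h'
        exact absurd (Finset.mem_univ _) h'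
    · rw [if_neg h]
      refine Finset.sum_eq_zero fun k _ => ?_
      rw [if_neg]
      omega
  rw [h2, h3, Matrix.one_apply]
  have hi := i.2
  have hj := j.2
  have h4 : (i = j) ↔ ((i : ℕ) = j) := Fin.ext_iff
  simp only [h4]
  by_cases ha : 0 < (i : ℕ)
  · obtain ⟨a, ha'⟩ : ∃ a, (i : ℕ) = a + 1 := ⟨i - 1, by omega⟩
    rw [if_pos ha, ha', Nat.add_sub_cancel]
    by_cases hb : a + 1 + 1 < n
    · rw [if_pos hb, add_comm]
      exact wN_rec a j
    · rw [if_neg hb, zero_add]
      exact wN_last a j (by omega) (by omega)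
  · have ha' : (i : ℕ) = 0 := by omega
    rw [if_neg ha, ha', add_zero, if_pos (by omega), zero_add]
    exact wN_one j

theorem WP (n : ℕ) (hn : n % 2 = 0) : Wn n * Pn n = 1 := by
  have h := congrArg Matrix.transpose (PW n hn)
  rwa [Matrix.transpose_mul, Pn_symm, Wn_symm, Matrix.transpose_one] at h

theorem wN_zero : wN 0 0 = 0 := by decide

theorem wN_end (m : ℕ) : wN 0 (4 * m + 3) = -1 := by
  unfold wN
  rw [if_pos (by omega), if_pos ⟨rfl, by omega⟩]
  have : (4 * m + 3 - 0 - 1) / 2 = 2 * m + 1 := by omega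
  rw [this, pow_succ, pow_mul]
  simp

theorem wN_end' (m : ℕ) : wN (4 * m + 3) 0 = -1 := by
  rw [wN_symm, wN_end]

theorem wN_diag (i : ℕ) : wN i i = 0 := by
  unfold wN
  rw [if_neg (lt_irrefl i), if_neg (by omega)]

end Pool.Agent.L0h7.CG
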