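import Pool.Agent.L0h7.CG.Pad

set_option autoImplicit false
set_option linter.unusedSectionVars false

/-! Every kernel dimension of an integer matrix is that of a cubic voltage matrix. -/

namespace Pool.Agent.L0h7.CG

open Matrix TH57.Thr.Ati Pool.Agent.R719.AT Pool.Agent.R472.Grid

variable {G : Type} [Group G] {K L : Type} [Fintype K] [Fintype L] [DecidableEq K] [DecidableEq L]

theorem grid_sq {𝒢 : Set (MonoidAlgebra ℂ G)} (h1 : (1 : MonoidAlgebra ℂ G) ∈ 𝒢)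
    (hneg : ∀ g ∈ 𝒢, -g ∈ 𝒢) (A : Matrix K K (MonoidAlgebra ℂ G))
    (hA : ∀ i j, A i j ∈ Subring.closure 𝒢) :
    ∃ (κ : Type) (_ : Fintype κ) (_ : DecidableEq κ) (B : Matrix κ κ (MonoidAlgebra ℂ G)),
      GridG 𝒢 B ∧ kap B = kap A := by
  classical
  let e : Fin (Fintype.card K) ≃ K := (Fintype.equivFin _).symm
  let A' : Matrix (Fin (Fintype.card K)) (Fin (Fintype.card K)) (Subring.closure 𝒢) :=
    Matrix.of fun i j => ⟨A (e i) (e j), hA _ _⟩
  obtain ⟨ν, i1, i2, P, Q, _, ρ, c, a1, a2, a3, a4, a5, a6, a7⟩ :=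
    grid_form (R := Subring.closure 𝒢) (G := {r | (r : MonoidAlgebra ℂ G) ∈ 𝒢}) h1
      (fun g hg => hneg _ hg) (genBy_closure 𝒢) A'
  let φ : Subring.closure 𝒢 →+* MonoidAlgebra ℂ G := (Subring.closure 𝒢).subtype
  have hφ : ∀ x : Subring.closure 𝒢, φ x ≠ 0 ↔ x ≠ 0 := by
    intro x
    rw [not_iff_not]
    exact ⟨fun h => Subtype.ext h, fun h => by rw [h, map_zero]⟩
  set B' := P.val * fromBlocks A' 0 0 1 * Q.val with hB'
  refine ⟨Fin (Fintype.card K) ⊕ ν, inferInstance, inferInstance, B'.map φ,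
    ⟨ρ, c, a1, a2, a3, fun i j h => a4 i j ((hφ _).1 h), fun i j => ?_, fun i => ?_, fun j => ?_⟩,
    ?_⟩
  · rcases a5 i j with h | h
    · left; change φ (B' i j) = 0; rw [h, map_zero]
    · right; exact h
  · have : {j | B'.map φ i j ≠ 0} = {j | B' i j ≠ 0} := by ext j; exact hφ _
    rw [this]; exact a6 i
  · have : {i | B'.map φ i j ≠ 0} = {i | B' i j ≠ 0} := by ext i; exact hφ _
    rw [this]; exact a7 j
  · have e1 : B'.map φ = P.val.map φ * (fromBlocks (A'.map φ) 0 0 1 * Q.val.map φ) := by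
      rw [hB', Matrix.map_mul, Matrix.map_mul, Matrix.fromBlocks_map, Matrix.mul_assoc]
      simp
    have hP1 : P.val.map φ * P⁻¹.val.map φ = 1 := by
      rw [← Matrix.map_mul, P.mul_inv]; simp
    have hP2 : P⁻¹.val.map φ * P.val.map φ = 1 := by
      rw [← Matrix.map_mul, P.inv_mul]; simp
    have hQ1 : Q.val.map φ * Q⁻¹.val.map φ = 1 := by
      rw [← Matrix.map_mul, Q.mul_inv]; simp
    have e2 : A'.map φ = A.submatrix e e := rfl
    rw [e1, kap_iso _ hP1 hP2, kap_unit_right _ hQ1, kap_stab, e2, kap_re]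

/-- integer coefficients -/
def Zc (A : Matrix K L (MonoidAlgebra ℂ G)) : Prop := ∀ i j g, ∃ z : ℤ, (A i j).coeff g = z

theorem exists_sg (A : Matrix K L (MonoidAlgebra ℂ G)) (hA : Zc A) :
    ∃ (κ : Type) (_ : Fintype κ) (_ : DecidableEq κ) (B : Matrix κ κ (MonoidAlgebra ℂ G)),
      Sg B ∧ kap B = kap A := by
  have h1 : ∀ x : MonoidAlgebra ℂ G, (∀ g, ∃ z : ℤ, x.coeff g = z) →
      x ∈ Subring.closure (gens (Set.univ : Set G) ∅) := fun x hx =>
    mem_closure_gens Set.univ (by simp) ∅ x fun g => by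
      obtain ⟨z, hz⟩ := hx g
      rw [hz]
      exact intCast_mem _ z
  have h2 : ∀ i j, (A * sta A) i j ∈ Subring.closure (gens (Set.univ : Set G) ∅) := by
    intro i j
    rw [Matrix.mul_apply]
    refine sum_mem fun l _ => mul_mem (h1 _ (hA i l)) (h1 _ fun g => ?_)
    obtain ⟨z, hz⟩ := hA j l g⁻¹
    refine ⟨z, ?_⟩
    change (st (A j l)).coeff g = _
    rw [st_coeff, hz]
    simp
  obtain ⟨κ, i1, i2, B, ⟨_, _, _, _, _, _, h3, _, _⟩, hk⟩ :=
    grid_sq (one_gens _ _) (neg_gens _ _) (A * sta A) h2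
  refine ⟨κ, i1, i2, B, fun i j => ?_, by rw [hk, kap_mul_sta]⟩
  rcases h3 i j with h | ⟨s, _, h⟩ | ⟨t, ht, _⟩
  · exact Or.inl h
  · exact Or.inr ⟨s, h⟩
  · exact absurd ht (Set.notMem_empty t)

theorem main (A : Matrix K L (MonoidAlgebra ℂ G)) (hA : Zc A) :
    ∃ (V : Type) (_ : Fintype V) (_ : DecidableEq V) (N : Matrix V V (MonoidAlgebra ℂ G)),
      Vm N ∧ (∀ v, (nb N v).ncard = 3) ∧ kap N = kap A := by
  obtain ⟨κ, i1, i2, B, hB, hk⟩ := exists_sg A hA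
  obtain ⟨V, i3, i4, N, hN, hd, hk'⟩ := exists_cubic B hB
  exact ⟨V, i3, i4, N, hN, hd, hk'.trans hk⟩

end Pool.Agent.L0h7.CG
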