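import Pool.Agent.L0h7.CG.Deg

set_option autoImplicit false
set_option linter.unusedSectionVars false

/-! Every kernel dimension is that of a voltage matrix. -/

namespace Pool.Agent.L0h7.CG

open Matrix TH57.Thr.Ati Pool.Agent.R719.AT Pool.Agent.R472.Grid

variable {G : Type} [Group G] {V : Type} [Fintype V] [DecidableEq V]

/-- the entries are zero or `± g` -/
def Sg (B : Matrix V V (MonoidAlgebra ℂ G)) : Prop := ∀ i j, B i j = 0 ∨
  ∃ s : G, B i j = MonoidAlgebra.single s 1 ∨ B i j = MonoidAlgebra.single s (-1)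

open Classical in
/-- positive part -/
noncomputable def pf (x : MonoidAlgebra ℂ G) : MonoidAlgebra ℂ G :=
  if ∃ s : G, x = MonoidAlgebra.single s 1 then x else 0

/-- positive part -/
noncomputable def ps (B : Matrix V V (MonoidAlgebra ℂ G)) : Matrix V V (MonoidAlgebra ℂ G) :=
  Matrix.of fun i j => pf (B i j)

theorem pf_mo (x : MonoidAlgebra ℂ G) : Mo (pf x) := by
  unfold pf
  split_ifs with h
  · exact Or.inr h
  · exact Mo.zero

theorem ps_mo (B : Matrix V V (MonoidAlgebra ℂ G)) (i j : V) : Mo (ps B i j) := pf_mo _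

theorem single_ne_neg (s t : G) :
    (MonoidAlgebra.single s (-1) : MonoidAlgebra ℂ G) ≠ MonoidAlgebra.single t 1 := by
  classical
  intro h
  have h1 := congrArg (fun x => MonoidAlgebra.coeff x s) h
  simp only [MonoidAlgebra.coeff_single] at h1
  rw [Finsupp.single_eq_same, Finsupp.single_apply] at h1
  split_ifs at h1 <;> norm_num at h1

theorem pf_sub (x : MonoidAlgebra ℂ G) (hx : x = 0 ∨
    ∃ s : G, x = MonoidAlgebra.single s 1 ∨ x = MonoidAlgebra.single s (-1)) :
    pf x - pf (-x) = x := by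
  have hz : ∀ t : G, (0 : MonoidAlgebra ℂ G) ≠ MonoidAlgebra.single t 1 := by
    intro t h
    have h1 := congrArg (fun x => MonoidAlgebra.coeff x t) h
    simp [MonoidAlgebra.coeff_single] at h1
  rcases hx with rfl | ⟨s, rfl | rfl⟩
  · unfold pf
    rw [neg_zero, sub_self]
  · unfold pf
    rw [if_pos ⟨s, rfl⟩, if_neg, sub_zero]
    rintro ⟨t, ht⟩
    rw [← MonoidAlgebra.single_neg] at ht
    exact single_ne_neg s t ht
  · unfold pf
    rw [if_neg, if_pos, zero_sub, neg_neg]
    · exact ⟨s, by rw [← MonoidAlgebra.single_neg, neg_neg]⟩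
    · rintro ⟨t, ht⟩
      exact single_ne_neg s t ht

theorem ps_sub (B : Matrix V V (MonoidAlgebra ℂ G)) (hB : Sg B) : ps B - ps (-B) = B := by
  ext1 i j
  exact pf_sub (B i j) (hB i j)

theorem sta_sub {K L : Type} (P Q : Matrix K L (MonoidAlgebra ℂ G)) :
    sta (P - Q) = sta P - sta Q := by
  ext i j g
  change (st ((P - Q) j i)).coeff g = (st (P j i) - st (Q j i)).coeff g
  rw [st_coeff, MonoidAlgebra.coeff_sub, Finsupp.sub_apply, st_coeff, st_coeff,
    Matrix.sub_apply, MonoidAlgebra.coeff_sub, Finsupp.sub_apply, map_sub]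

theorem exists_volt (B : Matrix V V (MonoidAlgebra ℂ G)) (hB : Sg B) :
    ∃ N : Matrix ((V ⊕ V) ⊕ ((V ⊕ V) ⊕ (V ⊕ V))) ((V ⊕ V) ⊕ ((V ⊕ V) ⊕ (V ⊕ V)))
      (MonoidAlgebra ℂ G), Vm N ∧ kap N = kap B := by
  have hone : ∀ v w : V, Mo ((1 : Matrix V V (MonoidAlgebra ℂ G)) v w) := by
    intro v w
    rw [Matrix.one_apply]
    split_ifs
    · exact Mo.one
    · exact Mo.zero
  refine ⟨sdb (fromBlocks 0 (ps B) (sta (ps B)) 0) (fromBlocks 0 (ps (-B)) 0 1)
    (sta (fromBlocks 0 (ps (-B)) 0 1)) 0, vm_sdb ⟨?_, ?_, ?_⟩ Vm.zero ?_, ?_⟩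
  · rintro (v | v) <;> rfl
  · rintro (v | v) (w | w)
    · exact Mo.zero
    · exact ps_mo B v w
    · exact Mo_st (ps_mo B w v)
    · exact Mo.zero
  · refine symm_of_sta ?_
    rw [sta_fromBlocks, sta_sta, sta_zero]
  · rintro (v | v) (w | w)
    · exact Mo.zero
    · exact ps_mo (-B) v w
    · exact Mo.zero
    · exact hone v w
  · have h2 := kap_self_adj B
    have h3 := ps_sub B hB
    generalize ps (-B) = Q at h3 ⊢
    generalize ps B = P at h3 ⊢
    subst h3
    rw [kap_sdb, ← h2]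
    congr 1
    rw [sta_fromBlocks, sta_zero, sta_one, add_zero, sta_sub]
    ext1 i j
    rcases i with i | i <;> rcases j with j | j
    · simp
    · simp
    · simp
    · simp

end Pool.Agent.L0h7.CG
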