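import Pool.Agent.L0h7.CG.Cover

set_option autoImplicit false
set_option linter.unusedSectionVars false

/-! Connectedness of the covers. -/

namespace Pool.Agent.L0h7.CG

open Matrix TH57.Thr.Ati Pool.Agent.R719.AT Pool.Agent.R472.Grid

variable {G : Type} [Group G] {V : Type} [Fintype V] [DecidableEq V]

/-- joined by a path in the cover -/
def Jg (N : Matrix V V (MonoidAlgebra ℂ G)) (p q : V × G) : Prop :=
  Relation.ReflTransGen (fun a b : V × G =>
    ∃ s : G, N a.1 b.1 = MonoidAlgebra.single s 1 ∧ b.2 = a.2 * s) p q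

theorem Jg.refl {N : Matrix V V (MonoidAlgebra ℂ G)} (p : V × G) : Jg N p p :=
  Relation.ReflTransGen.refl

theorem Jg.trans {N : Matrix V V (MonoidAlgebra ℂ G)} {p q r : V × G} (h1 : Jg N p q)
    (h2 : Jg N q r) : Jg N p r := Relation.ReflTransGen.trans h1 h2

theorem Jg.of {N : Matrix V V (MonoidAlgebra ℂ G)} {v w : V} {s : G} (g : G)
    (h : N v w = MonoidAlgebra.single s 1) : Jg N (v, g) (w, g * s) :=
  Relation.ReflTransGen.single ⟨s, h, rfl⟩

theorem Jg.one {N : Matrix V V (MonoidAlgebra ℂ G)} {v w : V} (g : G)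
    (h : N v w = 1) : Jg N (v, g) (w, g) := by
  have := Jg.of (s := 1) g (h.trans MonoidAlgebra.one_def)
  rwa [mul_one] at this

theorem Jg.symm {N : Matrix V V (MonoidAlgebra ℂ G)} (hN : Vm N) {p q : V × G} (h : Jg N p q) :
    Jg N q p := by
  unfold Jg at h ⊢
  induction h with
  | refl => exact Relation.ReflTransGen.refl
  | tail h1 h2 ih =>
    obtain ⟨s, h3, h4⟩ := h2
    refine (Relation.ReflTransGen.single ⟨s⁻¹, ?_, ?_⟩).trans ih
    · rw [hN.symm, h3, st_single, map_one]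
    · rw [h4, mul_inv_cancel_right]

/-- connected -/
def Cg (N : Matrix V V (MonoidAlgebra ℂ G)) (T : Subgroup G) : Prop :=
  ∀ v w g, ∀ t ∈ T, Jg N (v, g) (w, g * t)

theorem Cg.one {N : Matrix V V (MonoidAlgebra ℂ G)} {T : Subgroup G} (h : Cg N T) (v w : V)
    (g : G) : Jg N (v, g) (w, g) := by
  have := h v w g 1 (one_mem _)
  rwa [mul_one] at this

/-- everything is determined by one vertex -/
theorem cg_of {N : Matrix V V (MonoidAlgebra ℂ G)} (hN : Vm N) {T : Subgroup G} (v₀ : V)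
    (h1 : ∀ v g, Jg N (v₀, g) (v, g)) (h2 : ∀ g, ∀ t ∈ T, Jg N (v₀, g) (v₀, g * t)) : Cg N T :=
  fun v w g t ht => ((h1 v g).symm hN).trans ((h2 g t ht).trans (h1 w _))

theorem cg_dbl {N : Matrix V V (MonoidAlgebra ℂ G)} (hN : Vm N) {T : Subgroup G} (hc : Cg N T)
    (hne : Nonempty V) (σ : V → Set V) :
    Cg (dbl (part N σ True True) (part N σ True False) (sta (part N σ True False))
      (part N σ False False)) T := by
  classical
  set M := dbl (part N σ True True) (part N σ True False) (sta (part N σ True False))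
      (part N σ False False) with hM
  have hvm : Vm M := vm_dbl (part_vm hN σ True) (part_vm hN σ False) (part_mo hN σ True False)
  have ho : ∀ v : V, (1 : Matrix V V (MonoidAlgebra ℂ G)) v v = 1 := Matrix.one_apply_eq
  have h1 : ∀ (v : V) (g : G), Jg M (Sum.inl v, g) (Sum.inr (Sum.inl (Sum.inl v)), g) :=
    fun v g => Jg.one g (ho v)
  have h2 : ∀ (v : V) (g : G), Jg M (Sum.inl v, g) (Sum.inr (Sum.inl (Sum.inr v)), g) :=
    fun v g => (h1 v g).trans (Jg.one g (ho v))
  have h3 : ∀ (v : V) (g : G), Jg M (Sum.inl v, g) (Sum.inr (Sum.inr (Sum.inl v)), g) :=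
    fun v g => (h2 v g).trans (Jg.one g (ho v))
  have h4 : ∀ (v : V) (g : G), Jg M (Sum.inl v, g) (Sum.inr (Sum.inr (Sum.inr v)), g) :=
    fun v g => (h3 v g).trans (Jg.one g (ho v))
  have hp : ∀ (a b : Prop) (v w : V), (w ∈ σ v ↔ a) → (v ∈ σ w ↔ b) →
      part N σ a b v w = N v w := by
    intro a b v w ha hb
    simp only [part, Matrix.of_apply]
    rw [if_pos ⟨ha, hb⟩]
  have h5 : ∀ (v w : V) (s g : G), N v w = MonoidAlgebra.single s 1 →
      Jg M (Sum.inl v, g) (Sum.inl w, g * s) := by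
    intro v w s g h
    by_cases hv : w ∈ σ v <;> by_cases hw : v ∈ σ w
    · exact Jg.of g ((hp True True v w (by simp [hv]) (by simp [hw])).trans h)
    · exact (Jg.of (N := M) (v := Sum.inl v) (w := Sum.inr (Sum.inr (Sum.inr w))) g
        ((hp True False v w (by simp [hv]) (by simp [hw])).trans h)).trans ((h4 w _).symm hvm)
    · refine (h4 v g).trans (Jg.of g ?_)
      change sta (part N σ True False) v w = _
      rw [← part_symm hN σ True False]
      exact (hp False True v w (by simp [hv]) (by simp [hw])).trans h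
    · exact (h4 v g).trans ((Jg.of (N := M) (v := Sum.inr (Sum.inr (Sum.inr v)))
        (w := Sum.inr (Sum.inr (Sum.inr w))) g
        ((hp False False v w (by simp [hv]) (by simp [hw])).trans h)).trans ((h4 w _).symm hvm))
  have h6 : ∀ p q : V × G, Jg N p q → Jg M (Sum.inl p.1, p.2) (Sum.inl q.1, q.2) := by
    intro p q hpq
    unfold Jg at hpq
    induction hpq with
    | refl => exact Jg.refl _
    | tail _ h ih =>
      obtain ⟨s, ha, hb⟩ := h
      refine ih.trans ?_
      rw [hb]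
      exact h5 _ _ s _ ha
  refine cg_of hvm (Sum.inl hne.some) ?_ fun g t ht => h6 _ _ (hc _ _ g t ht)
  rintro (v | (v | v) | (v | v)) g
  · exact h6 _ _ (hc.one _ v g)
  · exact (h6 _ _ (hc.one _ v g)).trans (h1 v g)
  · exact (h6 _ _ (hc.one _ v g)).trans (h2 v g)
  · exact (h6 _ _ (hc.one _ v g)).trans (h3 v g)
  · exact (h6 _ _ (hc.one _ v g)).trans (h4 v g)

/-- distance from the vertex 0 in the graph `Zm` -/
def dz : Fin 13 → ℕ := ![0, 2, 4, 2, 1, 3, 3, 3, 2, 3, 3, 2, 1]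

/-- the next vertex on a shortest path to the vertex 0 -/
def pz : Fin 13 → Fin 13 := ![0, 4, 5, 12, 0, 8, 3, 11, 12, 1, 1, 4, 0]

theorem dz_dec' : ∀ p : Fin 13, p = 0 ∨ (Zm p (pz p) = 1 ∧ dz (pz p) < dz p) := by decide +kernel

theorem dz_dec (p : Fin 13) (h : p ≠ 0) : ∃ l, Zm p l = 1 ∧ dz l < dz p := by
  rcases dz_dec' p with h' | h'
  · exact absurd h' h
  · exact ⟨pz p, h'⟩

theorem cg_cub {N : Matrix V V (MonoidAlgebra ℂ G)} (hN : Vm N) {T : Subgroup G} (hc : Cg N T)
    (hne : Nonempty V) : Cg (cub N) T := by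
  have hvm := vm_cub N hN
  have h1 : ∀ (y : Pl N) (g : G) (n : ℕ) (k : Fin 13), dz k ≤ n → Jg (cub N)
      (Sum.inr (k, y), g) (Sum.inr (0, y), g) := by
    intro y g n
    induction n with
    | zero =>
      intro k hk
      by_cases h0 : k = 0
      · rw [h0]
        exact Jg.refl _
      · obtain ⟨l, _, hl⟩ := dz_dec k h0
        omega
    | succ n ih =>
      intro k hk
      by_cases h0 : k = 0
      · rw [h0]
        exact Jg.refl _
      · obtain ⟨l, hl1, hl2⟩ := dz_dec k h0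
        refine Jg.trans (Jg.one g ?_) (ih l (by omega))
        change blockDiagonal (fun _ : Pl N => (zc Zm : Matrix (Fin 13) (Fin 13)
              (MonoidAlgebra ℂ G))) (k, y) (l, y) = 1
        rw [blockDiagonal_apply, if_pos rfl]
        unfold zc
        rw [Matrix.map_apply, hl1, map_one]
  have h2 : ∀ (y : Pl N) (g : G), Jg (cub N) (Sum.inr (0, y), g) (Sum.inl y.1, g) := by
    intro y g
    refine Jg.one g ?_
    change st (if (0 : Fin 13) = 0 ∧ y.1 = y.1 then (1 : MonoidAlgebra ℂ G) else 0) = 1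
    rw [if_pos ⟨rfl, rfl⟩, st_one]
  have h6 : ∀ p q : V × G, Jg N p q → Jg (cub N) (Sum.inl p.1, p.2) (Sum.inl q.1, q.2) := by
    intro p q hpq
    unfold Jg at hpq
    induction hpq with
    | refl => exact Jg.refl _
    | tail _ h ih =>
      obtain ⟨s, ha, hb⟩ := h
      refine ih.trans ?_
      rw [hb]
      exact Jg.of _ ha
  refine cg_of hvm (Sum.inl hne.some) ?_ fun g t ht => h6 _ _ (hc _ _ g t ht)
  rintro (v | ⟨k, y⟩) g
  · exact h6 _ _ (hc.one _ v g)
  · exact (h6 _ _ (hc.one _ y.1 g)).trans (((h1 y g _ k le_rfl).trans (h2 y g)).symm hvm)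

/-- one step, keeping the cover connected -/
theorem lower_cg (N : Matrix V V (MonoidAlgebra ℂ G)) (hN : Vm N) {T : Subgroup G} (hc : Cg N T)
    (hne : Nonempty V) (D : ℕ) (hD : 3 ≤ D) (h : ∀ v, (nb N v).ncard ≤ D + 1) :
    ∃ N' : Matrix (V ⊕ ((V ⊕ V) ⊕ (V ⊕ V))) (V ⊕ ((V ⊕ V) ⊕ (V ⊕ V))) (MonoidAlgebra ℂ G),
      Vm N' ∧ Cg N' T ∧ (∀ v, (nb N' v).ncard ≤ D) ∧ kap N' = kap N := by
  obtain ⟨σ, hd⟩ := lower' N hN D hD h
  exact ⟨_, vm_dbl (part_vm hN σ True) (part_vm hN σ False) (part_mo hN σ True False),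
    cg_dbl hN hc hne σ, hd, by rw [kap_dbl, ← part_symm hN σ True False, part_sum]⟩

theorem lower_all_cg (T : Subgroup G) (k : ℕ) : ∀ (V : Type) [Fintype V] [DecidableEq V]
    (N : Matrix V V (MonoidAlgebra ℂ G)), Vm N → Cg N T → Nonempty V →
    (∀ v, (nb N v).ncard ≤ 3 + k) →
    ∃ (V' : Type) (_ : Fintype V') (_ : DecidableEq V') (N' : Matrix V' V' (MonoidAlgebra ℂ G)),
      Vm N' ∧ Cg N' T ∧ Nonempty V' ∧ (∀ v, (nb N' v).ncard ≤ 3) ∧ kap N' = kap N := by
  induction k with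
  | zero => exact fun V i1 i2 N hN hc hne h => ⟨V, i1, i2, N, hN, hc, hne, h, rfl⟩
  | succ k ih =>
    intro V i1 i2 N hN hc hne h
    obtain ⟨N', hN', hc', h', hk⟩ := lower_cg N hN hc hne (3 + k) (by omega) h
    obtain ⟨V'', i3, i4, N'', hN'', hc'', hne'', h'', hk'⟩ := ih _ N' hN' hc'
      ⟨Sum.inl hne.some⟩ h'
    exact ⟨V'', i3, i4, N'', hN'', hc'', hne'', h'', hk'.trans hk⟩

/-- the complete graph with voltages -/
noncomputable def Kt {V : Type} [DecidableEq V] (τ : V → V → G) : Matrix V V (MonoidAlgebra ℂ G) :=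
  Matrix.of fun v w => if v = w then 0 else MonoidAlgebra.single (τ v w) 1

/-- half of the complete graph with voltages -/
noncomputable def Kh {V : Type} [Fintype V] [DecidableEq V] (τ : V → V → G) :
    Matrix V V (MonoidAlgebra ℂ G) :=
  Matrix.of fun v w => if (Fintype.equivFin V) v < (Fintype.equivFin V) w then
    MonoidAlgebra.single (τ v w) 1 else 0

theorem Kh_mo (τ : V → V → G) (v w : V) : Mo (Kh τ v w) := by
  unfold Kh
  rw [Matrix.of_apply]
  split_ifs
  · exact Or.inr ⟨_, rfl⟩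
  · exact Mo.zero

theorem Kt_vm {τ : V → V → G} (hτ : ∀ v w, τ w v = (τ v w)⁻¹) : Vm (Kt τ) := by
  refine ⟨fun v => ?_, fun v w => ?_, fun v w => ?_⟩
  · unfold Kt
    rw [Matrix.of_apply, if_pos rfl]
  · unfold Kt
    rw [Matrix.of_apply]
    split_ifs
    · exact Mo.zero
    · exact Or.inr ⟨_, rfl⟩
  · unfold Kt
    rw [Matrix.of_apply, Matrix.of_apply]
    by_cases h : v = w
    · rw [if_pos h, if_pos h.symm, st_zero]
    · rw [if_neg h, if_neg (Ne.symm h), st_single, map_one, hτ v w]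

theorem Kh_add {τ : V → V → G} (hτ : ∀ v w, τ w v = (τ v w)⁻¹) : Kh τ + sta (Kh τ) = Kt τ := by
  ext1 v w
  change (if (Fintype.equivFin V) v < (Fintype.equivFin V) w then
      (MonoidAlgebra.single (τ v w) 1 : MonoidAlgebra ℂ G) else 0) +
    st (if (Fintype.equivFin V) w < (Fintype.equivFin V) v then
      (MonoidAlgebra.single (τ w v) 1 : MonoidAlgebra ℂ G) else 0) =
    if v = w then 0 else MonoidAlgebra.single (τ v w) 1
  rcases lt_trichotomy ((Fintype.equivFin V) v) ((Fintype.equivFin V) w) with h | h | h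
  · rw [if_pos h, if_neg (not_lt.2 h.le), st_zero, add_zero, if_neg]
    rintro rfl
    exact lt_irrefl _ h
  · rw [if_neg h.not_lt, if_neg h.not_gt, st_zero, add_zero,
      if_pos ((Fintype.equivFin V).injective h)]
  · rw [if_neg (not_lt.2 h.le), if_pos h, st_single, map_one, zero_add, if_neg, hτ v w, inv_inv]
    rintro rfl
    exact lt_irrefl _ h

/-- the voltages: the numbers `s i` on the edges from `a` to `b i` -/
def tau {n : ℕ} (s : Fin n → G) : V ⊕ (Option (Fin n) ⊕ Option (Fin n)) →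
    V ⊕ (Option (Fin n) ⊕ Option (Fin n)) → G
  | Sum.inr (Sum.inl none), Sum.inr (Sum.inr (some i)) => s i
  | Sum.inr (Sum.inr (some i)), Sum.inr (Sum.inl none) => (s i)⁻¹
  | _, _ => 1

theorem tau_inv {n : ℕ} (s : Fin n → G) (v w : V ⊕ (Option (Fin n) ⊕ Option (Fin n))) :
    tau s w v = (tau s v w)⁻¹ := by
  rcases v with v | (_ | v) | (_ | v) <;> rcases w with w | (_ | w) | (_ | w) <;>
    simp [tau]

theorem tau_inl {n : ℕ} (s : Fin n → G) (v : V) (w : V ⊕ (Option (Fin n) ⊕ Option (Fin n))) :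
    tau s (Sum.inl v) w = 1 := by
  rcases w with w | (_ | w) | (_ | w) <;> simp [tau]

theorem exists_cg' (N : Matrix V V (MonoidAlgebra ℂ G)) (hN : Vm N) {n : ℕ}
    (s : Fin n → G) (τ : V → V → G) (hτ : ∀ v w, τ w v = (τ v w)⁻¹) (v₀ : V)
    (h0 : ∀ w, τ v₀ w = 1) (hs : ∀ i, ∃ a b, a ≠ b ∧ τ a b = s i) :
    ∃ (V' : Type) (_ : Fintype V') (_ : DecidableEq V') (_ : Nonempty V')
      (N' : Matrix V' V' (MonoidAlgebra ℂ G)), Vm N' ∧
      Cg N' (Subgroup.closure (Set.range s)) ∧ kap N' = kap N := by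
  have hvt := Kt_vm hτ
  have hvm := vm_sdb hN hvt (Kh_mo τ)
  refine ⟨V ⊕ (V ⊕ V), inferInstance, inferInstance, ⟨Sum.inl v₀⟩,
    sdb N (Kh τ) (sta (Kh τ)) (Kt τ), hvm, ?_, ?_⟩
  · set M := sdb N (Kh τ) (sta (Kh τ)) (Kt τ) with hM
    have h1 : ∀ (v : V) (g : G), Jg M (Sum.inr (Sum.inr v), g) (Sum.inr (Sum.inl v), g) :=
      fun v g => Jg.one g (Matrix.one_apply_eq v)
    have h2 : ∀ (v : V) (g : G), Jg M (Sum.inr (Sum.inl v), g) (Sum.inl v, g) :=
      fun v g => Jg.one g (Matrix.one_apply_eq v)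
    have h3 : ∀ (v w : V) (g : G), v ≠ w → Jg M (Sum.inr (Sum.inr v), g)
        (Sum.inr (Sum.inr w), g * τ v w) := by
      intro v w g h
      exact Jg.of g (if_neg h)
    have h4 : ∀ (w : V) (g : G), Jg M (Sum.inr (Sum.inr v₀), g) (Sum.inr (Sum.inr w), g) := by
      intro w g
      by_cases h : v₀ = w
      · rw [h]
        exact Jg.refl _
      · have := h3 v₀ w g h
        rwa [h0, mul_one] at this
    have h5 : ∀ (i : Fin n) (g : G), Jg M (Sum.inr (Sum.inr v₀), g)
        (Sum.inr (Sum.inr v₀), g * s i) := by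
      intro i g
      obtain ⟨a, b, hab, h7⟩ := hs i
      have h6 := h3 a b g hab
      rw [h7] at h6
      exact (h4 _ g).trans (h6.trans ((h4 _ _).symm hvm))
    have h8 : ∀ t ∈ Subgroup.closure (Set.range s), ∀ g, Jg M (Sum.inr (Sum.inr v₀), g)
        (Sum.inr (Sum.inr v₀), g * t) := by
      intro t ht
      induction ht using Subgroup.closure_induction with
      | mem x hx =>
        obtain ⟨i, rfl⟩ := hx
        exact h5 i
      | one =>
        intro g
        rw [mul_one]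
        exact Jg.refl _
      | mul x y _ _ hx hy =>
        intro g
        rw [← mul_assoc]
        exact (hx g).trans (hy _)
      | inv x _ hx =>
        intro g
        have := (hx (g * x⁻¹)).symm hvm
        rwa [inv_mul_cancel_right] at this
    refine cg_of hvm (Sum.inr (Sum.inr v₀)) ?_ fun g t ht => h8 t ht g
    rintro (v | v | v) g
    · exact (h4 v g).trans ((h1 v g).trans (h2 v g))
    · exact (h4 v g).trans (h1 v g)
    · exact h4 v g
  · rw [kap_sdb, ← Kh_add hτ]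
    congr 1
    abel

/-- new vertices -/
noncomputable def newv (N : Matrix V V (MonoidAlgebra ℂ G)) (n : ℕ) :
    Matrix (V ⊕ (Option (Fin n) ⊕ Option (Fin n))) (V ⊕ (Option (Fin n) ⊕ Option (Fin n)))
      (MonoidAlgebra ℂ G) :=
  fromBlocks N 0 0 (fromBlocks 0 1 1 0)

theorem newv_vm {N : Matrix V V (MonoidAlgebra ℂ G)} (hN : Vm N) (n : ℕ) : Vm (newv N n) := by
  have hone : ∀ v w : Option (Fin n), Mo ((1 : Matrix (Option (Fin n)) (Option (Fin n))
      (MonoidAlgebra ℂ G)) v w) := by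
    intro v w
    rw [Matrix.one_apply]
    split_ifs
    · exact Mo.one
    · exact Mo.zero
  refine ⟨?_, ?_, symm_of_sta ?_⟩
  · rintro (v | v | v)
    · exact hN.irr v
    · rfl
    · rfl
  · rintro (v | v | v) (w | w | w)
    all_goals first
      | exact Mo.zero
      | exact hone v w
      | exact hN.mo v w
  · rw [newv, sta_fromBlocks, sta_fromBlocks, sta_zero, sta_zero, sta_zero, sta_one, vm_sta hN]

theorem newv_kap (N : Matrix V V (MonoidAlgebra ℂ G)) (n : ℕ) : kap (newv N n) = kap N := by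
  have h1 : (fromBlocks 0 1 1 0 : Matrix (Option (Fin n) ⊕ Option (Fin n))
      (Option (Fin n) ⊕ Option (Fin n)) (MonoidAlgebra ℂ G)) * fromBlocks 0 1 1 0 = 1 := by
    simp [fromBlocks_multiply]
  rw [newv, kap_schur _ _ _ h1 h1]
  simp

theorem exists_cg [Nonempty V] (N : Matrix V V (MonoidAlgebra ℂ G)) (hN : Vm N) {n : ℕ}
    (s : Fin n → G) :
    ∃ (V' : Type) (_ : Fintype V') (_ : DecidableEq V') (_ : Nonempty V')
      (N' : Matrix V' V' (MonoidAlgebra ℂ G)), Vm N' ∧
      Cg N' (Subgroup.closure (Set.range s)) ∧ kap N' = kap N := by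
  obtain ⟨V', i1, i2, i3, N', h1, h2, h3⟩ := exists_cg' (newv N n) (newv_vm hN n) s (tau s)
    (tau_inv s) (Sum.inl (Classical.arbitrary V)) (tau_inl s _) fun i =>
      ⟨Sum.inr (Sum.inl none), Sum.inr (Sum.inr (some i)),
        fun h => Sum.inl_ne_inr (Sum.inr.inj h), by simp [tau]⟩
  exact ⟨V', i1, i2, i3, N', h1, h2, h3.trans (newv_kap N n)⟩

/-- from a voltage matrix to a connected cubic one -/
theorem cg_cubic [Nonempty V] (N : Matrix V V (MonoidAlgebra ℂ G)) (hN : Vm N) {n : ℕ}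
    (s : Fin n → G) :
    ∃ (V' : Type) (_ : Fintype V') (_ : DecidableEq V') (N' : Matrix V' V' (MonoidAlgebra ℂ G)),
      Vm N' ∧ Cg N' (Subgroup.closure (Set.range s)) ∧ Nonempty V' ∧
      (∀ v, (nb N' v).ncard = 3) ∧ kap N' = kap N := by
  obtain ⟨V₂, i1, i2, n2, N₂, h2, c2, k2⟩ := exists_cg N hN s
  obtain ⟨V', i3, i4, N₃, h3, c3, n3, d3, k3⟩ := lower_all_cg (G := G) _
    (Fintype.card V₂) _ N₂ h2 c2 n2 fun v => by
      have := Set.ncard_le_card (nb N₂ v)
      rw [Nat.card_eq_fintype_card] at this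
      exact this.trans (Nat.le_add_left _ _)
  exact ⟨V' ⊕ (Fin 13 × Pl N₃), inferInstance, inferInstance, cub N₃, vm_cub N₃ h3,
    cg_cub h3 c3 n3, ⟨Sum.inl n3.some⟩, nb_cub N₃ d3, by rw [kap_cub, k3, k2]⟩

theorem main_cg {K L : Type} [Fintype K] [Fintype L] [DecidableEq K] [DecidableEq L]
    (A : Matrix K L (MonoidAlgebra ℂ G)) (hA : Zc A) {n : ℕ} (s : Fin n → G) :
    ∃ (V : Type) (_ : Fintype V) (_ : DecidableEq V) (N : Matrix V V (MonoidAlgebra ℂ G)),
      Vm N ∧ Cg N (Subgroup.closure (Set.range s)) ∧ Nonempty V ∧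
      (∀ v, (nb N v).ncard = 3) ∧ kap N = kap A := by
  obtain ⟨κ, i1, i2, B, hB, hk⟩ := exists_sg A hA
  have hB' : Sg (fromBlocks B 0 0 (1 : Matrix Unit Unit (MonoidAlgebra ℂ G))) := by
    rintro (i | i) (j | j)
    · exact hB i j
    · exact Or.inl rfl
    · exact Or.inl rfl
    · refine Or.inr ⟨1, Or.inl ?_⟩
      change (1 : Matrix Unit Unit (MonoidAlgebra ℂ G)) i j = _
      rw [Subsingleton.elim i j, Matrix.one_apply_eq, MonoidAlgebra.one_def]
  obtain ⟨N₁, h1, k1⟩ := exists_volt _ hB'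
  obtain ⟨V', i3, i4, N', h3, c3, n3, d3, k3⟩ := cg_cubic N₁ h1 s
  exact ⟨V', i3, i4, N', h3, c3, n3, d3, by rw [k3, k1, kap_stab, hk]⟩

theorem adj_of {N : Matrix V V (MonoidAlgebra ℂ G)} {Q : SimpleGraph V} {γ : V → V → G}
    (h2 : vmat Q γ = N) {v w : V} {s : G} (h : N v w = MonoidAlgebra.single s 1) :
    Q.Adj v w ∧ γ v w = s := by
  classical
  rw [← h2] at h
  unfold vmat at h
  rw [Matrix.of_apply] at h
  by_cases hQ : Q.Adj v w
  · rw [if_pos hQ] at h
    refine ⟨hQ, ?_⟩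
    have h4 := congrArg (fun x => MonoidAlgebra.coeff x s) h
    simp only [MonoidAlgebra.coeff_single, Finsupp.single_eq_same, Finsupp.single_apply] at h4
    by_contra h5
    rw [if_neg h5] at h4
    exact zero_ne_one h4
  · rw [if_neg hQ] at h
    have h4 := congrArg (fun x => MonoidAlgebra.coeff x s) h
    simp [MonoidAlgebra.coeff_single] at h4

theorem reach_of {N : Matrix V V (MonoidAlgebra ℂ G)} {Q : SimpleGraph V} {γ : V → V → G}
    (h1 : ∀ v w, γ w v = (γ v w)⁻¹) (h2 : vmat Q γ = N) {p q : V × G} (h : Jg N p q) :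
    (cover Q γ).Reachable p q := by
  unfold Jg at h
  induction h with
  | refl => exact SimpleGraph.Reachable.refl _
  | tail _ h ih =>
    obtain ⟨s, ha, hb⟩ := h
    obtain ⟨h3, h4⟩ := adj_of h2 ha
    refine ih.trans (SimpleGraph.Adj.reachable ⟨h3, ?_, ?_⟩)
    · rw [h4, hb]
    · rw [h1, h4, hb, mul_inv_cancel_right]

theorem reach_base {N : Matrix V V (MonoidAlgebra ℂ G)} {Q : SimpleGraph V} {γ : V → V → G}
    (h2 : vmat Q γ = N) {p q : V × G} (h : Jg N p q) : Q.Reachable p.1 q.1 := by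
  unfold Jg at h
  induction h with
  | refl => exact SimpleGraph.Reachable.refl _
  | tail _ h ih =>
    obtain ⟨s, ha, hb⟩ := h
    exact ih.trans (SimpleGraph.Adj.reachable (adj_of h2 ha).1)

/-- every kernel dimension is the nullity of a cover of a finite connected cubic graph -/
theorem cg_cover {K L : Type} [Fintype K] [Fintype L] [DecidableEq K] [DecidableEq L]
    (A : Matrix K L (MonoidAlgebra ℂ G)) (hA : Zc A) :
    ∃ (V : Type) (_ : Fintype V) (Q : SimpleGraph V) (γ : V → V → G),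
      Q.Connected ∧ (∀ v, (Q.neighborSet v).ncard = 3) ∧ (∀ v w, γ w v = (γ v w)⁻¹) ∧
      (Group.FG G → (cover Q γ).Connected) ∧ nullity (cover Q γ) = kap A := by
  classical
  by_cases hG : Group.FG G
  · obtain ⟨S, hS⟩ := (Group.fg_def.1 hG)
    let s : Fin S.card → G := fun i => (S.equivFin.symm i : G)
    have hs : Set.range s = S := by
      ext x
      constructor
      · rintro ⟨i, rfl⟩
        exact (S.equivFin.symm i).2
      · intro hx
        exact ⟨S.equivFin ⟨x, hx⟩, by simp [s]⟩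
    obtain ⟨V, i1, i2, N, hN, hc, ⟨v₀⟩, hd, hk⟩ := main_cg A hA s
    obtain ⟨Q, γ, h1, h2, h3⟩ := exists_cover N hN
    rw [hs, hS] at hc
    refine ⟨V, i1, Q, γ, ?_, fun v => by rw [h3, hd], h1, fun _ => ?_,
      by rw [nullity_eq Q γ h1, h2, hk]⟩
    · have : Nonempty V := ⟨v₀⟩
      exact ⟨fun v w => reach_base h2 (hc v w 1 1 trivial)⟩
    · have : Nonempty (V × G) := ⟨(v₀, 1)⟩
      refine ⟨fun p q => ?_⟩
      have := reach_of h1 h2 (hc p.1 q.1 p.2 (p.2⁻¹ * q.2) trivial)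
      rwa [mul_inv_cancel_left] at this
  · obtain ⟨V, i1, i2, N, hN, hc, ⟨v₀⟩, hd, hk⟩ := main_cg A hA (fun i : Fin 0 => (1 : G))
    obtain ⟨Q, γ, h1, h2, h3⟩ := exists_cover N hN
    refine ⟨V, i1, Q, γ, ?_, fun v => by rw [h3, hd], h1, fun h => absurd h hG,
      by rw [nullity_eq Q γ h1, h2, hk]⟩
    have : Nonempty V := ⟨v₀⟩
    exact ⟨fun v w => reach_base h2 (hc v w 1 1 (one_mem _))⟩

end Pool.Agent.L0h7.CG
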