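import Pool.Agent.L0h7.CG.Basic

set_option autoImplicit false
set_option linter.unusedSectionVars false

/-! Voltage matrices: adjacency matrices of regular covers of finite graphs. -/

namespace Pool.Agent.L0h7.CG

open Matrix TH57.Thr.Ati Pool.Agent.R719.AT Pool.Agent.R472.Grid

variable {G : Type} [Group G] {K L M V : Type} [Fintype K] [Fintype L] [Fintype M] [Fintype V]
  [DecidableEq K] [DecidableEq L] [DecidableEq M] [DecidableEq V]

/-- zero or a group element -/
def Mo (x : MonoidAlgebra ℂ G) : Prop := x = 0 ∨ ∃ g : G, x = MonoidAlgebra.single g 1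

theorem Mo.zero : Mo (0 : MonoidAlgebra ℂ G) := Or.inl rfl

theorem Mo.one : Mo (1 : MonoidAlgebra ℂ G) := Or.inr ⟨1, MonoidAlgebra.one_def⟩

theorem st_one : st (1 : MonoidAlgebra ℂ G) = 1 := by
  rw [MonoidAlgebra.one_def, st_single]
  simp

theorem st_st (x : MonoidAlgebra ℂ G) : st (st x) = x := by
  ext g
  rw [st_coeff, st_coeff]
  simp

theorem st_ne {x : MonoidAlgebra ℂ G} : st x ≠ 0 ↔ x ≠ 0 := by
  constructor
  · intro h h'
    exact h (by rw [h', st_zero])
  · intro h h'
    exact h (by rw [← st_st x, h', st_zero])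

theorem Mo_st {x : MonoidAlgebra ℂ G} (h : Mo x) : Mo (st x) := by
  rcases h with h | ⟨g, h⟩
  · left; rw [h, st_zero]
  · right; exact ⟨g⁻¹, by rw [h, st_single, map_one]⟩

/-- adjacency matrices of regular covers of finite simple graphs -/
structure Vm (N : Matrix V V (MonoidAlgebra ℂ G)) : Prop where
  irr : ∀ v, N v v = 0
  mo : ∀ v w, Mo (N v w)
  symm : ∀ v w, N w v = st (N v w)

theorem Vm.zero : Vm (0 : Matrix V V (MonoidAlgebra ℂ G)) :=
  ⟨fun _ => rfl, fun _ _ => Mo.zero, fun _ _ => st_zero.symm⟩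

/-- the neighbours -/
def nb (N : Matrix V V (MonoidAlgebra ℂ G)) (v : V) : Set V := {w | N v w ≠ 0}

theorem sta_fromBlocks {K' L' : Type} (A : Matrix K L (MonoidAlgebra ℂ G))
    (B : Matrix K L' (MonoidAlgebra ℂ G)) (C : Matrix K' L (MonoidAlgebra ℂ G))
    (D : Matrix K' L' (MonoidAlgebra ℂ G)) :
    sta (fromBlocks A B C D) = fromBlocks (sta A) (sta C) (sta B) (sta D) := by
  ext1 i j
  rcases i with i | i <;> rcases j with j | j <;> rfl

theorem sta_fromRows {K' : Type} (A : Matrix K L (MonoidAlgebra ℂ G))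
    (B : Matrix K' L (MonoidAlgebra ℂ G)) : sta (fromRows A B) = fromCols (sta A) (sta B) := by
  ext1 i j
  rcases j with j | j <;> rfl

theorem sta_fromCols {L' : Type} (A : Matrix K L (MonoidAlgebra ℂ G))
    (B : Matrix K L' (MonoidAlgebra ℂ G)) : sta (fromCols A B) = fromRows (sta A) (sta B) := by
  ext1 i j
  rcases i with i | i <;> rfl

theorem sta_zero {K L : Type} : sta (0 : Matrix K L (MonoidAlgebra ℂ G)) = 0 := by
  ext1 i j
  exact st_zero

theorem sta_one : sta (1 : Matrix V V (MonoidAlgebra ℂ G)) = 1 := by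
  ext1 v w
  change st ((1 : Matrix V V (MonoidAlgebra ℂ G)) w v) = _
  rw [Matrix.one_apply, Matrix.one_apply]
  by_cases h : w = v
  · rw [if_pos h, if_pos h.symm, st_one]
  · rw [if_neg h, if_neg (Ne.symm h), st_zero]

theorem sta_sta {K L : Type} (A : Matrix K L (MonoidAlgebra ℂ G)) : sta (sta A) = A := by
  ext1 i j
  exact st_st _

theorem vm_sta {N : Matrix V V (MonoidAlgebra ℂ G)} (h : Vm N) : sta N = N := by
  ext1 v w
  exact (h.symm w v).symm

theorem symm_of_sta {N : Matrix V V (MonoidAlgebra ℂ G)} (h : sta N = N) (v w : V) :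
    N w v = st (N v w) := by
  conv_lhs => rw [← h]
  rfl

theorem vm_dbl {X₁ X₂ X₄ : Matrix V V (MonoidAlgebra ℂ G)} (h1 : Vm X₁) (h4 : Vm X₄)
    (h2 : ∀ v w, Mo (X₂ v w)) : Vm (dbl X₁ X₂ (sta X₂) X₄) := by
  have hone : ∀ v w : V, Mo ((1 : Matrix V V (MonoidAlgebra ℂ G)) v w) := by
    intro v w
    rw [Matrix.one_apply]
    split_ifs
    · exact Mo.one
    · exact Mo.zero
  refine ⟨?_, ?_, ?_⟩
  · rintro (v | (v | v) | (v | v))
    · exact h1.irr v
    · rfl
    · rfl
    · rfl
    · exact h4.irr v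
  · rintro (v | (v | v) | (v | v)) (w | (w | w) | (w | w))
    all_goals first
      | exact Mo.zero
      | exact hone v w
      | exact h1.mo v w
      | exact h2 v w
      | exact Mo_st (h2 w v)
      | exact h4.mo v w
  · refine symm_of_sta ?_
    unfold dbl
    rw [sta_fromBlocks, sta_fromBlocks, sta_fromBlocks, sta_fromBlocks, sta_fromBlocks,
      sta_fromBlocks, sta_fromCols, sta_fromCols, sta_fromCols, sta_fromRows, sta_fromRows,
      sta_fromRows, sta_sta, sta_one, sta_zero, vm_sta h1, vm_sta h4]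

theorem vm_sdb {X₁ X₂ X₄ : Matrix V V (MonoidAlgebra ℂ G)} (h1 : Vm X₁) (h4 : Vm X₄)
    (h2 : ∀ v w, Mo (X₂ v w)) : Vm (sdb X₁ X₂ (sta X₂) X₄) := by
  have hone : ∀ v w : V, Mo ((1 : Matrix V V (MonoidAlgebra ℂ G)) v w) := by
    intro v w
    rw [Matrix.one_apply]
    split_ifs
    · exact Mo.one
    · exact Mo.zero
  refine ⟨?_, ?_, ?_⟩
  · rintro (v | v | v)
    · exact h1.irr v
    · rfl
    · exact h4.irr v
  · rintro (v | v | v) (w | w | w)
    all_goals first
      | exact Mo.zero
      | exact hone v w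
      | exact h1.mo v w
      | exact h2 v w
      | exact Mo_st (h2 w v)
      | exact h4.mo v w
  · refine symm_of_sta ?_
    unfold sdb
    rw [sta_fromBlocks, sta_fromBlocks, sta_fromCols, sta_fromRows, sta_sta, sta_one, sta_zero,
      vm_sta h1, vm_sta h4]

/-- splitting of a voltage matrix -/
noncomputable def part (N : Matrix V V (MonoidAlgebra ℂ G)) (σ : V → Set V) (a b : Prop) :
    Matrix V V (MonoidAlgebra ℂ G) := by
  classical
  exact Matrix.of fun v w => if (w ∈ σ v ↔ a) ∧ (v ∈ σ w ↔ b) then N v w else 0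

theorem part_sum (N : Matrix V V (MonoidAlgebra ℂ G)) (σ : V → Set V) :
    part N σ True True + part N σ True False + part N σ False True + part N σ False False = N := by
  classical
  ext1 v w
  simp only [part, Matrix.add_apply, Matrix.of_apply]
  by_cases h1 : w ∈ σ v <;> by_cases h2 : v ∈ σ w <;> simp [h1, h2]

theorem part_mo {N : Matrix V V (MonoidAlgebra ℂ G)} (hN : Vm N) (σ : V → Set V) (a b : Prop)
    (v w : V) : Mo (part N σ a b v w) := by
  classical
  simp only [part, Matrix.of_apply]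
  split_ifs
  · exact hN.mo v w
  · exact Mo.zero

theorem part_symm {N : Matrix V V (MonoidAlgebra ℂ G)} (hN : Vm N) (σ : V → Set V) (a b : Prop) :
    part N σ b a = sta (part N σ a b) := by
  classical
  ext1 v w
  change _ = st (part N σ a b w v)
  simp only [part, Matrix.of_apply]
  by_cases h : (v ∈ σ w ↔ a) ∧ (w ∈ σ v ↔ b)
  · rw [if_pos h, if_pos ⟨h.2, h.1⟩]
    exact hN.symm w v
  · rw [if_neg h, if_neg fun h' => h ⟨h'.2, h'.1⟩, st_zero]

theorem part_vm {N : Matrix V V (MonoidAlgebra ℂ G)} (hN : Vm N) (σ : V → Set V) (a : Prop) :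
    Vm (part N σ a a) := by
  classical
  refine ⟨fun v => ?_, part_mo hN σ a a, fun v w => ?_⟩
  · simp only [part, Matrix.of_apply]
    rw [hN.irr, ite_self]
  · conv_lhs => rw [part_symm hN σ a a]
    rfl

end Pool.Agent.L0h7.CG
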